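import Pool.Agent.Helper41.Gauss

/-! # Polar sets for the double points of the Brownian sheet: definitions -/

set_option autoImplicit false

namespace Pool.Agent.T2H03.DS

open MeasureTheory ProbabilityTheory Finset Filter Topology Pool.Agent.Helper41
open scoped ENNReal NNReal

/-! ## The theorem -/

/-- `B` is a `d`-dimensional Brownian sheet: measurable, almost surely continuous on the closed quadrant, with the
characteristic functions of the centred Gaussian process with independent coordinates and the covariance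
`min (s, s') min (t, t')` of each coordinate -/
structure Sheet (d : ℕ) {Ω : Type} [MeasurableSpace Ω] (P : Measure Ω) (B : ℝ × ℝ → Ω → (Fin d → ℝ)) : Prop where
  prob : IsProbabilityMeasure P
  meas : ∀ p, Measurable (B p)
  cont : ∀ᵐ ω ∂P, ContinuousOn (fun p => B p ω) (Set.Ici (0 : ℝ) ×ˢ Set.Ici (0 : ℝ))
  char : ∀ (n : ℕ) (p : Fin n → ℝ × ℝ) (l : Fin n → Fin d) (a : Fin n → ℝ), (∀ i, 0 ≤ (p i).1 ∧ 0 ≤ (p i).2) →
    ∫ ω, Complex.exp (Complex.I * ((∑ i, a i * B (p i) ω (l i) : ℝ) : ℂ)) ∂P =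
      Complex.exp (-(1 / 2 : ℂ) * ((∑ i, ∑ j, a i * a j *
        (if l i = l j then min (p i).1 (p j).1 * min (p i).2 (p j).2 else 0) : ℝ) : ℂ))

/-- the same with all paths continuous -/
structure CSheet (d : ℕ) {Ω : Type} [MeasurableSpace Ω] (P : Measure Ω) (B : ℝ × ℝ → Ω → (Fin d → ℝ)) : Prop
    extends Sheet d P B where
  call : ∀ ω, ContinuousOn (fun p => B p ω) (Set.Ici (0 : ℝ) ×ˢ Set.Ici (0 : ℝ))

/-- Euclidean distances -/
noncomputable def e3 (x y : ℝ × ℝ × ℝ) : ℝ :=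
  Real.sqrt ((x.1 - y.1) ^ 2 + (x.2.1 - y.2.1) ^ 2 + (x.2.2 - y.2.2) ^ 2)

noncomputable def e2 (x y : ℝ × ℝ) : ℝ := Real.sqrt ((x.1 - y.1) ^ 2 + (x.2 - y.2) ^ 2)

/-- the kernel `U_β`: `|x| ^ (-β)` for `β > 0`, `log (e / |x|)` for `β = 0` (with the value `1` for `|x| > 1`), `1` for
`β < 0`; the value at `0` is `∞` for `β ≥ 0` -/
noncomputable def U (β x : ℝ) : ℝ≥0∞ :=
  if β < 0 then 1 else if x = 0 then ⊤ else if β = 0 then ENNReal.ofReal (max 1 (Real.log (Real.exp 1 / x))) else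
    ENNReal.ofReal (x ^ (-β))

/-- energy with respect to a kernel -/
noncomputable def energy {X : Type} [MeasurableSpace X] (k : X → X → ℝ≥0∞) (μ : Measure X) : ℝ≥0∞ :=
  ∫⁻ x, ∫⁻ y, k x y ∂μ ∂μ

/-- capacity: the inverse of the infimum of the energies of the probability measures on `A` -/
noncomputable def cap {X : Type} [MeasurableSpace X] (k : X → X → ℝ≥0∞) (A : Set X) : ℝ≥0∞ :=
  (⨅ (μ : Measure X) (_ : IsProbabilityMeasure μ) (_ : μ Aᶜ = 0), energy k μ)⁻¹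

/-- `A` carries a probability measure of finite energy -/
def Pos {X : Type} [MeasurableSpace X] (k : X → X → ℝ≥0∞) (A : Set X) : Prop :=
  ∃ μ : Measure X, IsProbabilityMeasure μ ∧ μ Aᶜ = 0 ∧ energy k μ < ⊤

/-- the difference `B (s, t₂) - B (s, t₁)` -/
def dX {d : ℕ} {Ω : Type} (B : ℝ × ℝ → Ω → (Fin d → ℝ)) (x : ℝ × ℝ × ℝ) (ω : Ω) (l : Fin d) : ℝ :=
  B (x.1, x.2.2) ω l - B (x.1, x.2.1) ω l

/-- the `ℓ¹` distance -/
def r1 (x y : ℝ × ℝ × ℝ) : ℝ := |x.1 - y.1| + |x.2.1 - y.2.1| + |x.2.2 - y.2.2|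

/-- the box: `s` in `[η, K]`, `t₁` in `[η, a - η]`, `t₂` in `[a + η, K]` -/
def Box (η K a : ℝ) : Set (ℝ × ℝ × ℝ) :=
  {x | η ≤ x.1 ∧ x.1 ≤ K ∧ η ≤ x.2.1 ∧ x.2.1 ≤ a - η ∧ a + η ≤ x.2.2 ∧ x.2.2 ≤ K}

/-- `x` is nearly a zero of `dX B`, and the two parts of `dX B` at `x` are bounded by `M` -/
def NearB {d : ℕ} {Ω : Type} (B : ℝ × ℝ → Ω → (Fin d → ℝ)) (a ε M : ℝ) (x : ℝ × ℝ × ℝ) (ω : Ω) : Prop :=
  ∀ l, |dX B x ω l| ≤ ε ∧ |B (x.1, x.2.2) ω l - B (x.1, a) ω l| ≤ M ∧ |B (x.1, a) ω l - B (x.1, x.2.1) ω l| ≤ M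

/-- the kernel `r1 ^ (-d/2)` -/
noncomputable def rK (d : ℕ) (x y : ℝ × ℝ × ℝ) : ℝ≥0∞ := ENNReal.ofReal (r1 x y) ^ (-((d : ℝ) / 2))

/-- the off-diagonal points -/
def Off : Set (ℝ × ℝ × ℝ) := {x | x.2.1 ≠ x.2.2}

/-! ## Gaussian families -/

/-- diagonal covariance -/
noncomputable def dK {T : Type} (v : T → ℝ) (t t' : T) : ℝ := open Classical in if t = t' then v t else 0

/-! ## Conditional expectations on product spaces -/

section product

variable {S E : Type} [Fintype S] [MeasurableSpace E]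

/-- `x` on `A`, `y` off `A` -/
noncomputable def glue (A : Set S) (x y : S → E) : S → E := open Classical in fun c => if c ∈ A then x c else y c

/-- integrate out the coordinates off `A` -/
noncomputable def cond (γ : S → Measure E) (A : Set S) (f : (S → E) → ℝ≥0∞) (x : S → E) : ℝ≥0∞ :=
  ∫⁻ y, f (glue A x y) ∂(Measure.pi γ)

end product

/-! ## Grids -/

/-- cells of the two sheets -/
abbrev Cell (I J L : Type) : Type := (I × J) ⊕ (I × L)

/-- covariance of two independent `d`-dimensional sheets at the points `(s i, u j)` and `(s i, v k)` -/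
noncomputable def gridK {d : ℕ} {I J L : Type} (s : I → ℝ) (u : J → ℝ) (v : L → ℝ) :
    Fin d × Cell I J L → Fin d × Cell I J L → ℝ
  | (l, Sum.inl x), (m, Sum.inl y) => if l = m then min (s x.1) (s y.1) * min (u x.2) (u y.2) else 0
  | (l, Sum.inr x), (m, Sum.inr y) => if l = m then min (s x.1) (s y.1) * min (v x.2) (v y.2) else 0
  | _, _ => 0

/-- the sum of the two sheets -/
def Xg {d : ℕ} {I J L : Type} (y : Cell I J L → Fin d → ℝ) (r : I × J × L) (l : Fin d) : ℝ :=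
  y (Sum.inl (r.1, r.2.1)) l + y (Sum.inr (r.1, r.2.2)) l

/-- the distance of two grid points -/
def rg {I J L : Type} (s : I → ℝ) (u : J → ℝ) (v : L → ℝ) (r r' : I × J × L) : ℝ :=
  |s r.1 - s r'.1| + |u r.2.1 - u r'.2.1| + |v r.2.2 - v r'.2.2|

/-- the truncated kernel `max (ε, √ρ) ^ (-d)` -/
noncomputable def ker (d : ℕ) (ε ρ : ℝ) : ℝ := ((max ε (Real.sqrt ρ))⁻¹) ^ d

/-- the values of a family on the grid as a vector -/
def vec {d : ℕ} {I J L Ω : Type} (W : Fin d × Cell I J L → Ω → ℝ) (ω : Ω) : Cell I J L → Fin d → ℝ :=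
  fun c l => W (l, c) ω

/-- the two sheets `B (s, a + u) - B (s, a)` and `B (s, a) - B (s, a - v)` on the grid -/
def Wg {d : ℕ} {Ω I J L : Type} (B : ℝ × ℝ → Ω → (Fin d → ℝ)) (s : I → ℝ) (u : J → ℝ) (v : L → ℝ) (a : ℝ) :
    Fin d × Cell I J L → Ω → ℝ
  | (l, Sum.inl x), ω => B (s x.1, a + u x.2) ω l - B (s x.1, a) ω l
  | (l, Sum.inr x), ω => B (s x.1, a) ω l - B (s x.1, a - v x.2) ω l

/-- near the zero set: `|X| ≤ ε` at `r`, and both sheets are bounded by `M` there -/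
def Near {d : ℕ} {I J L : Type} (ε M : ℝ) (r : I × J × L) : Set (Cell I J L → Fin d → ℝ) :=
  {y | ∀ l, |Xg y r l| ≤ ε ∧ |y (Sum.inl (r.1, r.2.1)) l| ≤ M ∧ |y (Sum.inr (r.1, r.2.2)) l| ≤ M}

section order

variable {I J L : Type} [Fintype I] [LinearOrder I] [Fintype J] [LinearOrder J] [Fintype L] [LinearOrder L]

/-- cumulative sums -/
def cum (p : I → ℝ≥0) (i : I) : ℝ≥0 := ∑ i' ∈ univ.filter (· ≤ i), p i'

/-- `s` is strictly monotone, `lam = 1`, and the cumulative sums of `p` are `s`; or `s` is strictly antitone (time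
inversion), `lam = s` and the cumulative sums of `p` are `1 / s` -/
def Chain (s lam : I → ℝ) (p : I → ℝ≥0) : Prop :=
  (StrictMono s ∧ (∀ i, lam i = 1) ∧ ∀ i, (cum p i : ℝ) = s i) ∨
    (StrictAnti s ∧ (∀ i, lam i = s i) ∧ ∀ i, (cum p i : ℝ) = 1 / s i)

/-- variances of the increments over the cells -/
def cvar (p : I → ℝ≥0) (q : J → ℝ≥0) (w : L → ℝ≥0) : Cell I J L → ℝ≥0
  | Sum.inl x => p x.1 * q x.2
  | Sum.inr x => p x.1 * w x.2

/-- the law of the increment over a cell -/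
noncomputable def gam (d : ℕ) (p : I → ℝ≥0) (q : J → ℝ≥0) (w : L → ℝ≥0) (c : Cell I J L) : Measure (Fin d → ℝ) :=
  Measure.pi fun _ => gaussianReal 0 (cvar p q w c)

/-- the two sheets from the increments -/
noncomputable def Yv {d : ℕ} (lam : I → ℝ) (kap : J → ℝ) (nu : L → ℝ) (x : Cell I J L → Fin d → ℝ) :
    Cell I J L → Fin d → ℝ
  | Sum.inl c => fun l => lam c.1 * kap c.2 *
      ∑ i ∈ univ.filter (· ≤ c.1), ∑ j ∈ univ.filter (· ≤ c.2), x (Sum.inl (i, j)) l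
  | Sum.inr c => fun l => lam c.1 * nu c.2 *
      ∑ i ∈ univ.filter (· ≤ c.1), ∑ k ∈ univ.filter (· ≤ c.2), x (Sum.inr (i, k)) l

/-- cells with first index `≤ i` -/
def A0 (i : I) : Set (Cell I J L) := {c | Sum.elim (fun x => x.1 ≤ i) (fun x => x.1 ≤ i) c}

/-- cells of the first sheet with second index `≤ j`, and all cells of the second sheet -/
def A1 (j : J) : Set (Cell I J L) := {c | Sum.elim (fun x => x.2 ≤ j) (fun _ => True) c}

/-- cells of the second sheet with second index `≤ k`, and all cells of the first sheet -/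
def A2 (k : L) : Set (Cell I J L) := {c | Sum.elim (fun _ => True) (fun x => x.2 ≤ k) c}

/-- the cells below `r` -/
def As (r : I × J × L) : Set (Cell I J L) := A0 r.1 ∩ A1 r.2.1 ∩ A2 r.2.2

/-- the conditional mean of the sum of the sheets at `r`, given the values `y` at `r0` -/
noncomputable def mn {d : ℕ} (lam : I → ℝ) (kap : J → ℝ) (nu : L → ℝ) (y : Cell I J L → Fin d → ℝ)
    (r0 r : I × J × L) (l : Fin d) : ℝ :=
  (lam r.1 * kap r.2.1) / (lam r0.1 * kap r0.2.1) * y (Sum.inl (r0.1, r0.2.1)) l +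
    (lam r.1 * nu r.2.2) / (lam r0.1 * nu r0.2.2) * y (Sum.inr (r0.1, r0.2.2)) l

/-- the conditional variance -/
noncomputable def vr (s lam : I → ℝ) (u kap : J → ℝ) (v nu : L → ℝ) (r0 r : I × J × L) : ℝ :=
  (s r.1 * u r.2.1 - ((lam r.1 * kap r.2.1) / (lam r0.1 * kap r0.2.1)) ^ 2 * (s r0.1 * u r0.2.1)) +
    (s r.1 * v r.2.2 - ((lam r.1 * nu r.2.2) / (lam r0.1 * nu r0.2.2)) ^ 2 * (s r0.1 * v r0.2.2))

end order

/-- all values lie in `[η, K]` -/
def Val {I : Type} (η K : ℝ) (s : I → ℝ) : Prop := ∀ i, η ≤ s i ∧ s i ≤ K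

/-- the probability of `vec W ∈ D` as a real number -/
noncomputable def pr {d : ℕ} {I J L Ω : Type} [MeasurableSpace Ω] (P : Measure Ω)
    (W : Fin d × Cell I J L → Ω → ℝ) (D : Set (Cell I J L → Fin d → ℝ)) : ℝ := (P {ω | vec W ω ∈ D}).toReal

end Pool.Agent.T2H03.DS
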