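import Pool.Agent.T2H03.DS.Stm

/-! # Package CAI: Cairoli's inequality -/

set_option autoImplicit false

namespace Pool.Agent.T2H03.DS

open MeasureTheory ProbabilityTheory Finset Filter Topology Pool.Agent.Helper41
open scoped ENNReal NNReal

namespace CAI

variable {S E : Type} [Fintype S] [MeasurableSpace E] (γ : S → Measure E) [∀ c, IsProbabilityMeasure (γ c)]

omit [∀ c, IsProbabilityMeasure (γ c)] in
theorem cond_mono (A : Set S) {f g : (S → E) → ℝ≥0∞} (h : ∀ x, f x ≤ g x) (x : S → E) :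
    cond γ A f x ≤ cond γ A g x :=
  lintegral_mono fun _ => h _

theorem cond_le (A : Set S) {f : (S → E) → ℝ≥0∞} {C : ℝ≥0∞} (h : ∀ x, f x ≤ C) (x : S → E) :
    cond γ A f x ≤ C := by
  calc cond γ A f x ≤ ∫⁻ _, C ∂(Measure.pi γ) := lintegral_mono fun _ => h _
    _ = C := by rw [lintegral_const, measure_univ, mul_one]

end CAI

theorem T_CAI (hCO : P_CO) (hDOOB : P_DOOB) : P_CAI := by
  intro S E _ _ γ _ I J L _ _ _ _ _ _ A B D hA hB hD f hf C hC hfC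
  obtain ⟨c1, c2, -, -⟩ := hCO S E γ
  set F2 : (S → E) → ℝ≥0∞ := fun x => ⨆ k, cond γ (D k) f x with hF2
  set F1 : (S → E) → ℝ≥0∞ := fun x => ⨆ j, cond γ (B j) F2 x with hF1
  have m2 : Measurable F2 := Measurable.iSup fun k => c1 _ _ hf
  have m1 : Measurable F1 := Measurable.iSup fun j => c1 _ _ m2
  have b2 : ∀ x, F2 x ≤ C := fun x => iSup_le fun k => CAI.cond_le γ _ hfC x
  have b1 : ∀ x, F1 x ≤ C := fun x => iSup_le fun j => CAI.cond_le γ _ b2 x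
  have key : ∀ x, (⨆ r : I × J × L, cond γ (A r.1 ∩ B r.2.1 ∩ D r.2.2) f x) ≤ ⨆ i, cond γ (A i) F1 x := by
    intro x
    refine iSup_le fun r => ?_
    rw [← c2 _ _ f hf, ← c2 _ _ _ (c1 _ _ hf)]
    refine le_trans ?_ (le_iSup (fun i => cond γ (A i) F1 x) r.1)
    refine CAI.cond_mono γ _ (fun y => ?_) x
    refine le_trans ?_ (le_iSup (fun j => cond γ (B j) F2 y) r.2.1)
    exact CAI.cond_mono γ _ (fun z => le_iSup (fun k => cond γ (D k) f z) r.2.2) y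
  have i3 := hDOOB S E γ L D hD f hf C hC hfC
  have i2 := hDOOB S E γ J B hB F2 m2 C hC b2
  have i1 := hDOOB S E γ I A hA F1 m1 C hC b1
  calc ∫⁻ x, (⨆ r : I × J × L, cond γ (A r.1 ∩ B r.2.1 ∩ D r.2.2) f x) ^ 2 ∂(Measure.pi γ)
      ≤ ∫⁻ x, (⨆ i, cond γ (A i) F1 x) ^ 2 ∂(Measure.pi γ) :=
        lintegral_mono fun x => pow_le_pow_left' (key x) 2
    _ ≤ 4 * ∫⁻ x, F1 x ^ 2 ∂(Measure.pi γ) := i1
    _ ≤ 4 * (4 * ∫⁻ x, F2 x ^ 2 ∂(Measure.pi γ)) := mul_le_mul_right i2 4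
    _ ≤ 4 * (4 * (4 * ∫⁻ x, f x ^ 2 ∂(Measure.pi γ))) := mul_le_mul_right (mul_le_mul_right i3 4) 4
    _ = 64 * ∫⁻ x, f x ^ 2 ∂(Measure.pi γ) := by
      rw [← mul_assoc, ← mul_assoc]
      norm_num

end Pool.Agent.T2H03.DS
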