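import Pool.Agent.T2H03.DS.Stm

/-! # Package CAPP -/

set_option autoImplicit false

namespace Pool.Agent.T2H03.DS

open MeasureTheory ProbabilityTheory Finset Filter Topology Pool.Agent.Helper41
open scoped ENNReal NNReal

theorem T_CAPP : P_CAPP := by
  intro X _ k A
  unfold cap Pos
  rw [ENNReal.inv_pos, ← lt_top_iff_ne_top]
  simp only [iInf_lt_iff]
  constructor
  · rintro ⟨μ, h1, h2, h3⟩
    exact ⟨μ, h1, h2, h3⟩
  · rintro ⟨μ, h1, h2, h3⟩
    exact ⟨μ, h1, h2, h3⟩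

end Pool.Agent.T2H03.DS
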