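import Pool.Agent.T2H03.DS.Stm

/-! # Package CB -/

set_option autoImplicit false

namespace Pool.Agent.T2H03.DS

open MeasureTheory ProbabilityTheory Finset Filter Topology Pool.Agent.Helper41
open scoped ENNReal NNReal

theorem T_CB (hCB1 : P_CB1) (hCB2 : P_CB2) (hCB3 : P_CB3) : P_CB := by
  intro d η K M hη hM
  obtain ⟨C, c, hC, hc, h2⟩ := hCB2 η K hη
  set C1 : ℝ := C + 2 * C * M with hC1
  have hC1' : 0 < C1 := by positivity
  obtain ⟨c', ε₀, hc', hε₀, h3⟩ := hCB3 c C1 (|3 * K|) hc hC1' (abs_nonneg _)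
  refine ⟨c' ^ d, ε₀, by positivity, hε₀, ?_⟩
  intro I J L _ _ _ _ _ _ s lam p u kap q v nu w hs hu hv Vs Vu Vv ε hε hε1 r0 r hr x hx
  obtain ⟨a1, a2, a3, a4⟩ := h2 I J L s lam p u kap q v nu w hs hu hv Vs Vu Vv r0 r hr
  have hρ0 : 0 ≤ rg s u v r0 r := by unfold rg; positivity
  have hρD : rg s u v r0 r ≤ |3 * K| := by
    refine le_trans ?_ (le_abs_self _)
    unfold rg
    have b1 := Vs r0.1
    have b2 := Vs r.1
    have b3 := Vu r0.2.1
    have b4 := Vu r.2.1
    have b5 := Vv r0.2.2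
    have b6 := Vv r.2.2
    have e1 : |s r0.1 - s r.1| ≤ K := abs_sub_le_iff.2 ⟨by linarith, by linarith⟩
    have e2 : |u r0.2.1 - u r.2.1| ≤ K := abs_sub_le_iff.2 ⟨by linarith, by linarith⟩
    have e3 : |v r0.2.2 - v r.2.2| ≤ K := abs_sub_le_iff.2 ⟨by linarith, by linarith⟩
    linarith
  classical
  have h1 := hCB1 d I J L s lam p u kap q v nu w hs hu hv (fun i => hη.trans_le (Vs i).1)
    (fun i => hη.trans_le (Vu i).1) (fun i => hη.trans_le (Vv i).1) (2 * ε) r0 r hr x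
  have hfac : ∀ l : Fin d, ENNReal.ofReal (c' * (ε * (max ε (Real.sqrt (rg s u v r0 r)))⁻¹)) ≤
      gaussianReal (mn lam kap nu (Yv lam kap nu x) r0 r l)
        (vr s lam u kap v nu r0 r).toNNReal (Set.Icc (-(2 * ε)) (2 * ε)) := by
    intro l
    have hvr : ((vr s lam u kap v nu r0 r).toNNReal : ℝ) = vr s lam u kap v nu r0 r :=
      Real.coe_toNNReal _ ((mul_nonneg hc.le hρ0).trans a3)
    refine h3 ε hε hε1 _ hρ0 hρD _ ?_ ?_ _ ?_
    · rw [hvr]; exact a3
    · rw [hvr]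
      refine a4.trans (mul_le_mul_of_nonneg_right ?_ hρ0)
      rw [hC1]
      have : 0 ≤ 2 * C * M := by positivity
      linarith
    · obtain ⟨b1, b2, b3⟩ := hx l
      have e : mn lam kap nu (Yv lam kap nu x) r0 r l = Xg (Yv lam kap nu x) r0 l
          + ((lam r.1 * kap r.2.1) / (lam r0.1 * kap r0.2.1) - 1)
            * Yv lam kap nu x (Sum.inl (r0.1, r0.2.1)) l
          + ((lam r.1 * nu r.2.2) / (lam r0.1 * nu r0.2.2) - 1)
            * Yv lam kap nu x (Sum.inr (r0.1, r0.2.2)) l := by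
        unfold mn Xg
        ring
      rw [e]
      have f1 : |((lam r.1 * kap r.2.1) / (lam r0.1 * kap r0.2.1) - 1)
            * Yv lam kap nu x (Sum.inl (r0.1, r0.2.1)) l| ≤ C * rg s u v r0 r * M := by
        rw [abs_mul]
        exact mul_le_mul a1 b2 (abs_nonneg _) (by positivity)
      have f2 : |((lam r.1 * nu r.2.2) / (lam r0.1 * nu r0.2.2) - 1)
            * Yv lam kap nu x (Sum.inr (r0.1, r0.2.2)) l| ≤ C * rg s u v r0 r * M := by
        rw [abs_mul]
        exact mul_le_mul a2 b3 (abs_nonneg _) (by positivity)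
      refine (abs_add_three _ _ _).trans ?_
      have : 0 ≤ C * rg s u v r0 r := by positivity
      rw [hC1]
      linarith
  have hprod : ENNReal.ofReal (c' ^ d * (ε ^ d * ker d ε (rg s u v r0 r))) =
      ∏ _l : Fin d, ENNReal.ofReal (c' * (ε * (max ε (Real.sqrt (rg s u v r0 r)))⁻¹)) := by
    rw [Finset.prod_const, Finset.card_univ, Fintype.card_fin, ← ENNReal.ofReal_pow (by positivity)]
    congr 1
    unfold ker
    rw [mul_pow, mul_pow]
  rw [hprod]
  refine le_trans (Finset.prod_le_prod' fun l _ => hfac l) (le_of_eq ?_)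
  rw [← h1]

end Pool.Agent.T2H03.DS
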