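import Pool.Agent.T2H03.DS.Stm

/-! # DS, package CB1: the conditional law on the product space -/

set_option autoImplicit false
set_option linter.unusedSectionVars false

namespace Pool.Agent.T2H03.DS

open MeasureTheory ProbabilityTheory Finset Filter Topology Pool.Agent.Helper41
open scoped ENNReal NNReal

namespace CB1p

section

variable {d : ℕ} {I J L : Type} [Fintype I] [LinearOrder I] [Fintype J] [LinearOrder J] [Fintype L] [LinearOrder L]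

lemma chain_sq {s lam : I → ℝ} {p : I → ℝ≥0} (h : Chain s lam p) (hs : ∀ i, 0 < s i) (i : I) :
    lam i ^ 2 * (cum p i : ℝ) = s i ∧ 0 < lam i := by
  rcases h with ⟨_, h1, h2⟩ | ⟨_, h1, h2⟩
  · rw [h1, h2]; simp
  · rw [h1, h2]
    have := hs i
    refine ⟨by field_simp, this⟩

lemma mem_inl (r0 : I × J × L) (x : I × J) :
    (Sum.inl x : Cell I J L) ∈ As r0 ↔ x.1 ≤ r0.1 ∧ x.2 ≤ r0.2.1 := by
  simp [As, A0, A1, A2]

lemma mem_inr (r0 : I × J × L) (x : I × L) :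
    (Sum.inr x : Cell I J L) ∈ As r0 ↔ x.1 ≤ r0.1 ∧ x.2 ≤ r0.2.2 := by
  simp [As, A0, A1, A2]

/-- coefficients of the fresh cells -/
noncomputable def bb (lam : I → ℝ) (kap : J → ℝ) (nu : L → ℝ) (r0 r : I × J × L) : Cell I J L → ℝ
  | Sum.inl x => if (x.1 ≤ r.1 ∧ x.2 ≤ r.2.1) ∧ ¬ (x.1 ≤ r0.1 ∧ x.2 ≤ r0.2.1) then lam r.1 * kap r.2.1 else 0
  | Sum.inr x => if (x.1 ≤ r.1 ∧ x.2 ≤ r.2.2) ∧ ¬ (x.1 ≤ r0.1 ∧ x.2 ≤ r0.2.2) then lam r.1 * nu r.2.2 else 0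

lemma dsum {A B : Type} [Fintype A] [LinearOrder A] [Fintype B] [LinearOrder B] (a : A) (b : B) (f : A × B → ℝ) :
    ∑ i ∈ univ.filter (· ≤ a), ∑ j ∈ univ.filter (· ≤ b), f (i, j) =
      ∑ x : A × B, if x.1 ≤ a ∧ x.2 ≤ b then f x else 0 := by
  rw [Fintype.sum_prod_type, sum_filter]
  refine sum_congr rfl fun i _ => ?_
  rw [sum_filter]
  by_cases h : i ≤ a
  · rw [if_pos h]
    refine sum_congr rfl fun j _ => ?_
    simp [h]
  · rw [if_neg h]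
    symm
    refine sum_eq_zero fun j _ => ?_
    simp [h]

/-- one half of the decomposition -/
lemma half {A B : Type} [Fintype A] [LinearOrder A] [Fintype B] [LinearOrder B] (a a0 : A) (b b0 : B)
    (ha : a0 ≤ a) (hb : b0 ≤ b) (t : ℝ) (f g : A × B → ℝ) :
    t * ∑ i ∈ univ.filter (· ≤ a), ∑ j ∈ univ.filter (· ≤ b),
        (if (i, j).1 ≤ a0 ∧ (i, j).2 ≤ b0 then f (i, j) else g (i, j)) =
      t * ∑ i ∈ univ.filter (· ≤ a0), ∑ j ∈ univ.filter (· ≤ b0), f (i, j) +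
      ∑ x : A × B, (if (x.1 ≤ a ∧ x.2 ≤ b) ∧ ¬ (x.1 ≤ a0 ∧ x.2 ≤ b0) then t else 0) * g x := by
  rw [dsum a b (fun x => if x.1 ≤ a0 ∧ x.2 ≤ b0 then f x else g x), dsum a0 b0 f, mul_sum, mul_sum,
    ← sum_add_distrib]
  refine sum_congr rfl fun x _ => ?_
  by_cases h0 : x.1 ≤ a0 ∧ x.2 ≤ b0
  · have h1 : x.1 ≤ a ∧ x.2 ≤ b := ⟨h0.1.trans ha, h0.2.trans hb⟩
    simp [h0, h1]
  · by_cases h1 : x.1 ≤ a ∧ x.2 ≤ b
    · simp only [h0, h1, if_false, if_true, not_false_eq_true, and_self, mul_zero, zero_add]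
    · simp only [h0, h1, if_false, false_and, mul_zero, zero_add, zero_mul]

/-- the variance of one half -/
lemma halfv {A B : Type} [Fintype A] [LinearOrder A] [Fintype B] [LinearOrder B] (a a0 : A) (b b0 : B)
    (ha : a0 ≤ a) (hb : b0 ≤ b) (t : ℝ) (p : A → ℝ≥0) (q : B → ℝ≥0) :
    ∑ x : A × B, (if (x.1 ≤ a ∧ x.2 ≤ b) ∧ ¬ (x.1 ≤ a0 ∧ x.2 ≤ b0) then t else 0) ^ 2 * ((p x.1 * q x.2 : ℝ≥0) : ℝ) =
      t ^ 2 * ((cum p a : ℝ) * cum q b - (cum p a0 : ℝ) * cum q b0) := by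
  have hc : ∀ (a : A) (b : B), (cum p a : ℝ) * cum q b = ∑ x : A × B, if x.1 ≤ a ∧ x.2 ≤ b then (p x.1 : ℝ) * q x.2 else 0 := by
    intro a b
    rw [← dsum a b (fun x => (p x.1 : ℝ) * q x.2)]
    unfold cum
    push_cast
    rw [sum_mul_sum]
  rw [hc, hc, ← sum_sub_distrib, mul_sum]
  refine sum_congr rfl fun x _ => ?_
  by_cases h0 : x.1 ≤ a0 ∧ x.2 ≤ b0
  · have h1 : x.1 ≤ a ∧ x.2 ≤ b := ⟨h0.1.trans ha, h0.2.trans hb⟩
    simp [h0, h1]
  · by_cases h1 : x.1 ≤ a ∧ x.2 ≤ b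
    · simp only [h0, h1, if_false, if_true, not_false_eq_true, and_self, sub_zero]
      push_cast; ring
    · simp only [h0, h1, if_false, false_and, sub_zero, mul_zero]
      simp

lemma decomp (lam : I → ℝ) (kap : J → ℝ) (nu : L → ℝ) (hl : ∀ i, 0 < lam i) (hk : ∀ i, 0 < kap i) (hn : ∀ i, 0 < nu i)
    (r0 r : I × J × L) (hr : r0 ≤ r) (x y : Cell I J L → Fin d → ℝ) (l : Fin d) :
    Xg (Yv lam kap nu (glue (As r0) x y)) r l =
      mn lam kap nu (Yv lam kap nu x) r0 r l + ∑ c, bb lam kap nu r0 r c * y c l := by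
  have h1 : r0.1 ≤ r.1 := hr.1
  have h2 : r0.2.1 ≤ r.2.1 := hr.2.1
  have h3 : r0.2.2 ≤ r.2.2 := hr.2.2
  unfold Xg mn
  simp only [Yv]
  have g1 : ∀ (i : I) (j : J), glue (As r0) x y (Sum.inl (i, j)) l =
      if (i, j).1 ≤ r0.1 ∧ (i, j).2 ≤ r0.2.1 then x (Sum.inl (i, j)) l else y (Sum.inl (i, j)) l := by
    intro i j
    unfold glue
    by_cases h : (Sum.inl (i, j) : Cell I J L) ∈ As r0
    · rw [if_pos h, if_pos ((mem_inl r0 (i, j)).1 h)]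
    · rw [if_neg h, if_neg (fun h' => h ((mem_inl r0 (i, j)).2 h'))]
  have g2 : ∀ (i : I) (j : L), glue (As r0) x y (Sum.inr (i, j)) l =
      if (i, j).1 ≤ r0.1 ∧ (i, j).2 ≤ r0.2.2 then x (Sum.inr (i, j)) l else y (Sum.inr (i, j)) l := by
    intro i j
    unfold glue
    by_cases h : (Sum.inr (i, j) : Cell I J L) ∈ As r0
    · rw [if_pos h, if_pos ((mem_inr r0 (i, j)).1 h)]
    · rw [if_neg h, if_neg (fun h' => h ((mem_inr r0 (i, j)).2 h'))]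
  simp_rw [g1, g2]
  rw [half r.1 r0.1 r.2.1 r0.2.1 h1 h2 (lam r.1 * kap r.2.1) (fun z => x (Sum.inl z) l) (fun z => y (Sum.inl z) l),
    half r.1 r0.1 r.2.2 r0.2.2 h1 h3 (lam r.1 * nu r.2.2) (fun z => x (Sum.inr z) l) (fun z => y (Sum.inr z) l),
    Fintype.sum_sum_type]
  simp only [bb]
  have e1 : lam r.1 * kap r.2.1 / (lam r0.1 * kap r0.2.1) * (lam r0.1 * kap r0.2.1 *
      ∑ i ∈ univ.filter (· ≤ r0.1), ∑ j ∈ univ.filter (· ≤ r0.2.1), x (Sum.inl (i, j)) l) =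
      lam r.1 * kap r.2.1 * ∑ i ∈ univ.filter (· ≤ r0.1), ∑ j ∈ univ.filter (· ≤ r0.2.1), x (Sum.inl (i, j)) l := by
    have := hl r0.1
    have := hk r0.2.1
    field_simp
  have e2 : lam r.1 * nu r.2.2 / (lam r0.1 * nu r0.2.2) * (lam r0.1 * nu r0.2.2 *
      ∑ i ∈ univ.filter (· ≤ r0.1), ∑ j ∈ univ.filter (· ≤ r0.2.2), x (Sum.inr (i, j)) l) =
      lam r.1 * nu r.2.2 * ∑ i ∈ univ.filter (· ≤ r0.1), ∑ j ∈ univ.filter (· ≤ r0.2.2), x (Sum.inr (i, j)) l := by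
    have := hl r0.1
    have := hn r0.2.2
    field_simp
  rw [e1, e2]
  ring

lemma var_eq {s lam : I → ℝ} {p : I → ℝ≥0} {u kap : J → ℝ} {q : J → ℝ≥0} {v nu : L → ℝ} {w : L → ℝ≥0}
    (hs : Chain s lam p) (hu : Chain u kap q) (hv : Chain v nu w) (ps : ∀ i, 0 < s i) (pu : ∀ i, 0 < u i)
    (pv : ∀ i, 0 < v i) (r0 r : I × J × L) (hr : r0 ≤ r) :
    ((∑ c, (bb lam kap nu r0 r c ^ 2).toNNReal * cvar p q w c : ℝ≥0) : ℝ) = vr s lam u kap v nu r0 r := by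
  have h1 : r0.1 ≤ r.1 := hr.1
  have h2 : r0.2.1 ≤ r.2.1 := hr.2.1
  have h3 : r0.2.2 ≤ r.2.2 := hr.2.2
  rw [Fintype.sum_sum_type]
  push_cast
  simp only [bb, cvar, Real.coe_toNNReal _ (sq_nonneg _)]
  rw [halfv r.1 r0.1 r.2.1 r0.2.1 h1 h2 (lam r.1 * kap r.2.1) p q,
    halfv r.1 r0.1 r.2.2 r0.2.2 h1 h3 (lam r.1 * nu r.2.2) p w]
  unfold vr
  obtain ⟨a1, b1⟩ := chain_sq hs ps r.1
  obtain ⟨a2, b2⟩ := chain_sq hs ps r0.1
  obtain ⟨a3, b3⟩ := chain_sq hu pu r.2.1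
  obtain ⟨a4, b4⟩ := chain_sq hu pu r0.2.1
  obtain ⟨a5, b5⟩ := chain_sq hv pv r.2.2
  obtain ⟨a6, b6⟩ := chain_sq hv pv r0.2.2
  rw [← a1, ← a2, ← a3, ← a4, ← a5, ← a6]
  have := b2.ne'
  have := b4.ne'
  have := b6.ne'
  field_simp

end

end CB1p

open CB1p in
theorem T_CB1 (hGLIN : P_GLIN) : P_CB1 := by
  intro d I J L _ _ _ _ _ _ s lam p u kap q v nu w hs hu hv ps pu pv δ r0 r hr x
  classical
  have hlam : ∀ i, 0 < lam i := fun i => (chain_sq hs ps i).2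
  have hkap : ∀ i, 0 < kap i := fun i => (chain_sq hu pu i).2
  have hnu : ∀ i, 0 < nu i := fun i => (chain_sq hv pv i).2
  set V : ℝ≥0 := ∑ c, (bb lam kap nu r0 r c ^ 2).toNNReal * cvar p q w c with hV
  have hVe : (vr s lam u kap v nu r0 r).toNNReal = V := by
    rw [← var_eq hs hu hv ps pu pv r0 r hr, Real.toNNReal_coe]
  set m : Fin d → ℝ := fun l => mn lam kap nu (Yv lam kap nu x) r0 r l with hm
  set T : (Cell I J L → Fin d → ℝ) → Fin d → ℝ := fun y l => ∑ c, bb lam kap nu r0 r c * y c l with hT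
  have mT : Measurable T := by
    refine measurable_pi_lambda _ fun l => ?_
    simp only [hT]; fun_prop
  have hlaw := hGLIN d (Cell I J L) (cvar p q w) (bb lam kap nu r0 r)
  unfold cond
  have e : ∀ y : Cell I J L → Fin d → ℝ, (if ∀ l, |Xg (Yv lam kap nu (glue (As r0) x y)) r l| ≤ δ then (1 : ℝ≥0∞) else 0) =
      (T ⁻¹' (Set.univ.pi fun l => {z : ℝ | |m l + z| ≤ δ})).indicator 1 y := by
    intro y
    have h1 : (∀ l, |Xg (Yv lam kap nu (glue (As r0) x y)) r l| ≤ δ) ↔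
        y ∈ T ⁻¹' (Set.univ.pi fun l => {z : ℝ | |m l + z| ≤ δ}) := by
      rw [Set.mem_preimage, Set.mem_univ_pi]
      refine forall_congr' fun l => ?_
      rw [decomp lam kap nu hlam hkap hnu r0 r hr x y l]
      rfl
    rw [Set.indicator_apply]
    by_cases h : y ∈ T ⁻¹' (Set.univ.pi fun l => {z : ℝ | |m l + z| ≤ δ})
    · rw [if_pos h, if_pos (h1.2 h)]; rfl
    · rw [if_neg h, if_neg (fun h' => h (h1.1 h'))]
  have ms : ∀ l, MeasurableSet {z : ℝ | |m l + z| ≤ δ} := fun l =>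
    measurableSet_le ((measurable_const.add measurable_id).abs) measurable_const
  have mp : MeasurableSet (Set.univ.pi fun l => {z : ℝ | |m l + z| ≤ δ}) := MeasurableSet.univ_pi ms
  have step : ∫⁻ y, (if ∀ l, |Xg (Yv lam kap nu (glue (As r0) x y)) r l| ≤ δ then (1 : ℝ≥0∞) else 0)
      ∂(Measure.pi (gam d p q w)) = (Measure.pi (gam d p q w)) (T ⁻¹' (Set.univ.pi fun l => {z : ℝ | |m l + z| ≤ δ})) := by
    simp_rw [e]
    rw [lintegral_indicator_one (mT mp)]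
  have hfin : (Measure.pi (gam d p q w)) (T ⁻¹' (Set.univ.pi fun l => {z : ℝ | |m l + z| ≤ δ})) =
      ∏ l, gaussianReal (m l) V (Set.Icc (-δ) δ) := by
    rw [← Measure.map_apply mT mp]
    have : (Measure.pi (gam d p q w)).map T = Measure.pi fun _ : Fin d => gaussianReal 0 V := hlaw
    rw [this, Measure.pi_pi]
    refine prod_congr rfl fun l _ => ?_
    have h2 : gaussianReal (m l) V = (gaussianReal 0 V).map (m l + ·) := by
      rw [gaussianReal_map_const_add, zero_add]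
    rw [h2, Measure.map_apply (by fun_prop) measurableSet_Icc]
    congr 1
    ext z
    rw [Set.mem_preimage, Set.mem_Icc, ← abs_le]
    rfl
  rw [hVe]
  refine Eq.trans ?_ (step.trans hfin)
  refine lintegral_congr fun y => ?_
  congr 1

end Pool.Agent.T2H03.DS
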