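import Pool.Agent.T2H03.DS.Stm

set_option autoImplicit false

namespace Pool.Agent.T2H03.DS

open MeasureTheory ProbabilityTheory Finset Filter Topology Pool.Agent.Helper41
open scoped ENNReal NNReal

private lemma cb3_gauss (m : ℝ) (v : ℝ≥0) (hv : v ≠ 0) (a b T : ℝ)
    (h : ∀ x ∈ Set.Icc a b, (x - m) ^ 2 ≤ T * v) :
    ENNReal.ofReal ((b - a) * ((Real.sqrt (2 * Real.pi * v))⁻¹ * Real.exp (-T / 2))) ≤
      gaussianReal m v (Set.Icc a b) := by
  rw [gaussianReal_apply m hv]
  have hv' : (0 : ℝ) < v := by exact_mod_cast pos_iff_ne_zero.mpr hv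
  have h1 : ∫⁻ _ in Set.Icc a b, ENNReal.ofReal ((Real.sqrt (2 * Real.pi * v))⁻¹ * Real.exp (-T / 2)) ≤
      ∫⁻ x in Set.Icc a b, gaussianPDF m v x := by
    apply setLIntegral_mono' measurableSet_Icc
    intro x hx
    rw [gaussianPDF]
    apply ENNReal.ofReal_le_ofReal
    rw [gaussianPDFReal]
    apply mul_le_mul_of_nonneg_left _ (by positivity)
    apply Real.exp_le_exp.mpr
    have := h x hx
    rw [div_le_div_iff₀ (by norm_num) (by positivity)]
    nlinarith
  refine le_trans ?_ h1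
  rw [setLIntegral_const, Real.volume_Icc, ← ENNReal.ofReal_mul (by positivity), mul_comm]

theorem T_CB3 : P_CB3 := by
  intro c C D hc hC hD
  set a : ℝ := 1 / (2 * Real.sqrt C) with ha
  have hsC : 0 < Real.sqrt C := Real.sqrt_pos.mpr hC
  have ha0 : 0 < a := by positivity
  set c1 : ℝ := 4 * ((Real.sqrt (2 * Real.pi * C))⁻¹ * Real.exp (-((3 + C * Real.sqrt D) ^ 2 / c) / 2)) with hc1
  set c2 : ℝ := 2 * a * ((Real.sqrt (2 * Real.pi))⁻¹ * Real.exp (-(a ^ 2) / 2)) with hc2
  have hc1p : 0 < c1 := by positivity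
  have hc2p : 0 < c2 := by positivity
  refine ⟨min 1 (min c1 c2), min 1 (1 / (2 * C)), by positivity, by positivity, ?_⟩
  intro ε hε hε0 ρ hρ hρD v hv1 hv2 m hm
  have hεC : ε ≤ 1 / (2 * C) := hε0.trans (min_le_right _ _)
  rcases le_or_gt ε (Real.sqrt ρ) with hcase | hcase
  · -- case A
    have hsρ : 0 < Real.sqrt ρ := lt_of_lt_of_le hε hcase
    have hρp : 0 < ρ := Real.sqrt_pos.mp hsρ
    have hvp : (0 : ℝ) < v := lt_of_lt_of_le (by positivity) hv1
    have hv0 : v ≠ 0 := by
      rintro rfl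
      simp at hvp
    have hsq : Real.sqrt ρ ^ 2 = ρ := Real.sq_sqrt hρ
    have hρs : ρ ≤ Real.sqrt D * Real.sqrt ρ := by
      have : Real.sqrt ρ ≤ Real.sqrt D := Real.sqrt_le_sqrt hρD
      nlinarith
    have key := cb3_gauss m v hv0 (-(2 * ε)) (2 * ε) ((3 + C * Real.sqrt D) ^ 2 / c) (by
      intro x hx
      have hx1 : |x| ≤ 2 * ε := abs_le.mpr ⟨by linarith [hx.1], hx.2⟩
      have hxm : |x - m| ≤ (3 + C * Real.sqrt D) * Real.sqrt ρ := by
        calc |x - m| ≤ |x| + |m| := abs_sub _ _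
          _ ≤ 2 * ε + (ε + C * ρ) := add_le_add hx1 hm
          _ ≤ 3 * Real.sqrt ρ + C * (Real.sqrt D * Real.sqrt ρ) := by
              have := mul_le_mul_of_nonneg_left hρs hC.le
              linarith
          _ = _ := by ring
      have h2 : (x - m) ^ 2 ≤ ((3 + C * Real.sqrt D) * Real.sqrt ρ) ^ 2 := by
        rw [← sq_abs (x - m)]
        exact pow_le_pow_left₀ (abs_nonneg _) hxm 2
      calc (x - m) ^ 2 ≤ ((3 + C * Real.sqrt D) * Real.sqrt ρ) ^ 2 := h2
        _ = (3 + C * Real.sqrt D) ^ 2 / c * (c * ρ) := by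
            rw [mul_pow, hsq]; field_simp
        _ ≤ _ := mul_le_mul_of_nonneg_left hv1 (by positivity))
    refine le_trans (ENNReal.ofReal_le_ofReal ?_) key
    rw [max_eq_right hcase]
    have hs1 : (Real.sqrt (2 * Real.pi * C) * Real.sqrt ρ)⁻¹ ≤ (Real.sqrt (2 * Real.pi * v))⁻¹ := by
      rw [← Real.sqrt_mul (by positivity)]
      apply inv_anti₀ (by positivity)
      apply Real.sqrt_le_sqrt
      have := mul_le_mul_of_nonneg_left hv2 (show (0 : ℝ) ≤ 2 * Real.pi by positivity)
      linarith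
    calc min 1 (min c1 c2) * (ε * (Real.sqrt ρ)⁻¹) ≤ c1 * (ε * (Real.sqrt ρ)⁻¹) :=
          mul_le_mul_of_nonneg_right ((min_le_right _ _).trans (min_le_left _ _)) (by positivity)
      _ = (2 * ε - -(2 * ε)) * ((Real.sqrt (2 * Real.pi * C) * Real.sqrt ρ)⁻¹ *
            Real.exp (-((3 + C * Real.sqrt D) ^ 2 / c) / 2)) := by
          rw [hc1, mul_inv]; ring
      _ ≤ _ := by
          apply mul_le_mul_of_nonneg_left _ (by linarith)
          exact mul_le_mul_of_nonneg_right hs1 (by positivity)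
  · -- case B
    have hmax : max ε (Real.sqrt ρ) = ε := max_eq_left hcase.le
    rw [hmax, mul_inv_cancel₀ hε.ne', mul_one]
    have hρε : ρ ≤ ε ^ 2 := by
      have := Real.sq_sqrt hρ
      have h0 := Real.sqrt_nonneg ρ
      nlinarith
    have hCε : C * ρ ≤ ε / 2 := by
      calc C * ρ ≤ C * ε ^ 2 := mul_le_mul_of_nonneg_left hρε hC.le
        _ = (C * ε) * ε := by ring
        _ ≤ (1 / 2) * ε := by
            apply mul_le_mul_of_nonneg_right _ hε.le
            calc C * ε ≤ C * (1 / (2 * C)) := mul_le_mul_of_nonneg_left hεC hC.le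
              _ = 1 / 2 := by field_simp
        _ = ε / 2 := by ring
    have hm' : |m| ≤ 3 * ε / 2 := by linarith
    have hm1 := abs_le.mp hm'
    by_cases hv0 : v = 0
    · subst hv0
      rw [gaussianReal_zero_var]
      rw [Measure.dirac_apply_of_mem]
      · rw [← ENNReal.ofReal_one]
        exact ENNReal.ofReal_le_ofReal (min_le_left _ _)
      · exact ⟨by linarith, by linarith⟩
    · have hvp : (0 : ℝ) < v := by exact_mod_cast pos_iff_ne_zero.mpr hv0
      have hsv : 0 < Real.sqrt v := Real.sqrt_pos.mpr hvp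
      have hvε : a * Real.sqrt v ≤ ε / 2 := by
        have h1 : Real.sqrt v ≤ Real.sqrt C * ε := by
          have : (v : ℝ) ≤ C * ε ^ 2 := hv2.trans (mul_le_mul_of_nonneg_left hρε hC.le)
          calc Real.sqrt v ≤ Real.sqrt (C * ε ^ 2) := Real.sqrt_le_sqrt this
            _ = Real.sqrt C * ε := by rw [Real.sqrt_mul hC.le, Real.sqrt_sq hε.le]
        calc a * Real.sqrt v ≤ a * (Real.sqrt C * ε) := mul_le_mul_of_nonneg_left h1 ha0.le
          _ = ε / 2 := by rw [ha]; field_simp
      have key := cb3_gauss m v hv0 (m - a * Real.sqrt v) (m + a * Real.sqrt v) (a ^ 2) (by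
        intro x hx
        have : |x - m| ≤ a * Real.sqrt v := abs_le.mpr ⟨by linarith [hx.1], by linarith [hx.2]⟩
        calc (x - m) ^ 2 = |x - m| ^ 2 := (sq_abs _).symm
          _ ≤ (a * Real.sqrt v) ^ 2 := pow_le_pow_left₀ (abs_nonneg _) this 2
          _ = a ^ 2 * v := by rw [mul_pow, Real.sq_sqrt hvp.le])
      have hsub : Set.Icc (m - a * Real.sqrt v) (m + a * Real.sqrt v) ⊆ Set.Icc (-(2 * ε)) (2 * ε) :=
        Set.Icc_subset_Icc (by linarith) (by linarith)
      refine le_trans (le_trans (ENNReal.ofReal_le_ofReal ?_) key) (measure_mono hsub)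
      calc min 1 (min c1 c2) ≤ c2 := (min_le_right _ _).trans (min_le_right _ _)
        _ = (m + a * Real.sqrt v - (m - a * Real.sqrt v)) * ((Real.sqrt (2 * Real.pi * v))⁻¹ *
              Real.exp (-(a ^ 2) / 2)) := by
            rw [Real.sqrt_mul (by positivity), mul_inv, hc2]
            field_simp
            ring
        _ ≤ _ := le_rfl

end Pool.Agent.T2H03.DS
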