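import Pool.Agent.T2H03.DS.Stm

/-!
# CHAIN: increments of a monotone function on a finite linear order
-/

set_option autoImplicit false

namespace Pool.Agent.T2H03.DS

open Finset
open scoped NNReal

namespace PkgCHAIN

theorem cum_exists {I : Type} [Fintype I] [LinearOrder I] (f : I → ℝ) (hf0 : ∀ i, 0 ≤ f i) (hf : Monotone f) :
    ∃ p : I → ℝ≥0, ∀ i, (cum p i : ℝ) = f i := by
  classical
  let F : I → ℝ := fun i => if h : (univ.filter (· < i)).Nonempty then f ((univ.filter (· < i)).max' h) else 0
  have hF : ∀ i, F i ≤ f i := by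
    intro i
    by_cases h : (univ.filter (· < i)).Nonempty
    · simp only [F, dif_pos h]
      have h1 := Finset.max'_mem _ h
      rw [mem_filter] at h1
      exact hf h1.2.le
    · simp only [F, dif_neg h]
      exact hf0 i
  obtain ⟨p, hp⟩ : ∃ p : I → ℝ≥0, ∀ i, (p i : ℝ) = f i - F i :=
    ⟨fun i => (f i - F i).toNNReal, fun i => Real.coe_toNNReal _ (sub_nonneg.2 (hF i))⟩
  refine ⟨p, ?_⟩
  intro i
  induction i using WellFoundedLT.induction with
  | ind i ih =>
    have h1 : univ.filter (fun x : I => x ≤ i) = insert i (univ.filter (fun x : I => x < i)) := by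
      ext x
      simp only [mem_filter, mem_univ, true_and, mem_insert]
      exact le_iff_eq_or_lt
    unfold cum
    rw [h1, Finset.sum_insert (by simp), NNReal.coe_add]
    by_cases h : (univ.filter (· < i)).Nonempty
    · have h2 := Finset.max'_mem _ h
      set m := (univ.filter (· < i)).max' h with hm
      rw [mem_filter] at h2
      have h3 : univ.filter (fun x : I => x < i) = univ.filter (fun x : I => x ≤ m) := by
        ext x
        simp only [mem_filter, mem_univ, true_and]
        constructor
        · intro hx
          exact Finset.le_max' _ _ (by rw [mem_filter]; exact ⟨mem_univ _, hx⟩)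
        · intro hx
          exact hx.trans_lt h2.2
      have h4 := ih m h2.2
      unfold cum at h4
      rw [h3, h4]
      have h5 : F i = f m := by simp only [F, dif_pos h, hm]
      rw [hp, h5]; ring
    · have h5 : F i = 0 := by simp only [F, dif_neg h]
      rw [Finset.not_nonempty_iff_eq_empty] at h
      have h6 : univ.filter (fun x : I => x < i) = ∅ := h
      rw [h6, Finset.sum_empty]
      rw [hp, h5]; simp

end PkgCHAIN

theorem T_CHAIN : P_CHAIN := by
  intro I _ _ s hs hmon
  rcases hmon with h | h
  · obtain ⟨p, hp⟩ := PkgCHAIN.cum_exists s (fun i => (hs i).le) h.monotone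
    exact ⟨fun _ => 1, p, Or.inl ⟨h, fun _ => rfl, hp⟩⟩
  · obtain ⟨p, hp⟩ := PkgCHAIN.cum_exists (fun i => 1 / s i) (fun i => by have := hs i; positivity)
      (fun i j hij => one_div_le_one_div_of_le (hs j) (h.antitone hij))
    exact ⟨s, p, Or.inr ⟨h, fun _ => rfl, hp⟩⟩

end Pool.Agent.T2H03.DS
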