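import Pool.Agent.T2H03.DS.Stm

/-! # Package DIAG (helper74): uncorrelated Gaussian variables are independent -/

set_option autoImplicit false

namespace Pool.Agent.T2H03.DS

open MeasureTheory ProbabilityTheory Finset Filter Topology Pool.Agent.Helper41
open scoped ENNReal NNReal

theorem T_DIAG : P_DIAG := by
  classical
  intro Ω _ P _ T _ X v hX h
  have hG := h.isGaussianProcess hX
  have hL : HasGaussianLaw (fun ω => (X · ω)) P := by
    have h1 := hG.hasGaussianLaw Finset.univ
    have h2 := h1.map_fun (ContinuousLinearMap.pi fun t : T =>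
      (ContinuousLinearMap.proj (⟨t, Finset.mem_univ t⟩ : ↥(Finset.univ : Finset T)) :
        (↥(Finset.univ : Finset T) → ℝ) →L[ℝ] ℝ))
    exact h2
  have hI : iIndepFun X P := by
    refine HasGaussianLaw.iIndepFun_of_covariance_eq_zero hL fun i j hij => ?_
    rw [h.cov hX ?_ i j]
    · unfold dK
      rw [if_neg hij]
    · intro s t
      unfold dK
      by_cases hst : s = t
      · rw [hst]
      · rw [if_neg hst, if_neg (Ne.symm hst)]
  rw [iIndepFun_iff_map_fun_eq_pi_map (fun t => (hX t).aemeasurable)] at hI
  rw [hI]
  congr 1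
  funext t
  rw [h.map_single hX t]
  unfold dK
  rw [if_pos rfl, Real.toNNReal_coe]

end Pool.Agent.T2H03.DS
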