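import Pool.Agent.T2H03.DS.Stm

/-! # DS, package DOOB: Doob's `L²` inequality on a product space -/

set_option autoImplicit false

namespace Pool.Agent.T2H03.DS

open MeasureTheory ProbabilityTheory Finset Filter Topology Pool.Agent.Helper41
open scoped ENNReal NNReal

private theorem doob_glue {S E : Type} (A B : Set S) (hAB : A ⊆ B) (x y w : S → E) :
    glue A (glue B x y) w = glue A x w := by
  classical
  funext c
  unfold glue
  by_cases hc : c ∈ A
  · have hcB : c ∈ B := hAB hc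
    simp [hc, hcB]
  · simp [hc]

private theorem doob_cond_glue {S E : Type} [Fintype S] [MeasurableSpace E] (γ : S → Measure E) (A B : Set S)
    (hAB : A ⊆ B) (f : (S → E) → ℝ≥0∞) (x y : S → E) : cond γ A f (glue B x y) = cond γ A f x := by
  unfold cond
  simp only [doob_glue A B hAB]

/-- the pointwise inequality -/
private theorem doob_pt (X Y : ℝ≥0∞) (hX : X ≠ ⊤) (hY : Y ≠ ⊤) :
    (X ⊔ Y) ^ 2 + 2 * (Y * X) ≤ 2 * ((X ⊔ Y) * X) + Y ^ 2 := by
  lift X to ℝ≥0 using hX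
  lift Y to ℝ≥0 using hY
  norm_cast
  rcases le_total X Y with h | h
  · rw [sup_eq_right.2 h]
    exact (add_comm _ _).le
  · rw [sup_eq_left.2 h]
    rw [← NNReal.coe_le_coe]
    push_cast
    nlinarith [sq_nonneg ((X : ℝ) - Y)]

theorem T_DOOB (hCO : P_CO) : P_DOOB := by
  classical
  intro S E _ _ γ _ I _ _ A hA f hf C hC hfC
  obtain ⟨h1, -, h3, -⟩ := hCO S E γ
  -- bounds
  have hxC : ∀ i z, cond γ (A i) f z ≤ C := by
    intro i z
    unfold cond
    calc ∫⁻ y, f (glue (A i) z y) ∂(Measure.pi γ) ≤ ∫⁻ _, C ∂(Measure.pi γ) := lintegral_mono fun y => hfC _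
      _ = C := by simp
  have hsC : ∀ (T : Finset I) z, T.sup (fun i => cond γ (A i) f z) ≤ C := by
    intro T z
    exact Finset.sup_le fun i _ => hxC i z
  have hsm : ∀ (T : Finset I), Measurable fun z => T.sup (fun i => cond γ (A i) f z) := by
    intro T
    induction T using Finset.induction_on with
    | empty => simp
    | insert a T _ ih =>
      have e : (fun z => (insert a T).sup (fun i => cond γ (A i) f z)) =
          fun z => cond γ (A a) f z ⊔ T.sup (fun i => cond γ (A i) f z) := by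
        funext z
        rw [Finset.sup_insert]
      rw [e]
      exact (h1 (A a) f hf).sup ih
  have hfin : ∀ (g h : (S → E) → ℝ≥0∞), (∀ z, g z ≤ C) → (∀ z, h z ≤ C) →
      ∫⁻ z, g z * h z ∂(Measure.pi γ) ≠ ⊤ := by
    intro g h hg hh
    have : ∫⁻ z, g z * h z ∂(Measure.pi γ) ≤ C * C := by
      calc ∫⁻ z, g z * h z ∂(Measure.pi γ) ≤ ∫⁻ _, C * C ∂(Measure.pi γ) :=
            lintegral_mono fun z => mul_le_mul' (hg z) (hh z)
        _ = C * C := by simp
    exact ne_top_of_le_ne_top (ENNReal.mul_ne_top hC hC) this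
  -- adaptedness
  have had : ∀ (T : Finset I) (a : I), (∀ i ∈ T, i ≤ a) → ∀ z y,
      T.sup (fun i => cond γ (A i) f (glue (A a) z y)) = T.sup (fun i => cond γ (A i) f z) := by
    intro T a hT z y
    refine Finset.sup_congr rfl fun i hi => ?_
    exact doob_cond_glue γ (A i) (A a) (hA (hT i hi)) f z y
  -- the main induction
  have key : ∀ T : Finset I,
      ∫⁻ z, (T.sup (fun i => cond γ (A i) f z)) ^ 2 ∂(Measure.pi γ) ≤
        2 * ∫⁻ z, T.sup (fun i => cond γ (A i) f z) * f z ∂(Measure.pi γ) := by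
    intro T
    induction T using Finset.induction_on_max with
    | empty => simp
    | insert a T hT ih =>
      set X : (S → E) → ℝ≥0∞ := fun z => cond γ (A a) f z with hXd
      set Y : (S → E) → ℝ≥0∞ := fun z => T.sup (fun i => cond γ (A i) f z) with hYd
      have hins : ∀ z, (insert a T).sup (fun i => cond γ (A i) f z) = X z ⊔ Y z := by
        intro z
        rw [Finset.sup_insert]
      simp only [hins]
      have hXm : Measurable X := h1 (A a) f hf
      have hYm : Measurable Y := hsm T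
      have e1 : ∫⁻ z, Y z * X z ∂(Measure.pi γ) = ∫⁻ z, Y z * f z ∂(Measure.pi γ) := by
        refine h3 (A a) f Y hf hYm ?_
        intro z y
        exact had T a (fun i hi => (hT i hi).le) z y
      have e2 : ∫⁻ z, (X z ⊔ Y z) * X z ∂(Measure.pi γ) = ∫⁻ z, (X z ⊔ Y z) * f z ∂(Measure.pi γ) := by
        refine h3 (A a) f (fun z => X z ⊔ Y z) hf (hXm.sup hYm) ?_
        intro z y
        have hx : X (glue (A a) z y) = X z := doob_cond_glue γ (A a) (A a) (le_refl _) f z y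
        have hy : Y (glue (A a) z y) = Y z := had T a (fun i hi => (hT i hi).le) z y
        show X (glue (A a) z y) ⊔ Y (glue (A a) z y) = X z ⊔ Y z
        rw [hx, hy]
      have hXC : ∀ z, X z ≤ C := fun z => hxC a z
      have hYC : ∀ z, Y z ≤ C := fun z => hsC T z
      have hint : ∫⁻ z, ((X z ⊔ Y z) ^ 2 + 2 * (Y z * X z)) ∂(Measure.pi γ) ≤
          ∫⁻ z, (2 * ((X z ⊔ Y z) * X z) + Y z ^ 2) ∂(Measure.pi γ) := by
        refine lintegral_mono fun z => ?_
        exact doob_pt (X z) (Y z) (ne_top_of_le_ne_top hC (hXC z)) (ne_top_of_le_ne_top hC (hYC z))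
      have a1 : ∫⁻ z, ((X z ⊔ Y z) ^ 2 + 2 * (Y z * X z)) ∂(Measure.pi γ) =
          ∫⁻ z, (X z ⊔ Y z) ^ 2 ∂(Measure.pi γ) + 2 * ∫⁻ z, Y z * X z ∂(Measure.pi γ) := by
        have hm : Measurable fun z => Y z * X z := hYm.mul hXm
        rw [lintegral_add_right _ (hm.const_mul 2), lintegral_const_mul (2 : ℝ≥0∞) hm]
      have a2 : ∫⁻ z, (2 * ((X z ⊔ Y z) * X z) + Y z ^ 2) ∂(Measure.pi γ) =
          2 * ∫⁻ z, (X z ⊔ Y z) * X z ∂(Measure.pi γ) + ∫⁻ z, Y z ^ 2 ∂(Measure.pi γ) := by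
        have hm : Measurable fun z => (X z ⊔ Y z) * X z := (hXm.sup hYm).mul hXm
        rw [lintegral_add_right _ (hYm.pow_const 2), lintegral_const_mul (2 : ℝ≥0∞) hm]
      rw [a1, a2, e1, e2] at hint
      have h4 : ∫⁻ z, (X z ⊔ Y z) ^ 2 ∂(Measure.pi γ) + 2 * ∫⁻ z, Y z * f z ∂(Measure.pi γ) ≤
          2 * ∫⁻ z, (X z ⊔ Y z) * f z ∂(Measure.pi γ) + 2 * ∫⁻ z, Y z * f z ∂(Measure.pi γ) :=
        hint.trans (by gcongr)
      have hne : 2 * ∫⁻ z, Y z * f z ∂(Measure.pi γ) ≠ ⊤ :=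
        ENNReal.mul_ne_top (by norm_num) (hfin Y f hYC hfC)
      exact (ENNReal.add_le_add_iff_right hne).1 h4
  -- conclusion
  have hsup : ∀ z, (⨆ i, cond γ (A i) f z) = (Finset.univ : Finset I).sup (fun i => cond γ (A i) f z) := by
    intro z
    rw [Finset.sup_univ_eq_iSup]
  simp only [hsup]
  set Z : (S → E) → ℝ≥0∞ := fun z => (Finset.univ : Finset I).sup (fun i => cond γ (A i) f z) with hZd
  have hZm : Measurable Z := hsm _
  have hZC : ∀ z, Z z ≤ C := fun z => hsC _ z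
  have hk : ∫⁻ z, Z z ^ 2 ∂(Measure.pi γ) ≤ 2 * ∫⁻ z, Z z * f z ∂(Measure.pi γ) := key _
  have hpt : ∀ z, 2 * (2 * (Z z * f z)) ≤ Z z ^ 2 + 4 * f z ^ 2 := by
    intro z
    have hz : Z z ≠ ⊤ := ne_top_of_le_ne_top hC (hZC z)
    have hf' : f z ≠ ⊤ := ne_top_of_le_ne_top hC (hfC z)
    generalize Z z = a at hz
    generalize f z = b at hf'
    lift a to ℝ≥0 using hz
    lift b to ℝ≥0 using hf'
    norm_cast
    rw [← NNReal.coe_le_coe]
    push_cast
    nlinarith [sq_nonneg ((a : ℝ) - 2 * b)]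
  have h5 : 2 * ∫⁻ z, Z z ^ 2 ∂(Measure.pi γ) ≤ ∫⁻ z, Z z ^ 2 ∂(Measure.pi γ) + 4 * ∫⁻ z, f z ^ 2 ∂(Measure.pi γ) := by
    calc 2 * ∫⁻ z, Z z ^ 2 ∂(Measure.pi γ) ≤ 2 * (2 * ∫⁻ z, Z z * f z ∂(Measure.pi γ)) := by gcongr
      _ = ∫⁻ z, 2 * (2 * (Z z * f z)) ∂(Measure.pi γ) := by
        rw [lintegral_const_mul (2 : ℝ≥0∞) (f := fun z => 2 * (Z z * f z)) ((hZm.mul hf).const_mul 2),
          lintegral_const_mul (2 : ℝ≥0∞) (f := fun z => Z z * f z) (hZm.mul hf)]
      _ ≤ ∫⁻ z, (Z z ^ 2 + 4 * f z ^ 2) ∂(Measure.pi γ) := lintegral_mono hpt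
      _ = _ := by
        rw [lintegral_add_left (hZm.pow_const 2), lintegral_const_mul _ (hf.pow_const 2)]
  have hZfin : ∫⁻ z, Z z ^ 2 ∂(Measure.pi γ) ≠ ⊤ := by
    have := hfin Z Z hZC hZC
    simpa [sq] using this
  rw [two_mul] at h5
  exact (ENNReal.add_le_add_iff_left hZfin).1 h5

end Pool.Agent.T2H03.DS
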