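import Pool.Agent.T2H03.DS.Stm

/-! # Package FIN: assembly -/

set_option autoImplicit false

namespace Pool.Agent.T2H03.DS

open MeasureTheory ProbabilityTheory Finset Filter Topology Pool.Agent.Helper41
open scoped ENNReal NNReal

theorem T_FIN (hQ1U : P_Q1U) (hQ1L : P_Q1L) (hNORM : P_NORM) (hCAPP : P_CAPP) (hQ2A : P_Q2A) :
    P_FIN := by
  intro d hd Ω _ P B hB
  refine ⟨fun G hG hpos => ?_, fun E hE hpos => ?_⟩
  · rw [hCAPP, hNORM d hd]
    exact ⟨hQ1U d Ω P B hB G hG hpos, hQ1L d Ω P B hB G hG hpos⟩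
  · rw [hCAPP]
    exact hQ2A d hd Ω P B hB E hE hpos

end Pool.Agent.T2H03.DS
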