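import Pool.Agent.T2H03.DS.Stm

/-! # Package GCK -/

set_option autoImplicit false

namespace Pool.Agent.T2H03.DS

open MeasureTheory ProbabilityTheory Finset Filter Topology Pool.Agent.Helper41
open scoped ENNReal NNReal

namespace GCK

/-- indicator of `x ≤ i` -/
def ind {I : Type} [LinearOrder I] (i x : I) : ℝ := if x ≤ i then 1 else 0

theorem chain_min {I : Type} [Fintype I] [LinearOrder I] {s lam : I → ℝ} {p : I → ℝ≥0}
    (h : Chain s lam p) (hs : ∀ i, 0 < s i) (i i' : I) :
    lam i * lam i' * ∑ x, ind i x * ind i' x * (p x : ℝ) = min (s i) (s i') := by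
  wlog hle : i ≤ i' generalizing i i' with H
  · have := H i' i (le_of_not_ge hle)
    rw [min_comm, ← this]
    congr 1
    · ring
    · exact Finset.sum_congr rfl fun x _ => by ring
  have e : ∑ x, ind i x * ind i' x * (p x : ℝ) = (cum p i : ℝ) := by
    rw [cum, Finset.sum_filter]
    push_cast
    refine Finset.sum_congr rfl fun x _ => ?_
    unfold ind
    by_cases hx : x ≤ i
    · rw [if_pos hx, if_pos (hx.trans hle), if_pos hx]; ring
    · rw [if_neg hx, if_neg hx]; simp
  rw [e]
  rcases h with ⟨h1, h2, h3⟩ | ⟨h1, h2, h3⟩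
  · rw [h2, h2, h3, min_eq_left (h1.monotone hle)]; ring
  · rw [h2, h2, h3, min_eq_right (h1.antitone hle)]
    have := (hs i).ne'
    field_simp

section

variable {I J L : Type} [LinearOrder I] [LinearOrder J] [LinearOrder L]

/-- coefficients -/
def coef (lam : I → ℝ) (kap : J → ℝ) (nu : L → ℝ) : Cell I J L → Cell I J L → ℝ
  | Sum.inl a, Sum.inl b => lam a.1 * kap a.2 * (ind a.1 b.1 * ind a.2 b.2)
  | Sum.inr a, Sum.inr b => lam a.1 * nu a.2 * (ind a.1 b.1 * ind a.2 b.2)
  | _, _ => 0

variable [Fintype I] [Fintype J] [Fintype L]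

theorem coef_sum {d : ℕ} (lam : I → ℝ) (kap : J → ℝ) (nu : L → ℝ) (x : Cell I J L → Fin d → ℝ)
    (a : Cell I J L) (l : Fin d) :
    ∑ c, coef lam kap nu a c * x c l = Yv lam kap nu x a l := by
  rw [Fintype.sum_sum_type]
  rcases a with a | a
  · simp only [coef, Yv, zero_mul, Finset.sum_const_zero, add_zero]
    rw [Fintype.sum_prod_type, Finset.sum_filter, Finset.mul_sum]
    refine Finset.sum_congr rfl fun i _ => ?_
    unfold ind
    by_cases hi : i ≤ a.1
    · simp only [if_pos hi]
      rw [Finset.sum_filter, Finset.mul_sum]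
      refine Finset.sum_congr rfl fun j _ => ?_
      by_cases hj : j ≤ a.2
      · simp only [if_pos hj]; ring
      · simp only [if_neg hj]; ring
    · simp only [if_neg hi]; simp
  · simp only [coef, Yv, zero_mul, Finset.sum_const_zero, zero_add]
    rw [Fintype.sum_prod_type, Finset.sum_filter, Finset.mul_sum]
    refine Finset.sum_congr rfl fun i _ => ?_
    unfold ind
    by_cases hi : i ≤ a.1
    · simp only [if_pos hi]
      rw [Finset.sum_filter, Finset.mul_sum]
      refine Finset.sum_congr rfl fun j _ => ?_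
      by_cases hj : j ≤ a.2
      · simp only [if_pos hj]; ring
      · simp only [if_neg hj]; ring
    · simp only [if_neg hi]; simp

theorem coef_cov {s lam : I → ℝ} {p : I → ℝ≥0} {u kap : J → ℝ} {q : J → ℝ≥0} {v nu : L → ℝ}
    {w : L → ℝ≥0} (hs : Chain s lam p) (hu : Chain u kap q) (hv : Chain v nu w)
    (s0 : ∀ i, 0 < s i) (u0 : ∀ j, 0 < u j) (v0 : ∀ k, 0 < v k) (a b : Cell I J L) :
    ∑ c, coef lam kap nu a c * coef lam kap nu b c * (cvar p q w c : ℝ) =
      gridK (d := 1) s u v (0, a) (0, b) := by
  rw [Fintype.sum_sum_type]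
  rcases a with a | a <;> rcases b with b | b
  · simp only [coef, zero_mul, mul_zero, Finset.sum_const_zero, add_zero, gridK, if_true]
    rw [← chain_min hs s0, ← chain_min hu u0, Fintype.sum_prod_type]
    have e : ∀ A B P Q : ℝ, A * P * (B * Q) = A * B * (P * Q) := by intros; ring
    rw [e, Finset.sum_mul_sum, Finset.mul_sum]
    refine Finset.sum_congr rfl fun i _ => ?_
    rw [Finset.mul_sum]
    refine Finset.sum_congr rfl fun j _ => ?_
    simp only [cvar]
    push_cast
    ring
  · simp only [coef, zero_mul, mul_zero, Finset.sum_const_zero, add_zero, gridK]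
  · simp only [coef, zero_mul, mul_zero, Finset.sum_const_zero, add_zero, gridK]
  · simp only [coef, zero_mul, mul_zero, Finset.sum_const_zero, zero_add, gridK, if_true]
    rw [← chain_min hs s0, ← chain_min hv v0, Fintype.sum_prod_type]
    have e : ∀ A B P Q : ℝ, A * P * (B * Q) = A * B * (P * Q) := by intros; ring
    rw [e, Finset.sum_mul_sum, Finset.mul_sum]
    refine Finset.sum_congr rfl fun i _ => ?_
    rw [Finset.mul_sum]
    refine Finset.sum_congr rfl fun j _ => ?_
    simp only [cvar]
    push_cast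
    ring

theorem gridK_one {d : ℕ} (s : I → ℝ) (u : J → ℝ) (v : L → ℝ) (l m : Fin d) (a b : Cell I J L) :
    gridK s u v (l, a) (m, b) = if l = m then gridK (d := 1) s u v (0, a) (0, b) else 0 := by
  rcases a with a | a <;> rcases b with b | b <;> simp [gridK]

end

end GCK

open GCK in
theorem T_GCK (hNEST : P_NEST) (hLIN : P_LIN) : P_GCK := by
  intro d I J L _ _ _ _ _ _ s lam p u kap q v nu w hs hu hv s0 u0 v0
  have h1 := hNEST d (Cell I J L) (cvar p q w)
  have h2 := hLIN _ _ _ (Fin d × Cell I J L) _ _ h1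
    (fun t' t => if t'.1 = t.1 then coef lam kap nu t'.2 t.2 else 0)
  have e1 : (fun (t' : Fin d × Cell I J L) (x : Cell I J L → Fin d → ℝ) =>
      ∑ t : Fin d × Cell I J L, (if t'.1 = t.1 then coef lam kap nu t'.2 t.2 else 0) * x t.2 t.1) =
      fun (t : Fin d × Cell I J L) x => Yv lam kap nu x t.2 t.1 := by
    funext t' x
    rw [Fintype.sum_prod_type, Finset.sum_eq_single t'.1]
    · simp only [if_true]
      exact coef_sum lam kap nu x t'.2 t'.1
    · intro l _ hl
      simp only [if_neg hl.symm, zero_mul, Finset.sum_const_zero]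
    · intro h; exact absurd (Finset.mem_univ _) h
  have e2 : (fun a b : Fin d × Cell I J L => ∑ t : Fin d × Cell I J L, ∑ t' : Fin d × Cell I J L,
      (if a.1 = t.1 then coef lam kap nu a.2 t.2 else 0) *
        (if b.1 = t'.1 then coef lam kap nu b.2 t'.2 else 0) *
        dK (fun t : Fin d × Cell I J L => (cvar p q w t.2 : ℝ)) t t') = gridK s u v := by
    funext a b
    obtain ⟨l, a⟩ := a
    obtain ⟨m, b⟩ := b
    rw [gridK_one, ← coef_cov hs hu hv s0 u0 v0]
    have e3 : ∀ t : Fin d × Cell I J L, ∑ t' : Fin d × Cell I J L,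
      (if l = t.1 then coef lam kap nu a t.2 else 0) *
        (if m = t'.1 then coef lam kap nu b t'.2 else 0) *
        dK (fun t : Fin d × Cell I J L => (cvar p q w t.2 : ℝ)) t t' =
      (if l = t.1 then coef lam kap nu a t.2 else 0) *
        (if m = t.1 then coef lam kap nu b t.2 else 0) * (cvar p q w t.2 : ℝ) := by
      intro t
      rw [Finset.sum_eq_single t]
      · simp only [dK, if_true]
      · intro t' _ ht
        simp only [dK, if_neg ht.symm, mul_zero]
      · intro h; exact absurd (Finset.mem_univ _) h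
    simp only [e3]
    rw [Fintype.sum_prod_type, Finset.sum_eq_single l]
    · by_cases h : l = m
      · subst h
        simp only [if_true]
      · simp only [if_neg h, if_neg (fun h' : m = l => h h'.symm), mul_zero, zero_mul,
          Finset.sum_const_zero]
    · intro l' _ hl
      simp only [if_neg hl.symm, zero_mul, Finset.sum_const_zero]
    · intro h; exact absurd (Finset.mem_univ _) h
  rw [e1] at h2
  have h3 : CharKernel (fun (t : Fin d × Cell I J L) (x : Cell I J L → Fin d → ℝ) =>
      Yv lam kap nu x t.2 t.1) (Measure.pi fun c : Cell I J L => Measure.pi fun _ : Fin d =>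
        gaussianReal 0 (cvar p q w c)) (gridK s u v) := by
    rw [← e2]
    exact h2
  exact h3

end Pool.Agent.T2H03.DS
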