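import Pool.Agent.T2H03.DS.Stm

/-! # Package GLIN: linear combinations of independent Gaussian vectors -/

set_option autoImplicit false

namespace Pool.Agent.T2H03.DS

open MeasureTheory ProbabilityTheory Finset Filter Topology Pool.Agent.Helper41
open scoped ENNReal NNReal

theorem T_GLIN (hNEST : P_NEST) (hLIN : P_LIN) (hDIAG : P_DIAG) : P_GLIN := by
  classical
  intro d S _ v b
  have h1 := hLIN _ _ (Fin d × S) (Fin d) _ _ (hNEST d S v)
    (fun l t => if t.1 = l then b t.2 else 0)
  have h2 : (fun (l : Fin d) (x : S → Fin d → ℝ) => ∑ t : Fin d × S,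
      (if t.1 = l then b t.2 else 0) * x t.2 t.1) = fun l x => ∑ c, b c * x c l := by
    funext l x
    rw [Fintype.sum_prod_type, Finset.sum_eq_single l]
    · exact Finset.sum_congr rfl fun c _ => by rw [if_pos rfl]
    · intro i _ hi
      exact Finset.sum_eq_zero fun c _ => by rw [if_neg hi, zero_mul]
    · intro h
      exact absurd (Finset.mem_univ _) h
  have h3 : (fun x y : Fin d => ∑ t : Fin d × S, ∑ t' : Fin d × S,
      (if t.1 = x then b t.2 else 0) * (if t'.1 = y then b t'.2 else 0) *
        dK (fun t : Fin d × S => (v t.2 : ℝ)) t t') =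
      dK fun _ : Fin d => ((∑ c, (b c ^ 2).toNNReal * v c : ℝ≥0) : ℝ) := by
    funext x y
    have e1 : ∀ t : Fin d × S, ∑ t' : Fin d × S,
        (if t.1 = x then b t.2 else 0) * (if t'.1 = y then b t'.2 else 0) *
        dK (fun t : Fin d × S => (v t.2 : ℝ)) t t' =
        (if t.1 = x then b t.2 else 0) * (if t.1 = y then b t.2 else 0) * (v t.2 : ℝ) := by
      intro t
      rw [Finset.sum_eq_single t]
      · unfold dK
        rw [if_pos rfl]
      · intro t' _ ht
        have e0 : dK (fun t : Fin d × S => (v t.2 : ℝ)) t t' = 0 := if_neg fun h => ht h.symm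
        rw [e0, mul_zero]
      · intro h
        exact absurd (Finset.mem_univ _) h
    rw [Finset.sum_congr rfl fun t _ => e1 t, Fintype.sum_prod_type]
    unfold dK
    by_cases hxy : x = y
    · subst hxy
      rw [if_pos rfl, Finset.sum_eq_single x]
      · rw [NNReal.coe_sum]
        refine Finset.sum_congr rfl fun c _ => ?_
        rw [if_pos rfl, NNReal.coe_mul, Real.coe_toNNReal _ (sq_nonneg _), sq]
      · intro i _ hi
        exact Finset.sum_eq_zero fun c _ => by rw [if_neg hi, zero_mul, zero_mul]
      · intro h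
        exact absurd (Finset.mem_univ _) h
    · rw [if_neg hxy]
      refine Finset.sum_eq_zero fun i _ => Finset.sum_eq_zero fun c _ => ?_
      by_cases hi : i = x
      · rw [if_neg (fun h : i = y => hxy (hi.symm.trans h)), mul_zero, zero_mul]
      · rw [if_neg hi, zero_mul, zero_mul]
  rw [h2, h3] at h1
  exact hDIAG _ _ (Fin d) _ (fun _ => ∑ c, (b c ^ 2).toNNReal * v c) (fun l => by fun_prop) h1

end Pool.Agent.T2H03.DS
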