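import Pool.Agent.T2H03.DS.Stm

/-! # Package KEY: all orthants -/

set_option autoImplicit false

namespace Pool.Agent.T2H03.DS

open MeasureTheory ProbabilityTheory Finset Filter Topology Pool.Agent.Helper41
open scoped ENNReal NNReal

namespace KEY

/-- the dual order on the same type -/
@[instance_reducible] def dlo (I : Type) [LinearOrder I] : LinearOrder I := (inferInstance : LinearOrder Iᵒᵈ)

/-- the given order or the dual one -/
@[instance_reducible] def ordB (b : Bool) (I : Type) [LinearOrder I] : LinearOrder I :=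
  match b with
  | true => inferInstance
  | false => dlo I

/-- the relation `≤` or `≥` -/
def relB (b : Bool) {I : Type} [LinearOrder I] (x y : I) : Prop := (ordB b I).le x y

theorem relB_true {I : Type} [LinearOrder I] (x y : I) : relB true x y ↔ x ≤ y := Iff.rfl

theorem relB_false {I : Type} [LinearOrder I] (x y : I) : relB false x y ↔ y ≤ x := Iff.rfl

theorem monoB (b : Bool) {I : Type} [LinearOrder I] (s : I → ℝ) (hs : StrictMono s) :
    (@StrictMono I ℝ (ordB b I).toPreorder _ s) ∨ (@StrictAnti I ℝ (ordB b I).toPreorder _ s) := by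
  cases b with
  | true => exact Or.inl hs
  | false =>
    refine Or.inr ?_
    intro x y hxy
    exact hs (show y < x from hxy)

theorem exists_rel {I : Type} [LinearOrder I] (x y : I) : ∃ b, relB b x y := by
  rcases le_total x y with h | h
  · exact ⟨true, h⟩
  · exact ⟨false, h⟩

theorem filt_eq {α : Type} [Fintype α] (p q : α → Prop) (ip : DecidablePred p)
    (iq : DecidablePred q) (h : ∀ x, p x ↔ q x) :
    @Finset.filter α p ip univ = @Finset.filter α q iq univ := by
  ext x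
  rw [Finset.mem_filter, Finset.mem_filter, h]

end KEY

open KEY in
theorem T_KEY (hOOP : P_OOP) : P_KEY := by
  intro d η K M hη hM
  obtain ⟨C, ε₀, hC, hε₀, H⟩ := hOOP d η K M hη hM
  refine ⟨64 * C, ε₀, by positivity, hε₀, ?_⟩
  intro I J L _ _ _ _ _ _ s u v hs hu hv vs vu vv Ω _ P _ W hWm hW ε hε hεε D hDm hDd hDN
  classical
  set h : I × J × L → ℝ := fun r => pr P W (D r) with hh
  set k : I × J × L → I × J × L → ℝ := fun r r' => ker d ε (rg s u v r r') with hk
  have h0 : ∀ r, 0 ≤ h r := fun r => ENNReal.toReal_nonneg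
  have k0 : ∀ r r', 0 ≤ k r r' := by
    intro r r'
    rw [hk]
    simp only [ker]
    have : 0 < max ε (Real.sqrt (rg s u v r r')) := lt_max_of_lt_left hε
    positivity
  -- one orthant
  set G : Bool × Bool × Bool → I × J × L → ℝ := fun o r0 =>
    ∑ r ∈ univ.filter (fun r : I × J × L => relB o.1 r0.1 r.1 ∧ relB o.2.1 r0.2.1 r.2.1 ∧
      relB o.2.2 r0.2.2 r.2.2), h r * k r0 r with hG
  have hone : ∀ o, ∑ r0, h r0 * (G o r0) ^ 2 ≤ C * ∑ r, ∑ r', h r * h r' * k r r' := by
    intro o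
    have := @H I J L _ (ordB o.1 I) _ (ordB o.2.1 J) _ (ordB o.2.2 L) s u v (monoB o.1 s hs)
      (monoB o.2.1 u hu) (monoB o.2.2 v hv) vs vu vv Ω _ P _ W hWm hW ε hε hεε D hDm hDd hDN
    refine le_trans (le_of_eq ?_) this
    refine Finset.sum_congr rfl fun r0 _ => ?_
    congr 2
    rw [hG]
    exact Finset.sum_congr (filt_eq _ _ _ _ (fun r => Iff.rfl)) fun _ _ => rfl
  have hGle : ∀ r0, ∑ r, h r * k r0 r ≤ ∑ o, G o r0 := by
    intro r0
    rw [hG]
    simp only [Finset.sum_filter]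
    rw [Finset.sum_comm]
    refine Finset.sum_le_sum fun r _ => ?_
    obtain ⟨a, ha⟩ := exists_rel r0.1 r.1
    obtain ⟨b, hb⟩ := exists_rel r0.2.1 r.2.1
    obtain ⟨c, hc⟩ := exists_rel r0.2.2 r.2.2
    have hnn : ∀ o : Bool × Bool × Bool, 0 ≤ (if relB o.1 r0.1 r.1 ∧ relB o.2.1 r0.2.1 r.2.1 ∧
        relB o.2.2 r0.2.2 r.2.2 then h r * k r0 r else 0) := by
      intro o
      split_ifs
      · exact mul_nonneg (h0 _) (k0 _ _)
      · exact le_rfl
    have := Finset.single_le_sum (fun o _ => hnn o) (Finset.mem_univ (a, b, c))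
    rw [if_pos ⟨ha, hb, hc⟩] at this
    exact this
  have hg0 : ∀ r0, 0 ≤ ∑ r, h r * k r0 r := fun r0 =>
    Finset.sum_nonneg fun r _ => mul_nonneg (h0 _) (k0 _ _)
  have hsq : ∀ r0, (∑ r, h r * k r0 r) ^ 2 ≤ 8 * ∑ o, (G o r0) ^ 2 := by
    intro r0
    have h1 : (∑ r, h r * k r0 r) ^ 2 ≤ (∑ o, G o r0) ^ 2 :=
      pow_le_pow_left₀ (hg0 r0) (hGle r0) 2
    have h2 := sq_sum_le_card_mul_sum_sq (s := (univ : Finset (Bool × Bool × Bool)))
      (f := fun o => G o r0)
    have h3 : ((univ : Finset (Bool × Bool × Bool)).card : ℝ) = 8 := by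
      simp
    rw [h3] at h2
    exact h1.trans h2
  set S : ℝ := ∑ r, ∑ r', h r * h r' * k r r' with hS
  have hS0 : 0 ≤ S := Finset.sum_nonneg fun r _ => Finset.sum_nonneg fun r' _ =>
    mul_nonneg (mul_nonneg (h0 _) (h0 _)) (k0 _ _)
  have hSg : S = ∑ r, h r * ∑ r', h r' * k r r' := by
    rw [hS]
    refine Finset.sum_congr rfl fun r _ => ?_
    rw [Finset.mul_sum]
    refine Finset.sum_congr rfl fun r' _ => ?_
    ring
  have hmain : ∑ r0, h r0 * (∑ r, h r * k r0 r) ^ 2 ≤ 64 * C * S := by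
    calc ∑ r0, h r0 * (∑ r, h r * k r0 r) ^ 2 ≤ ∑ r0, h r0 * (8 * ∑ o, (G o r0) ^ 2) :=
          Finset.sum_le_sum fun r0 _ => mul_le_mul_of_nonneg_left (hsq r0) (h0 r0)
      _ = 8 * ∑ o, ∑ r0, h r0 * (G o r0) ^ 2 := by
          rw [Finset.sum_comm, Finset.mul_sum]
          refine Finset.sum_congr rfl fun r0 _ => ?_
          rw [Finset.mul_sum, Finset.mul_sum, Finset.mul_sum]
          refine Finset.sum_congr rfl fun o _ => ?_
          ring
      _ ≤ 8 * ∑ _o : Bool × Bool × Bool, C * S :=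
          mul_le_mul_of_nonneg_left (Finset.sum_le_sum fun o _ => hone o) (by norm_num)
      _ = 64 * C * S := by
          rw [Finset.sum_const]
          simp
          ring
  have hcs : S ^ 2 ≤ (∑ r, h r) * (64 * C * S) := by
    have h1 : S ^ 2 ≤ (∑ r, h r) * ∑ r0, h r0 * (∑ r, h r * k r0 r) ^ 2 := by
      rw [hSg]
      refine Finset.sum_sq_le_sum_mul_sum_of_sq_le_mul univ (fun r _ => h0 r)
        (fun r _ => mul_nonneg (h0 r) (sq_nonneg _)) (fun r _ => le_of_eq ?_)
      ring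
    exact h1.trans (mul_le_mul_of_nonneg_left hmain (Finset.sum_nonneg fun r _ => h0 r))
  change S ≤ 64 * C * ∑ r, h r
  rcases hS0.eq_or_lt with h1 | h1
  · rw [← h1]
    exact mul_nonneg (by positivity) (Finset.sum_nonneg fun r _ => h0 r)
  · nlinarith

end Pool.Agent.T2H03.DS
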