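import Pool.Agent.T2H03.DS.Stm

/-! # KEY2: the energy inequality for finite sets of points -/

set_option autoImplicit false

namespace Pool.Agent.T2H03.DS

open MeasureTheory ProbabilityTheory Finset Filter Topology Pool.Agent.Helper41
open scoped ENNReal NNReal

/-- the point with the grid indices `r` -/
private def k2pt {I J L : Type} (s : I → ℝ) (u : J → ℝ) (v : L → ℝ) (a : ℝ) (r : I × J × L) : ℝ × ℝ × ℝ :=
  (s r.1, a - v r.2.2, a + u r.2.1)

private lemma k2_near {d : ℕ} {Ω I J L : Type} (B : ℝ × ℝ → Ω → (Fin d → ℝ)) (s : I → ℝ) (u : J → ℝ) (v : L → ℝ)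
    (a ε M : ℝ) (r : I × J × L) (ω : Ω) :
    vec (Wg B s u v a) ω ∈ Near ε M r ↔ NearB B a ε M (k2pt s u v a r) ω := by
  simp only [Near, NearB, Set.mem_setOf_eq, vec, Wg, Xg, dX, k2pt, sub_add_sub_cancel]

private lemma k2_meas {d : ℕ} {I J L : Type} (ε M : ℝ) (r : I × J × L) :
    MeasurableSet (Near ε M r : Set (Cell I J L → Fin d → ℝ)) := by
  have e : (Near ε M r : Set (Cell I J L → Fin d → ℝ)) = ⋂ l : Fin d, ({y | |Xg y r l| ≤ ε} ∩
      ({y | |y (Sum.inl (r.1, r.2.1)) l| ≤ M} ∩ {y | |y (Sum.inr (r.1, r.2.2)) l| ≤ M})) := by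
    ext y
    simp [Near]
  rw [e]
  have m : ∀ (c : Cell I J L) (l : Fin d), Measurable fun y : Cell I J L → Fin d → ℝ => y c l := fun c l =>
    (measurable_pi_apply l).comp (measurable_pi_apply c)
  have m2 : ∀ l : Fin d, Measurable fun y : Cell I J L → Fin d → ℝ => Xg y r l := fun l => by
    unfold Xg
    exact (m _ l).add (m _ l)
  refine MeasurableSet.iInter fun l => ?_
  refine (measurableSet_le ?_ measurable_const).inter ((measurableSet_le ?_ measurable_const).inter
    (measurableSet_le ?_ measurable_const))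
  · exact continuous_abs.measurable.comp (m2 l)
  · exact continuous_abs.measurable.comp (m _ l)
  · exact continuous_abs.measurable.comp (m _ l)

private lemma k2_W {d : ℕ} {Ω I J L : Type} [MeasurableSpace Ω] (B : ℝ × ℝ → Ω → (Fin d → ℝ))
    (hB : ∀ p, Measurable (B p)) (s : I → ℝ) (u : J → ℝ) (v : L → ℝ) (a : ℝ) (t : Fin d × Cell I J L) :
    Measurable (Wg B s u v a t) := by
  have m : ∀ (p : ℝ × ℝ) (l : Fin d), Measurable fun ω => B p ω l := fun p l =>
    (measurable_pi_apply l).comp (hB p)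
  obtain ⟨l, c | c⟩ := t
  · exact (m _ l).sub (m _ l)
  · exact (m _ l).sub (m _ l)

private lemma k2_vec {d : ℕ} {Ω I J L : Type} [MeasurableSpace Ω] (W : Fin d × Cell I J L → Ω → ℝ)
    (hW : ∀ t, Measurable (W t)) : Measurable (vec W) := by
  refine measurable_pi_lambda _ fun c => measurable_pi_lambda _ fun l => hW (l, c)

private lemma k2_inj {I J L : Type} (s : I → ℝ) (u : J → ℝ) (v : L → ℝ) (a : ℝ) (hs : Function.Injective s)
    (hu : Function.Injective u) (hv : Function.Injective v) : Function.Injective (k2pt s u v a) := by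
  rintro ⟨i, j, k⟩ ⟨i', j', k'⟩ h
  simp only [k2pt, Prod.mk.injEq] at h
  obtain ⟨h1, h2, h3⟩ := h
  rw [hs h1, hu (by linarith : u j = u j'), hv (by linarith : v k = v k')]

private lemma k2_r1 {I J L : Type} (s : I → ℝ) (u : J → ℝ) (v : L → ℝ) (a : ℝ) (r r' : I × J × L) :
    r1 (k2pt s u v a r) (k2pt s u v a r') = rg s u v r r' := by
  simp only [r1, k2pt, rg]
  rw [show a - v r.2.2 - (a - v r'.2.2) = -(v r.2.2 - v r'.2.2) by ring, abs_neg,
    show a + u r.2.1 - (a + u r'.2.1) = u r.2.1 - u r'.2.1 by ring]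
  ring

theorem T_KEY2 (hKEY : P_KEY) (hSH : P_SH) : P_KEY2 := by
  classical
  intro d η K a M hη hM
  obtain ⟨C, ε₀, hC, hε₀, H⟩ := hKEY d η K M hη hM
  refine ⟨C, ε₀, hC, hε₀, ?_⟩
  intro Ω _ P B hB ε hε hε1 F hF
  haveI := hB.prob
  rcases F.eq_empty_or_nonempty with rfl | ⟨x₀, hx₀⟩
  · refine ⟨fun _ => 0, fun _ => le_rfl, ?_, ?_⟩
    · simp
    · simp
  have hFx : ∀ x ∈ F, x ∈ Box η K a := fun x hx => hF (by exact_mod_cast hx)
  have ha : 0 ≤ a := by
    have := hFx x₀ hx₀
    simp only [Box, Set.mem_setOf_eq] at this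
    linarith
  -- the grid
  let I : Type := ↥(F.image fun x => x.1)
  let J : Type := ↥(F.image fun x => x.2.2 - a)
  let L : Type := ↥(F.image fun x => a - x.2.1)
  let s : I → ℝ := Subtype.val
  let u : J → ℝ := Subtype.val
  let v : L → ℝ := Subtype.val
  have hs : StrictMono s := fun x y h => h
  have hu : StrictMono u := fun x y h => h
  have hv : StrictMono v := fun x y h => h
  have Vs : Val η K s := by
    rintro ⟨i, hi⟩
    obtain ⟨x, hx, rfl⟩ := Finset.mem_image.1 hi
    have := hFx x hx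
    simp only [Box, Set.mem_setOf_eq] at this
    exact ⟨this.1, this.2.1⟩
  have Vu : Val η K u := by
    rintro ⟨i, hi⟩
    obtain ⟨x, hx, rfl⟩ := Finset.mem_image.1 hi
    have := hFx x hx
    simp only [Box, Set.mem_setOf_eq] at this
    show η ≤ x.2.2 - a ∧ x.2.2 - a ≤ K
    constructor <;> linarith
  have Vv : Val η K v := by
    rintro ⟨i, hi⟩
    obtain ⟨x, hx, rfl⟩ := Finset.mem_image.1 hi
    have := hFx x hx
    simp only [Box, Set.mem_setOf_eq] at this
    show η ≤ a - x.2.1 ∧ a - x.2.1 ≤ K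
    constructor <;> linarith
  have va : ∀ k, v k ≤ a := by
    rintro ⟨i, hi⟩
    obtain ⟨x, hx, rfl⟩ := Finset.mem_image.1 hi
    have := hFx x hx
    simp only [Box, Set.mem_setOf_eq] at this
    show a - x.2.1 ≤ a
    linarith
  let W := Wg B s u v a
  have hW : ∀ t, Measurable (W t) := k2_W B hB.meas s u v a
  have hCK : CharKernel W P (gridK s u v) := hSH d Ω P B hB I J L s u v a ha (fun i => by have := Vs i; linarith [this.1])
    (fun i => by have := Vu i; linarith [this.1]) (fun i => ⟨by have := Vv i; linarith [this.1], va i⟩)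
  let pt := k2pt s u v a
  have hpt : Function.Injective pt := k2_inj s u v a hs.injective hu.injective hv.injective
  have hsurj : ∀ x ∈ F, ∃ r : I × J × L, pt r = x := by
    intro x hx
    refine ⟨(⟨x.1, Finset.mem_image.2 ⟨x, hx, rfl⟩⟩, ⟨x.2.2 - a, Finset.mem_image.2 ⟨x, hx, rfl⟩⟩,
      ⟨a - x.2.1, Finset.mem_image.2 ⟨x, hx, rfl⟩⟩), ?_⟩
    show ((x.1, a - (a - x.2.1), a + (x.2.2 - a)) : ℝ × ℝ × ℝ) = x
    rw [sub_sub_cancel, add_sub_cancel]
  let e : I × J × L ≃ Fin (Fintype.card (I × J × L)) := Fintype.equivFin _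
  let D : I × J × L → Set (Cell I J L → Fin d → ℝ) := fun r =>
    {y | pt r ∈ F ∧ y ∈ Near ε M r ∧ ∀ r', e r' < e r → pt r' ∈ F → y ∉ Near ε M r'}
  have hDm : ∀ r, MeasurableSet (D r) := by
    intro r
    have e1 : D r = {_y | pt r ∈ F} ∩ (Near ε M r ∩ ⋂ r' : I × J × L, ⋂ _ : e r' < e r, ⋂ _ : pt r' ∈ F,
        (Near ε M r')ᶜ) := by
      ext y
      simp [D]
    rw [e1]
    refine (MeasurableSet.const _).inter ((k2_meas ε M r).inter ?_)
    refine MeasurableSet.iInter fun r' => MeasurableSet.iInter fun _ => MeasurableSet.iInter fun _ =>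
      (k2_meas ε M r').compl
  have hDd : Pairwise (Function.onFun Disjoint D) := by
    have aux : ∀ r r', e r < e r' → Disjoint (D r) (D r') := by
      intro r r' h
      rw [Set.disjoint_left]
      rintro y ⟨h1, h2, _⟩ ⟨_, _, h5⟩
      exact h5 r h h1 h2
    intro r r' hrr
    rcases lt_trichotomy (e r) (e r') with h | h | h
    · exact aux r r' h
    · exact absurd (e.injective h) hrr
    · exact (aux r' r h).symm
  have hDn : ∀ r, D r ⊆ Near ε M r := fun r y hy => hy.2.1
  have main := H I J L s u v hs hu hv Vs Vu Vv Ω P W hW hCK ε hε hε1 D hDm hDd hDn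
  -- the weights
  have hD0 : ∀ r, pt r ∉ F → pr P W (D r) = 0 := by
    intro r hr
    have : {ω | vec W ω ∈ D r} = ∅ := by
      ext ω
      simp only [D, Set.mem_setOf_eq, Set.mem_empty_iff_false, iff_false]
      exact fun h => hr h.1
    unfold pr
    rw [this]
    simp
  let h : ℝ × ℝ × ℝ → ℝ := fun x => ∑ r, if pt r = x then pr P W (D r) else 0
  have hh : ∀ r, h (pt r) = pr P W (D r) := by
    intro r
    show ∑ r', (if pt r' = pt r then pr P W (D r') else 0) = _
    rw [Finset.sum_eq_single r]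
    · simp
    · intro b _ hb
      rw [if_neg]
      exact fun h => hb (hpt h)
    · intro h
      exact absurd (Finset.mem_univ r) h
  have hFi : F = (univ.filter fun r => pt r ∈ F).image pt := by
    ext x
    simp only [Finset.mem_image, Finset.mem_filter, Finset.mem_univ, true_and]
    constructor
    · intro hx
      obtain ⟨r, rfl⟩ := hsurj x hx
      exact ⟨r, hx, rfl⟩
    · rintro ⟨r, hr, rfl⟩
      exact hr
  have hsum : ∀ φ : ℝ × ℝ × ℝ → ℝ, ∑ x ∈ F, φ x = ∑ r ∈ univ.filter (fun r => pt r ∈ F), φ (pt r) := by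
    intro φ
    conv_lhs => rw [hFi]
    rw [Finset.sum_image fun r _ r' _ h => hpt h]
  have hsum1 : ∑ x ∈ F, h x = ∑ r, pr P W (D r) := by
    rw [hsum h, Finset.sum_filter]
    refine Finset.sum_congr rfl fun r _ => ?_
    split_ifs with h1
    · exact hh r
    · exact (hD0 r h1).symm
  have hsum2 : ∑ x ∈ F, ∑ y ∈ F, h x * h y * ker d ε (r1 x y) =
      ∑ r, ∑ r', pr P W (D r) * pr P W (D r') * ker d ε (rg s u v r r') := by
    rw [hsum, Finset.sum_filter]
    refine Finset.sum_congr rfl fun r _ => ?_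
    split_ifs with h1
    · rw [hsum, Finset.sum_filter]
      refine Finset.sum_congr rfl fun r' _ => ?_
      split_ifs with h2
      · rw [hh, hh]
        congr 2
        exact k2_r1 s u v a r r'
      · rw [hD0 r' h2]
        ring
    · rw [hD0 r h1]
      simp
  refine ⟨h, ?_, ?_, ?_⟩
  · intro x
    refine Finset.sum_nonneg fun r _ => ?_
    split_ifs
    · exact ENNReal.toReal_nonneg
    · exact le_rfl
  · rw [hsum1]
    have hvm : Measurable (vec W) := k2_vec W hW
    have hset : {ω | ∃ x ∈ F, NearB B a ε M x ω} = ⋃ r, {ω | vec W ω ∈ D r} := by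
      ext ω
      simp only [Set.mem_setOf_eq, Set.mem_iUnion]
      constructor
      · rintro ⟨x, hx, hn⟩
        obtain ⟨r, rfl⟩ := hsurj x hx
        -- take the first one
        let S : Finset (I × J × L) := univ.filter fun r' => pt r' ∈ F ∧ vec W ω ∈ Near ε M r'
        have hS : S.Nonempty := ⟨r, by
          simp only [S, Finset.mem_filter, Finset.mem_univ, true_and]
          exact ⟨hx, (k2_near B s u v a ε M r ω).2 hn⟩⟩
        obtain ⟨r₁, hr₁, hmin⟩ := Finset.exists_min_image S e hS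
        simp only [S, Finset.mem_filter, Finset.mem_univ, true_and] at hr₁ hmin
        refine ⟨r₁, hr₁.1, hr₁.2, fun r' hr' hF' hN => ?_⟩
        exact absurd (hmin r' ⟨hF', hN⟩) (not_le.2 hr')
      · rintro ⟨r, h1, h2, _⟩
        exact ⟨pt r, h1, (k2_near B s u v a ε M r ω).1 h2⟩
    have hU : P (⋃ r, {ω | vec W ω ∈ D r}) = ∑' r, P {ω | vec W ω ∈ D r} :=
      measure_iUnion (fun r r' hrr => Disjoint.preimage (vec W) (hDd hrr)) (fun r => hvm (hDm r))
    rw [hset, hU, tsum_fintype, ENNReal.toReal_sum fun r _ => measure_ne_top _ _]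
    rfl
  · rw [hsum1, hsum2]
    exact main

end Pool.Agent.T2H03.DS
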