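import Pool.Agent.T2H03.DS.Stm

/-! # Package LAW: the characteristic functions determine the joint law -/

set_option autoImplicit false

namespace Pool.Agent.T2H03.DS

open MeasureTheory ProbabilityTheory Finset Filter Topology Pool.Agent.Helper41
open scoped ENNReal NNReal

namespace LAW

/-- a continuous linear functional on `T → ℝ` written over `Fin n` -/
lemma dual_eq {T : Type} [Fintype T] (L : (T → ℝ) →L[ℝ] ℝ) (x : T → ℝ) :
    L x = ∑ i : Fin (Fintype.card T), (open Classical in L (Pi.single ((Fintype.equivFin T).symm i) 1)) *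
      x ((Fintype.equivFin T).symm i) := by
  classical
  have h1 : x = ∑ t, x t • (Pi.single t (1 : ℝ) : T → ℝ) := by
    funext s
    simp [Finset.sum_apply, Pi.single_apply]
  have h2 : L x = ∑ t, L (Pi.single t 1) * x t := by
    conv_lhs => rw [h1]
    rw [map_sum]
    refine Finset.sum_congr rfl fun t _ => ?_
    rw [map_smul, smul_eq_mul, mul_comm]
  rw [h2]
  rw [← Equiv.sum_comp (Fintype.equivFin T).symm (fun t => L (Pi.single t 1) * x t)]

end LAW

theorem T_LAW : P_LAW := by
  intro Ω Ω' _ _ P P' _ _ T _ X X' K hX hX' h h'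
  have hm : Measurable (fun ω t => X t ω) := measurable_pi_lambda _ hX
  have hm' : Measurable (fun ω t => X' t ω) := measurable_pi_lambda _ hX'
  have : IsProbabilityMeasure (P.map (fun ω t => X t ω)) := Measure.isProbabilityMeasure_map hm.aemeasurable
  have : IsProbabilityMeasure (P'.map (fun ω t => X' t ω)) := Measure.isProbabilityMeasure_map hm'.aemeasurable
  apply Measure.ext_of_charFunDual
  ext L
  rw [charFunDual_apply, charFunDual_apply, integral_map hm.aemeasurable (by fun_prop),
    integral_map hm'.aemeasurable (by fun_prop)]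
  have e1 := h _ (fun i : Fin (Fintype.card T) => (Fintype.equivFin T).symm i)
    (fun i => (open Classical in L (Pi.single ((Fintype.equivFin T).symm i) 1)))
  have e2 := h' _ (fun i : Fin (Fintype.card T) => (Fintype.equivFin T).symm i)
    (fun i => (open Classical in L (Pi.single ((Fintype.equivFin T).symm i) 1)))
  rw [← e2] at e1
  have f1 : ∀ ω, Complex.exp ((L (fun t => X t ω) : ℂ) * Complex.I) = Complex.exp (Complex.I *
      ((∑ i : Fin (Fintype.card T), (open Classical in L (Pi.single ((Fintype.equivFin T).symm i) 1)) *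
        X ((Fintype.equivFin T).symm i) ω : ℝ) : ℂ)) := by
    intro ω
    rw [mul_comm, LAW.dual_eq L]
  have f2 : ∀ ω, Complex.exp ((L (fun t => X' t ω) : ℂ) * Complex.I) = Complex.exp (Complex.I *
      ((∑ i : Fin (Fintype.card T), (open Classical in L (Pi.single ((Fintype.equivFin T).symm i) 1)) *
        X' ((Fintype.equivFin T).symm i) ω : ℝ) : ℂ)) := by
    intro ω
    rw [mul_comm, LAW.dual_eq L]
  simp_rw [f1, f2]
  exact e1

end Pool.Agent.T2H03.DS
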