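import Pool.Agent.T2H03.DS.Stm

/-! # Package LIM: weak limit of the discrete measures -/

set_option autoImplicit false

namespace Pool.Agent.T2H03.DS

open MeasureTheory ProbabilityTheory Finset Filter Topology Pool.Agent.Helper41
open scoped ENNReal NNReal

namespace PkgLIM

lemma r1_nonneg (x y : ℝ × ℝ × ℝ) : 0 ≤ r1 x y := by unfold r1; positivity

lemma r1_cont : Continuous fun z : (ℝ × ℝ × ℝ) × (ℝ × ℝ × ℝ) => r1 z.1 z.2 := by
  unfold r1; fun_prop

lemma ker_nonneg (d : ℕ) {η : ℝ} (hη : 0 < η) (r : ℝ) : 0 ≤ ker d η r := by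
  unfold ker; positivity

lemma ker_cont (d : ℕ) {η : ℝ} (hη : 0 < η) : Continuous fun r : ℝ => ker d η r := by
  unfold ker
  refine Continuous.pow (Continuous.inv₀ (by fun_prop) fun r => ?_) d
  have : 0 < max η (Real.sqrt r) := lt_max_of_lt_left hη
  exact this.ne'

lemma ker_anti (d : ℕ) {ε η : ℝ} (hε : 0 < ε) (h : ε ≤ η) (r : ℝ) : ker d η r ≤ ker d ε r := by
  unfold ker
  have : 0 < max ε (Real.sqrt r) := lt_max_of_lt_left hε
  exact pow_le_pow_left₀ (by positivity) (inv_anti₀ this (max_le_max_right _ h)) d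

lemma ker_le (d : ℕ) {η : ℝ} (hη : 0 < η) (r : ℝ) : ker d η r ≤ (η⁻¹) ^ d := by
  unfold ker
  exact pow_le_pow_left₀ (by positivity) (inv_anti₀ hη (le_max_left _ _)) d

/-- the kernel is the supremum of the truncated ones -/
lemma rK_le (d : ℕ) (x y : ℝ × ℝ × ℝ) :
    rK d x y ≤ ⨆ k : ℕ, ENNReal.ofReal (ker d (1 / ((k : ℝ) + 1)) (r1 x y)) := by
  have h0 := r1_nonneg x y
  rcases h0.eq_or_lt with h | h
  · rw [← h]
    unfold rK
    rw [← h, ENNReal.ofReal_zero]
    rcases Nat.eq_zero_or_pos d with rfl | hd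
    · refine le_iSup_of_le 0 ?_
      simp [ker]
    · have e : ∀ k : ℕ, ENNReal.ofReal (ker d (1 / ((k : ℝ) + 1)) 0) = ((k : ℝ≥0∞) + 1) ^ d := by
        intro k
        unfold ker
        rw [Real.sqrt_zero, max_eq_left (by positivity), one_div, inv_inv,
          ENNReal.ofReal_pow (by positivity)]
        congr 1
        rw [ENNReal.ofReal_add (by positivity) zero_le_one, ENNReal.ofReal_natCast,
          ENNReal.ofReal_one]
      simp_rw [e]
      have h1 : (⨆ k : ℕ, ((k : ℝ≥0∞) + 1) ^ d) = ⊤ := by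
        rw [eq_top_iff, ← ENNReal.iSup_natCast]
        refine iSup_mono fun k => ?_
        calc (k : ℝ≥0∞) ≤ (k : ℝ≥0∞) + 1 := le_self_add
          _ = ((k : ℝ≥0∞) + 1) ^ 1 := (pow_one _).symm
          _ ≤ ((k : ℝ≥0∞) + 1) ^ d := pow_le_pow_right₀ le_add_self hd
      rw [h1]
      exact le_top
  · obtain ⟨k, hk⟩ := exists_nat_one_div_lt (Real.sqrt_pos.2 h)
    refine le_iSup_of_le k ?_
    unfold rK ker
    rw [max_eq_right hk.le, inv_pow, ENNReal.ofReal_inv_of_pos (by positivity),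
      ENNReal.rpow_neg]
    refine le_of_eq ?_
    congr 1
    rw [ENNReal.ofReal_rpow_of_nonneg h.le (by positivity)]
    congr 1
    rw [Real.sqrt_eq_rpow, ← Real.rpow_natCast, ← Real.rpow_mul h.le]
    congr 1
    ring

lemma rK_meas (d : ℕ) : Measurable fun z : (ℝ × ℝ × ℝ) × (ℝ × ℝ × ℝ) => rK d z.1 z.2 := by
  unfold rK
  exact (ENNReal.measurable_ofReal.comp r1_cont.measurable).pow_const _

variable {G : Set (ℝ × ℝ × ℝ)}

/-- the discrete measure -/
noncomputable def dm (F : Finset (ℝ × ℝ × ℝ)) (hF : (F : Set (ℝ × ℝ × ℝ)) ⊆ G)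
    (w : ℝ × ℝ × ℝ → ℝ≥0∞) : Measure G :=
  ∑ x : {x // x ∈ F}, w x.1 • Measure.dirac (⟨x.1, hF x.2⟩ : G)

lemma dm_lint (F : Finset (ℝ × ℝ × ℝ)) (hF : (F : Set (ℝ × ℝ × ℝ)) ⊆ G)
    (w : ℝ × ℝ × ℝ → ℝ≥0∞) (f : ℝ × ℝ × ℝ → ℝ≥0∞) (hf : Measurable f) :
    ∫⁻ x, f (x : ℝ × ℝ × ℝ) ∂(dm F hF w) = ∑ x ∈ F, w x * f x := by
  unfold dm
  rw [lintegral_finsetSum_measure]
  have hf' : Measurable fun x : G => f (x : ℝ × ℝ × ℝ) := hf.comp measurable_subtype_coe
  simp_rw [lintegral_smul_measure, lintegral_dirac' _ hf']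
  rw [← Finset.sum_attach F]
  rfl

lemma dm_energy (d : ℕ) {C p ε η : ℝ} (hp : 0 < p) (hε : 0 < ε) (hη : ε ≤ η)
    (F : Finset (ℝ × ℝ × ℝ)) (hF : (F : Set (ℝ × ℝ × ℝ)) ⊆ G) (h : ℝ × ℝ × ℝ → ℝ)
    (hh : ∀ x, 0 ≤ h x) (hp1 : p ≤ ∑ x ∈ F, h x)
    (hE : ∑ x ∈ F, ∑ y ∈ F, h x * h y * ker d ε (r1 x y) ≤ C * ∑ x ∈ F, h x) :
    ∫⁻ x, ∫⁻ y, ENNReal.ofReal (ker d η (r1 (x : ℝ × ℝ × ℝ) (y : ℝ × ℝ × ℝ)))
      ∂(dm F hF fun x => ENNReal.ofReal (h x / ∑ x ∈ F, h x))
      ∂(dm F hF fun x => ENNReal.ofReal (h x / ∑ x ∈ F, h x)) ≤ ENNReal.ofReal (C / p) := by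
  set S : ℝ := ∑ x ∈ F, h x with hS
  have hS0 : 0 < S := hp.trans_le hp1
  have hη0 : 0 < η := hε.trans_le hη
  have hk : Continuous fun z : (ℝ × ℝ × ℝ) × (ℝ × ℝ × ℝ) => ker d η (r1 z.1 z.2) :=
    (ker_cont d hη0).comp r1_cont
  have e1 : ∀ x : ℝ × ℝ × ℝ, ∫⁻ y : G, ENNReal.ofReal (ker d η (r1 x (y : ℝ × ℝ × ℝ)))
      ∂(dm F hF fun x => ENNReal.ofReal (h x / S)) =
      ∑ y ∈ F, ENNReal.ofReal (h y / S) * ENNReal.ofReal (ker d η (r1 x y)) := by
    intro x
    exact dm_lint F hF _ (fun y => ENNReal.ofReal (ker d η (r1 x y)))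
      (ENNReal.measurable_ofReal.comp (hk.comp (Continuous.prodMk_right x)).measurable)
  simp_rw [e1]
  rw [dm_lint F hF _ (fun x => ∑ y ∈ F, ENNReal.ofReal (h y / S) * ENNReal.ofReal (ker d η (r1 x y)))
    (Finset.measurable_sum _ fun y _ => measurable_const.mul
      (ENNReal.measurable_ofReal.comp (hk.comp (Continuous.prodMk_left y)).measurable))]
  have hC : 0 ≤ C := by
    by_contra hC
    push Not at hC
    have h1 : C * S < 0 := mul_neg_of_neg_of_pos hC hS0
    have h2 : 0 ≤ ∑ x ∈ F, ∑ y ∈ F, h x * h y * ker d ε (r1 x y) :=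
      Finset.sum_nonneg fun x _ => Finset.sum_nonneg fun y _ =>
        mul_nonneg (mul_nonneg (hh x) (hh y)) (ker_nonneg d hε _)
    linarith
  calc ∑ x ∈ F, ENNReal.ofReal (h x / S) *
        ∑ y ∈ F, ENNReal.ofReal (h y / S) * ENNReal.ofReal (ker d η (r1 x y))
      = ENNReal.ofReal (∑ x ∈ F, ∑ y ∈ F, h x / S * (h y / S * ker d η (r1 x y))) := by
        rw [ENNReal.ofReal_sum_of_nonneg fun x _ => Finset.sum_nonneg fun y _ => ?_]
        · refine Finset.sum_congr rfl fun x _ => ?_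
          rw [ENNReal.ofReal_sum_of_nonneg fun y _ => ?_, Finset.mul_sum]
          · refine Finset.sum_congr rfl fun y _ => ?_
            rw [ENNReal.ofReal_mul (div_nonneg (hh x) hS0.le),
              ENNReal.ofReal_mul (div_nonneg (hh y) hS0.le)]
          · exact mul_nonneg (div_nonneg (hh x) hS0.le) (mul_nonneg (div_nonneg (hh y) hS0.le)
              (ker_nonneg d hη0 _))
        · exact mul_nonneg (div_nonneg (hh x) hS0.le) (mul_nonneg (div_nonneg (hh y) hS0.le)
            (ker_nonneg d hη0 _))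
    _ ≤ ENNReal.ofReal (C / p) := by
        refine ENNReal.ofReal_le_ofReal ?_
        calc ∑ x ∈ F, ∑ y ∈ F, h x / S * (h y / S * ker d η (r1 x y))
            ≤ ∑ x ∈ F, ∑ y ∈ F, (h x * h y * ker d ε (r1 x y)) / S ^ 2 := by
              refine Finset.sum_le_sum fun x _ => Finset.sum_le_sum fun y _ => ?_
              have h1 := ker_anti d hε hη (r1 x y)
              have h2 : h x / S * (h y / S * ker d η (r1 x y)) = h x * h y * ker d η (r1 x y) / S ^ 2 := by
                field_simp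
              rw [h2]
              exact div_le_div_of_nonneg_right
                (mul_le_mul_of_nonneg_left h1 (mul_nonneg (hh x) (hh y))) (by positivity)
          _ = (∑ x ∈ F, ∑ y ∈ F, h x * h y * ker d ε (r1 x y)) / S ^ 2 := by
              rw [Finset.sum_div]
              exact Finset.sum_congr rfl fun x _ => (Finset.sum_div _ _ _).symm
          _ ≤ (C * S) / S ^ 2 := div_le_div_of_nonneg_right hE (by positivity)
          _ = C / S := by field_simp
          _ ≤ C / p := div_le_div_of_nonneg_left hC hp hp1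

end PkgLIM

open PkgLIM in
theorem T_LIM : P_LIM := by
  intro d G hG C p ε₀ hp hε₀ H
  have hcomp : CompactSpace G := isCompact_iff_compactSpace.1 hG
  set ε : ℕ → ℝ := fun n => min ε₀ (1 / ((n : ℝ) + 1)) with hεdef
  have hε : ∀ n, 0 < ε n := fun n => lt_min hε₀ (by positivity)
  choose F h hF hh hp1 h1 hE using fun n : ℕ => H (ε n) (hε n) (min_le_left _ _)
  have hS : ∀ n, 0 < ∑ x ∈ F n, h n x := fun n => hp.trans_le (hp1 n)
  set w : ℕ → ℝ × ℝ × ℝ → ℝ≥0∞ := fun n x => ENNReal.ofReal (h n x / ∑ x ∈ F n, h n x) with hw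
  have hprob : ∀ n, IsProbabilityMeasure (dm (F n) (hF n) (w n)) := by
    intro n
    constructor
    rw [← lintegral_one]
    rw [dm_lint (F n) (hF n) (w n) (fun _ => 1) measurable_const]
    simp only [mul_one, hw]
    rw [← ENNReal.ofReal_sum_of_nonneg fun x _ => div_nonneg (hh n x) (hS n).le, ← Finset.sum_div,
      div_self (hS n).ne', ENNReal.ofReal_one]
  set μs : ℕ → ProbabilityMeasure G := fun n => ⟨dm (F n) (hF n) (w n), hprob n⟩ with hμs
  obtain ⟨μ, -, hμ⟩ := isCompact_univ.ultrafilter_le_nhds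
    (Ultrafilter.map μs (hyperfilter ℕ)) (by simp)
  have hμ' : Tendsto μs (hyperfilter ℕ : Filter ℕ) (𝓝 μ) := hμ
  have hpr : Tendsto (fun n => (μs n).prod (μs n)) (hyperfilter ℕ : Filter ℕ) (𝓝 (μ.prod μ)) :=
    ((ProbabilityMeasure.continuous_prod (α := G) (β := G)).tendsto (μ, μ)).comp
      (hμ'.prodMk_nhds hμ')
  have hbound : ∀ η : ℝ, 0 < η →
      ∫⁻ z : G × G, ENNReal.ofReal (ker d η (r1 (z.1 : ℝ × ℝ × ℝ) (z.2 : ℝ × ℝ × ℝ)))
        ∂((μ : Measure G).prod (μ : Measure G)) ≤ ENNReal.ofReal (C / p) := by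
    intro η hη
    have hk : Continuous fun z : G × G =>
        ker d η (r1 (z.1 : ℝ × ℝ × ℝ) (z.2 : ℝ × ℝ × ℝ)) :=
      (ker_cont d hη).comp (r1_cont.comp
        ((continuous_subtype_val.comp continuous_fst).prodMk
          (continuous_subtype_val.comp continuous_snd)))
    have hk' : Continuous fun z : G × G =>
        (ker d η (r1 (z.1 : ℝ × ℝ × ℝ) (z.2 : ℝ × ℝ × ℝ))).toNNReal :=
      continuous_real_toNNReal.comp hk
    have ht := (ProbabilityMeasure.tendsto_iff_forall_lintegral_tendsto.1 hpr)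
      (BoundedContinuousFunction.mkOfCompact ⟨_, hk'⟩)
    refine le_of_tendsto ht ?_
    have hev : ∀ᶠ n in (atTop : Filter ℕ), ε n ≤ η := by
      have h2 : Tendsto (fun n : ℕ => 1 / ((n : ℝ) + 1)) atTop (𝓝 0) :=
        tendsto_one_div_add_atTop_nhds_zero_nat
      filter_upwards [h2.eventually_le_const hη] with n hn
      exact (min_le_right _ _).trans hn
    filter_upwards [Nat.hyperfilter_le_atTop hev] with n hn
    have h3 := dm_energy d hp (hε n) hn (F n) (hF n) (h n) (hh n) (hp1 n) (hE n)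
    refine le_trans (le_of_eq ?_) h3
    change ∫⁻ z : G × G, ENNReal.ofReal (ker d η (r1 (z.1 : ℝ × ℝ × ℝ) (z.2 : ℝ × ℝ × ℝ)))
      ∂((dm (F n) (hF n) (w n)).prod (dm (F n) (hF n) (w n))) = _
    have hsf : SFinite (dm (F n) (hF n) (w n)) := by
      have := hprob n
      infer_instance
    exact lintegral_prod (fun z : G × G =>
      ENNReal.ofReal (ker d η (r1 (z.1 : ℝ × ℝ × ℝ) (z.2 : ℝ × ℝ × ℝ))))
      (ENNReal.measurable_ofReal.comp hk.measurable).aemeasurable
  have hprobμ : IsProbabilityMeasure (μ : Measure G) := inferInstance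
  refine ⟨(μ : Measure G).map Subtype.val,
    Measure.isProbabilityMeasure_map measurable_subtype_coe.aemeasurable, ?_, ?_⟩
  · rw [Measure.map_apply measurable_subtype_coe hG.measurableSet.compl]
    have : (Subtype.val : G → ℝ × ℝ × ℝ) ⁻¹' Gᶜ = ∅ := by
      ext x
      simp
    rw [this, measure_empty]
  · unfold energy
    have hrm := rK_meas d
    have hmap : ∫⁻ x, ∫⁻ y, rK d x y ∂((μ : Measure G).map Subtype.val)
        ∂((μ : Measure G).map Subtype.val) =
        ∫⁻ z : G × G, rK d (z.1 : ℝ × ℝ × ℝ) (z.2 : ℝ × ℝ × ℝ)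
          ∂((μ : Measure G).prod (μ : Measure G)) := by
      have hp' : IsProbabilityMeasure ((μ : Measure G).map Subtype.val) :=
        Measure.isProbabilityMeasure_map measurable_subtype_coe.aemeasurable
      rw [← lintegral_prod (fun z => rK d z.1 z.2) hrm.aemeasurable,
        Measure.map_prod_map _ _ measurable_subtype_coe measurable_subtype_coe,
        lintegral_map hrm (measurable_subtype_coe.prodMap measurable_subtype_coe)]
      rfl
    rw [hmap]
    refine lt_of_le_of_lt ?_ (ENNReal.ofReal_lt_top (r := C / p))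
    calc ∫⁻ z : G × G, rK d (z.1 : ℝ × ℝ × ℝ) (z.2 : ℝ × ℝ × ℝ)
          ∂((μ : Measure G).prod (μ : Measure G))
        ≤ ∫⁻ z : G × G, ⨆ k : ℕ, ENNReal.ofReal (ker d (1 / ((k : ℝ) + 1))
            (r1 (z.1 : ℝ × ℝ × ℝ) (z.2 : ℝ × ℝ × ℝ))) ∂((μ : Measure G).prod (μ : Measure G)) :=
          lintegral_mono fun z => rK_le d _ _
      _ = ⨆ k : ℕ, ∫⁻ z : G × G, ENNReal.ofReal (ker d (1 / ((k : ℝ) + 1))
            (r1 (z.1 : ℝ × ℝ × ℝ) (z.2 : ℝ × ℝ × ℝ))) ∂((μ : Measure G).prod (μ : Measure G)) := by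
          refine lintegral_iSup (fun k => ?_) ?_
          · exact ENNReal.measurable_ofReal.comp ((ker_cont d (by positivity)).comp (r1_cont.comp
              ((continuous_subtype_val.comp continuous_fst).prodMk
                (continuous_subtype_val.comp continuous_snd)))).measurable
          · intro k l hkl z
            refine ENNReal.ofReal_le_ofReal (ker_anti d (by positivity) ?_ _)
            have : (k : ℝ) ≤ l := by exact_mod_cast hkl
            exact one_div_le_one_div_of_le (by positivity) (by linarith)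
      _ ≤ ENNReal.ofReal (C / p) := iSup_le fun k => hbound _ (by positivity)

end Pool.Agent.T2H03.DS
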