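import Pool.Agent.T2H03.DS.Stm

/-! # Packages LIN, DIAG, NEST (helper74): Gaussian families -/

set_option autoImplicit false

namespace Pool.Agent.T2H03.DS

open MeasureTheory ProbabilityTheory Finset Filter Topology Pool.Agent.Helper41
open scoped ENNReal NNReal

namespace PkgLIN

theorem swap4 {A B C D : Type} [Fintype A] [Fintype B] [Fintype C] [Fintype D]
    (f : A → B → C → D → ℝ) :
    ∑ a, ∑ b, ∑ c, ∑ d, f a b c d = ∑ c, ∑ d, ∑ a, ∑ b, f a b c d := by
  have h1 : ∑ a, ∑ b, ∑ c, ∑ d, f a b c d =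
      ∑ p : A × B, ∑ r : C × D, f p.1 p.2 r.1 r.2 := by
    rw [Fintype.sum_prod_type]
    refine Finset.sum_congr rfl fun a _ => Finset.sum_congr rfl fun b _ => ?_
    rw [Fintype.sum_prod_type]
  have h2 : ∑ c, ∑ d, ∑ a, ∑ b, f a b c d =
      ∑ r : C × D, ∑ p : A × B, f p.1 p.2 r.1 r.2 := by
    rw [Fintype.sum_prod_type]
    refine Finset.sum_congr rfl fun a _ => Finset.sum_congr rfl fun b _ => ?_
    rw [Fintype.sum_prod_type]
  rw [h1, h2, Finset.sum_comm]

/-- the characteristic function of a finite family, indexed by the family -/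
theorem char_univ {Ω : Type} [MeasurableSpace Ω] {P : Measure Ω} {T : Type} [Fintype T]
    {X : T → Ω → ℝ} {K : T → T → ℝ} (h : CharKernel X P K) (b : T → ℝ) :
    ∫ ω, Complex.exp (Complex.I * ((∑ t, b t * X t ω : ℝ) : ℂ)) ∂P =
      Complex.exp (-(1 / 2 : ℂ) * ((∑ t, ∑ t', b t * b t' * K t t' : ℝ) : ℂ)) := by
  classical
  set e := Fintype.equivFin T
  have h1 := h (Fintype.card T) (fun i => e.symm i) (fun i => b (e.symm i))
  have e1 : ∀ ω, ∑ i, b (e.symm i) * X (e.symm i) ω = ∑ t, b t * X t ω := fun ω =>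
    e.symm.sum_comp (fun t => b t * X t ω)
  have e2 : ∑ i, ∑ j, b (e.symm i) * b (e.symm j) * K (e.symm i) (e.symm j) =
      ∑ t, ∑ t', b t * b t' * K t t' := by
    rw [← e.symm.sum_comp (fun t => ∑ t', b t * b t' * K t t')]
    exact Finset.sum_congr rfl fun i _ => e.symm.sum_comp (fun t' => b (e.symm i) * b t' * K _ t')
  simp_rw [e1] at h1
  rw [h1, e2]

/-- and conversely -/
theorem of_univ {Ω : Type} [MeasurableSpace Ω] {P : Measure Ω} {T : Type} [Fintype T]
    {X : T → Ω → ℝ} {K : T → T → ℝ}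
    (h : ∀ b : T → ℝ, ∫ ω, Complex.exp (Complex.I * ((∑ t, b t * X t ω : ℝ) : ℂ)) ∂P =
      Complex.exp (-(1 / 2 : ℂ) * ((∑ t, ∑ t', b t * b t' * K t t' : ℝ) : ℂ))) :
    CharKernel X P K := by
  classical
  intro n q a
  have h1 := h (fun t => ∑ i, if q i = t then a i else 0)
  have e1 : ∀ ω, ∑ t, (∑ i, if q i = t then a i else 0) * X t ω = ∑ i, a i * X (q i) ω := by
    intro ω
    simp_rw [Finset.sum_mul]
    rw [Finset.sum_comm]
    refine Finset.sum_congr rfl fun i _ => ?_
    simp only [ite_mul, zero_mul]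
    rw [Finset.sum_ite_eq]
    simp
  have e2 : ∑ t, ∑ t', (∑ i, if q i = t then a i else 0) * (∑ i, if q i = t' then a i else 0) *
      K t t' = ∑ i, ∑ j, a i * a j * K (q i) (q j) := by
    have h2 : ∀ t t', (∑ i, if q i = t then a i else 0) * (∑ i, if q i = t' then a i else 0) *
        K t t' = ∑ i, ∑ j, if q i = t then (if q j = t' then a i * a j * K t t' else 0) else 0 := by
      intro t t'
      rw [Finset.sum_mul_sum, Finset.sum_mul]
      refine Finset.sum_congr rfl fun i _ => ?_
      rw [Finset.sum_mul]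
      refine Finset.sum_congr rfl fun j _ => ?_
      split_ifs <;> ring
    simp_rw [h2]
    calc ∑ t, ∑ t', ∑ i, ∑ j, (if q i = t then (if q j = t' then a i * a j * K t t' else 0) else 0)
        = ∑ i, ∑ j, ∑ t, ∑ t',
          (if q i = t then (if q j = t' then a i * a j * K t t' else 0) else 0) := swap4 _
      _ = ∑ i, ∑ j, a i * a j * K (q i) (q j) := by
          refine Finset.sum_congr rfl fun i _ => Finset.sum_congr rfl fun j _ => ?_
          rw [Finset.sum_eq_single (q i)]
          · rw [Finset.sum_eq_single (q j)]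
            · simp
            · intro t' _ ht'
              rw [if_pos rfl, if_neg (Ne.symm ht')]
            · intro hh
              exact absurd (Finset.mem_univ _) hh
          · intro t _ ht
            exact Finset.sum_eq_zero fun t' _ => if_neg (Ne.symm ht)
          · intro hh
            exact absurd (Finset.mem_univ _) hh
  simp_rw [e1] at h1
  rw [h1, e2]

end PkgLIN

open PkgLIN in
theorem T_LIN : P_LIN := by
  classical
  intro Ω _ P T T' _ X K h M n q a
  have h1 := char_univ h (fun t => ∑ i, a i * M (q i) t)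
  have e1 : ∀ ω, ∑ t, (∑ i, a i * M (q i) t) * X t ω = ∑ i, a i * ∑ t, M (q i) t * X t ω := by
    intro ω
    simp_rw [Finset.sum_mul, Finset.mul_sum]
    rw [Finset.sum_comm]
    exact Finset.sum_congr rfl fun i _ => Finset.sum_congr rfl fun t _ => by ring
  have e2 : ∑ t, ∑ t', (∑ i, a i * M (q i) t) * (∑ i, a i * M (q i) t') * K t t' =
      ∑ i, ∑ j, a i * a j * ∑ t, ∑ t', M (q i) t * M (q j) t' * K t t' := by
    have h2 : ∀ t t', (∑ i, a i * M (q i) t) * (∑ i, a i * M (q i) t') * K t t' =
        ∑ i, ∑ j, a i * a j * (M (q i) t * M (q j) t' * K t t') := by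
      intro t t'
      rw [Finset.sum_mul_sum, Finset.sum_mul]
      refine Finset.sum_congr rfl fun i _ => ?_
      rw [Finset.sum_mul]
      exact Finset.sum_congr rfl fun j _ => by ring
    simp_rw [h2, Finset.mul_sum]
    exact swap4 _
  simp_rw [e1] at h1
  rw [h1, e2]

end Pool.Agent.T2H03.DS
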