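import Pool.Agent.T2H03.DS.Stm

/-! # LOW1: the Paley-Zygmund bound -/

set_option autoImplicit false

namespace Pool.Agent.T2H03.DS

open MeasureTheory ProbabilityTheory Finset Filter Topology Pool.Agent.Helper41
open scoped ENNReal NNReal

private lemma lw_cs {Ω : Type} [MeasurableSpace Ω] (P : Measure Ω) (J : Ω → ℝ≥0∞) (hJ : Measurable J) :
    (∫⁻ ω, J ω ∂P) ^ 2 ≤ (∫⁻ ω, J ω ^ 2 ∂P) * P {ω | J ω ≠ 0} := by
  have hA : MeasurableSet {ω | J ω ≠ 0} := hJ (measurableSet_singleton 0).compl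
  have h22 : Real.HolderConjugate 2 2 := by
    rw [Real.holderConjugate_iff]
    norm_num
  have h := ENNReal.lintegral_mul_le_Lp_mul_Lq P h22 (f := J) (g := Set.indicator {ω | J ω ≠ 0} 1) hJ.aemeasurable
    ((measurable_one.indicator hA).aemeasurable)
  have e1 : ∀ ω, (J * Set.indicator {ω | J ω ≠ 0} (1 : Ω → ℝ≥0∞)) ω = J ω := by
    intro ω
    rw [Pi.mul_apply]
    by_cases h0 : J ω = 0
    · simp [h0]
    · rw [Set.indicator_of_mem (show ω ∈ {ω | J ω ≠ 0} from h0)]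
      simp
  have e2 : ∀ ω, (Set.indicator {ω | J ω ≠ 0} (1 : Ω → ℝ≥0∞) ω) ^ (2 : ℝ) = Set.indicator {ω | J ω ≠ 0} 1 ω := by
    intro ω
    by_cases h0 : J ω = 0
    · have h' : ω ∉ {ω | J ω ≠ 0} := fun h' => h' h0
      rw [Set.indicator_of_notMem h']
      simp
    · rw [Set.indicator_of_mem (show ω ∈ {ω | J ω ≠ 0} from h0)]
      simp
  have e3 : ∀ ω, J ω ^ (2 : ℝ) = J ω ^ 2 := fun ω => by
    rw [← ENNReal.rpow_natCast]
    norm_num
  simp only [e1, e2, e3] at h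
  rw [lintegral_indicator_one hA] at h
  calc (∫⁻ ω, J ω ∂P) ^ 2 ≤ ((∫⁻ ω, J ω ^ 2 ∂P) ^ (1 / (2 : ℝ)) * P {ω | J ω ≠ 0} ^ (1 / (2 : ℝ))) ^ 2 := by
        gcongr
    _ = _ := by
        rw [mul_pow, ← ENNReal.rpow_natCast, ← ENNReal.rpow_natCast, ← ENNReal.rpow_mul, ← ENNReal.rpow_mul]
        norm_num

private lemma lw_ker {d : ℕ} {ε : ℝ} (hε : 0 < ε) (x y : ℝ × ℝ × ℝ) :
    ENNReal.ofReal (ker d ε (r1 x y)) ≤ rK d x y := by
  unfold rK ker
  have h0 : 0 ≤ r1 x y := by unfold r1; positivity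
  rcases Nat.eq_zero_or_pos d with rfl | hd
  · simp
  have hd' : (0 : ℝ) < d := by exact_mod_cast hd
  rcases h0.lt_or_eq with h | h
  · rw [ENNReal.ofReal_rpow_of_pos h]
    apply ENNReal.ofReal_le_ofReal
    have e : r1 x y ^ (-((d : ℝ) / 2)) = ((Real.sqrt (r1 x y))⁻¹) ^ d := by
      rw [Real.sqrt_eq_rpow, ← Real.rpow_neg h.le, ← Real.rpow_natCast, ← Real.rpow_mul h.le]
      congr 1
      ring
    rw [e]
    have hs : 0 < Real.sqrt (r1 x y) := Real.sqrt_pos.2 h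
    apply pow_le_pow_left₀ (by positivity)
    exact inv_anti₀ hs (le_max_right _ _)
  · rw [← h, ENNReal.ofReal_zero, ENNReal.zero_rpow_of_neg (by linarith)]
    exact le_top

/-- `dX` with the arguments moved to the quadrant -/
private noncomputable def lwf {d : ℕ} {Ω : Type} (B : ℝ × ℝ → Ω → (Fin d → ℝ)) (x : ℝ × ℝ × ℝ) (ω : Ω) (l : Fin d) :
    ℝ :=
  B (max x.1 0, max x.2.2 0) ω l - B (max x.1 0, max x.2.1 0) ω l

private lemma lwf_eq {d : ℕ} {Ω : Type} (B : ℝ × ℝ → Ω → (Fin d → ℝ)) {x : ℝ × ℝ × ℝ} (h1 : 0 ≤ x.1)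
    (h2 : 0 ≤ x.2.1) (h3 : 0 ≤ x.2.2) (ω : Ω) (l : Fin d) : lwf B x ω l = dX B x ω l := by
  unfold lwf dX
  rw [max_eq_left h1, max_eq_left h2, max_eq_left h3]

private lemma lwf_meas {d : ℕ} {Ω : Type} [MeasurableSpace Ω] (B : ℝ × ℝ → Ω → (Fin d → ℝ))
    (hm : ∀ p, Measurable (B p))
    (hc : ∀ ω, ContinuousOn (fun p => B p ω) (Set.Ici (0 : ℝ) ×ˢ Set.Ici (0 : ℝ))) (l : Fin d) :
    Measurable fun z : (ℝ × ℝ × ℝ) × Ω => lwf B z.1 z.2 l := by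
  have h : Measurable (Function.uncurry fun (x : ℝ × ℝ × ℝ) (ω : Ω) => lwf B x ω l) := by
    apply measurable_uncurry_of_continuous_of_measurable
    · intro ω
      have h1 : Continuous fun x : ℝ × ℝ × ℝ => B (max x.1 0, max x.2.2 0) ω :=
        (hc ω).comp_continuous (f := fun x : ℝ × ℝ × ℝ => (max x.1 0, max x.2.2 0)) (by fun_prop)
          (fun x => ⟨le_max_right x.1 0, le_max_right x.2.2 0⟩)
      have h2 : Continuous fun x : ℝ × ℝ × ℝ => B (max x.1 0, max x.2.1 0) ω :=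
        (hc ω).comp_continuous (f := fun x : ℝ × ℝ × ℝ => (max x.1 0, max x.2.1 0)) (by fun_prop)
          (fun x => ⟨le_max_right x.1 0, le_max_right x.2.1 0⟩)
      exact ((continuous_apply l).comp h1).sub ((continuous_apply l).comp h2)
    · intro x
      exact ((measurable_pi_apply l).comp (hm _)).sub ((measurable_pi_apply l).comp (hm _))
  exact h

private lemma lw_pair (hSM : P_SM) (hSH : P_SH) (d : ℕ) (η K : ℝ) (hη : 0 < η) :
    ∃ C c : ℝ, 0 < C ∧ 0 < c ∧ ∀ (a : ℝ) (Ω : Type) [MeasurableSpace Ω] (P : Measure Ω)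
      (B : ℝ × ℝ → Ω → (Fin d → ℝ)), Sheet d P B → ∀ x ∈ Box η K a, ∀ y ∈ Box η K a, ∀ ε : ℝ, 0 < ε → ε ≤ 1 →
        ENNReal.ofReal (c * ε ^ d) ≤ P {ω | ∀ l, |dX B x ω l| ≤ ε} ∧
        P {ω | ∀ l, |dX B x ω l| ≤ ε ∧ |dX B y ω l| ≤ ε} ≤
          ENNReal.ofReal (C * (ε ^ (2 * d) * ker d ε (r1 x y))) := by
  obtain ⟨C, c, hC, hc, H⟩ := hSM d η K hη
  refine ⟨C, c, hC, hc, ?_⟩
  intro a Ω _ P B hB x hx y hy ε hε hε1
  haveI := hB.prob
  simp only [Box, Set.mem_setOf_eq] at hx hy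
  obtain ⟨x1, x2, x3, x4, x5, x6⟩ := hx
  obtain ⟨y1, y2, y3, y4, y5, y6⟩ := hy
  let s : Fin 2 → ℝ := ![x.1, y.1]
  let u : Fin 2 → ℝ := ![x.2.2 - a, y.2.2 - a]
  let v : Fin 2 → ℝ := ![a - x.2.1, a - y.2.1]
  have Vs : Val η K s := by
    intro i
    fin_cases i
    · exact ⟨x1, x2⟩
    · exact ⟨y1, y2⟩
  have Vu : Val η K u := by
    intro i
    fin_cases i
    · show η ≤ x.2.2 - a ∧ x.2.2 - a ≤ K
      constructor <;> linarith
    · show η ≤ y.2.2 - a ∧ y.2.2 - a ≤ K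
      constructor <;> linarith
  have Vv : Val η K v := by
    intro i
    fin_cases i
    · show η ≤ a - x.2.1 ∧ a - x.2.1 ≤ K
      constructor <;> linarith
    · show η ≤ a - y.2.1 ∧ a - y.2.1 ≤ K
      constructor <;> linarith
  have va : ∀ i, v i ≤ a := by
    intro i
    fin_cases i
    · show a - x.2.1 ≤ a
      linarith
    · show a - y.2.1 ≤ a
      linarith
  have m : ∀ (p : ℝ × ℝ) (l : Fin d), Measurable fun ω => B p ω l := fun p l =>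
    (measurable_pi_apply l).comp (hB.meas p)
  have hW : ∀ t, Measurable (Wg B s u v a t) := by
    rintro ⟨l, c | c⟩
    · exact (m _ l).sub (m _ l)
    · exact (m _ l).sub (m _ l)
  have hCK : CharKernel (Wg B s u v a) P (gridK s u v) := hSH d Ω P B hB (Fin 2) (Fin 2) (Fin 2) s u v a
    (by linarith) (fun i => by have := Vs i; linarith [this.1])
    (fun i => by have := Vu i; linarith [this.1]) (fun i => ⟨by have := Vv i; linarith [this.1], va i⟩)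
  obtain ⟨H1, H2⟩ := H (Fin 2) (Fin 2) (Fin 2) s u v Vs Vu Vv Ω P (Wg B s u v a) hW hCK
  have ex : ∀ ω l, Xg (vec (Wg B s u v a) ω) (0, 0, 0) l = dX B x ω l := by
    intro ω l
    show B (x.1, a + (x.2.2 - a)) ω l - B (x.1, a) ω l + (B (x.1, a) ω l - B (x.1, a - (a - x.2.1)) ω l) =
      B (x.1, x.2.2) ω l - B (x.1, x.2.1) ω l
    rw [add_sub_cancel, sub_sub_cancel, sub_add_sub_cancel]
  have ey : ∀ ω l, Xg (vec (Wg B s u v a) ω) (1, 1, 1) l = dX B y ω l := by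
    intro ω l
    show B (y.1, a + (y.2.2 - a)) ω l - B (y.1, a) ω l + (B (y.1, a) ω l - B (y.1, a - (a - y.2.1)) ω l) =
      B (y.1, y.2.2) ω l - B (y.1, y.2.1) ω l
    rw [add_sub_cancel, sub_sub_cancel, sub_add_sub_cancel]
  have er : rg s u v (0, 0, 0) (1, 1, 1) = r1 x y := by
    show |x.1 - y.1| + |x.2.2 - a - (y.2.2 - a)| + |a - x.2.1 - (a - y.2.1)| =
      |x.1 - y.1| + |x.2.1 - y.2.1| + |x.2.2 - y.2.2|
    rw [show x.2.2 - a - (y.2.2 - a) = x.2.2 - y.2.2 by ring,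
      show a - x.2.1 - (a - y.2.1) = -(x.2.1 - y.2.1) by ring, abs_neg]
    ring
  have A1 := H1 ε hε hε1 (0, 0, 0)
  have A2 := H2 ε hε (0, 0, 0) (1, 1, 1)
  simp only [ex] at A1
  simp only [ex, ey, er] at A2
  exact ⟨A1, A2⟩

theorem T_LOW1 (hSM : P_SM) (hSH : P_SH) : P_LOW1 := by
  intro d Ω _ P B hB η K a G hη hG hGB hpos
  obtain ⟨μ, hμ, hμG, hE⟩ := hpos
  haveI := hB.prob
  obtain ⟨C, c, hC, hc, H⟩ := lw_pair hSM hSH d η K hη
  set E : ℝ := (energy (rK d) μ).toReal with hEdef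
  have hE0 : 0 ≤ E := ENNReal.toReal_nonneg
  have hEe : energy (rK d) μ = ENNReal.ofReal E := (ENNReal.ofReal_toReal hE.ne).symm
  refine ⟨c ^ 2 / (C * (E + 1)), by positivity, ?_⟩
  intro ε hε hε1
  let S : Set ((ℝ × ℝ × ℝ) × Ω) := {z | ∀ l, |lwf B z.1 z.2 l| ≤ ε}
  have hS : MeasurableSet S := by
    have e : S = ⋂ l, {z | |lwf B z.1 z.2 l| ≤ ε} := by
      ext z
      simp [S]
    rw [e]
    refine MeasurableSet.iInter fun l => measurableSet_le ?_ measurable_const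
    exact continuous_abs.measurable.comp (lwf_meas B hB.meas hB.call l)
  have hSx : ∀ x ∈ G, ∀ ω, (x, ω) ∈ S ↔ ∀ l, |dX B x ω l| ≤ ε := by
    intro x hx ω
    have hb := hGB hx
    simp only [Box, Set.mem_setOf_eq] at hb
    show (∀ l, |lwf B x ω l| ≤ ε) ↔ _
    simp only [lwf_eq B (by linarith [hb.1] : (0 : ℝ) ≤ x.1) (by linarith [hb.2.2.1] : (0 : ℝ) ≤ x.2.1)
      (by linarith [hb.2.2.1, hb.2.2.2.1, hb.2.2.2.2.1] : (0 : ℝ) ≤ x.2.2)]
  have hae : ∀ᵐ x ∂μ, x ∈ G := mem_ae_iff.2 hμG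
  let J : Ω → ℝ≥0∞ := fun ω => μ ((fun x => (x, ω)) ⁻¹' S)
  have hJ : Measurable J := measurable_measure_prodMk_right hS
  -- the first moment
  have h1 : ENNReal.ofReal (c * ε ^ d) ≤ ∫⁻ ω, J ω ∂P := by
    have e1 : ∫⁻ ω, J ω ∂P = ∫⁻ x, P (Prod.mk x ⁻¹' S) ∂μ := by
      rw [← Measure.prod_apply hS, Measure.prod_apply_symm hS]
    rw [e1]
    calc ENNReal.ofReal (c * ε ^ d) = ∫⁻ _x, ENNReal.ofReal (c * ε ^ d) ∂μ := by simp
      _ ≤ _ := by
          refine lintegral_mono_ae (hae.mono fun x hx => ?_)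
          refine (H a Ω P B hB.toSheet x (hGB hx) x (hGB hx) ε hε hε1).1.trans (le_of_eq ?_)
          congr 1
          ext ω
          exact (hSx x hx ω).symm
  -- the second moment
  let S2 : Set (((ℝ × ℝ × ℝ) × (ℝ × ℝ × ℝ)) × Ω) := {z | (z.1.1, z.2) ∈ S ∧ (z.1.2, z.2) ∈ S}
  have hS2 : MeasurableSet S2 := by
    have m1 : Measurable fun z : ((ℝ × ℝ × ℝ) × (ℝ × ℝ × ℝ)) × Ω => (z.1.1, z.2) := by fun_prop
    have m2 : Measurable fun z : ((ℝ × ℝ × ℝ) × (ℝ × ℝ × ℝ)) × Ω => (z.1.2, z.2) := by fun_prop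
    exact (m1 hS).inter (m2 hS)
  have h2 : ∫⁻ ω, J ω ^ 2 ∂P ≤ ENNReal.ofReal (C * ε ^ (2 * d)) * energy (rK d) μ := by
    have e1 : ∀ ω, J ω ^ 2 = (μ.prod μ) ((fun z => (z, ω)) ⁻¹' S2) := by
      intro ω
      have : (fun z => (z, ω)) ⁻¹' S2 = ((fun x => (x, ω)) ⁻¹' S) ×ˢ ((fun x => (x, ω)) ⁻¹' S) := by
        ext z
        rfl
      rw [this, Measure.prod_prod, sq]
    have e2 : ∫⁻ ω, J ω ^ 2 ∂P = ∫⁻ x, ∫⁻ y, P (Prod.mk (x, y) ⁻¹' S2) ∂μ ∂μ := by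
      simp only [e1]
      rw [← Measure.prod_apply_symm hS2, Measure.prod_apply hS2, lintegral_prod]
      exact (measurable_measure_prodMk_left hS2).aemeasurable
    rw [e2]
    unfold energy
    rw [← lintegral_const_mul' _ _ ENNReal.ofReal_ne_top]
    refine lintegral_mono_ae (hae.mono fun x hx => ?_)
    rw [← lintegral_const_mul' _ _ ENNReal.ofReal_ne_top]
    refine lintegral_mono_ae (hae.mono fun y hy => ?_)
    have h3 := (H a Ω P B hB.toSheet x (hGB hx) y (hGB hy) ε hε hε1).2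
    have e3 : Prod.mk (x, y) ⁻¹' S2 = {ω | ∀ l, |dX B x ω l| ≤ ε ∧ |dX B y ω l| ≤ ε} := by
      ext ω
      show ((x, ω) ∈ S ∧ (y, ω) ∈ S) ↔ ∀ l, |dX B x ω l| ≤ ε ∧ |dX B y ω l| ≤ ε
      rw [hSx x hx, hSx y hy, forall_and]
    rw [e3]
    refine h3.trans ?_
    rw [← mul_assoc, ENNReal.ofReal_mul (by positivity)]
    exact mul_le_mul_right (lw_ker hε x y) _
  -- Cauchy-Schwarz
  have h3 := lw_cs P J hJ
  have h4 : P {ω | J ω ≠ 0} ≤ P {ω | ∃ x ∈ G, ∀ l, |dX B x ω l| ≤ ε} := by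
    refine measure_mono fun ω hω => ?_
    have h5 : μ ((fun x => (x, ω)) ⁻¹' S) ≠ 0 := hω
    by_contra hne
    apply h5
    refine measure_mono_null ?_ hμG
    intro x hx hxG
    exact hne ⟨x, hxG, (hSx x hxG ω).1 hx⟩
  refine le_trans ?_ h4
  have h6 : (ENNReal.ofReal (c * ε ^ d)) ^ 2 ≤
      ENNReal.ofReal (C * ε ^ (2 * d)) * ENNReal.ofReal E * P {ω | J ω ≠ 0} := by
    rw [← hEe]
    calc (ENNReal.ofReal (c * ε ^ d)) ^ 2 ≤ (∫⁻ ω, J ω ∂P) ^ 2 := by gcongr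
      _ ≤ _ := h3
      _ ≤ _ := by gcongr
  set t : ℝ := (P {ω | J ω ≠ 0}).toReal with ht
  have ht0 : 0 ≤ t := ENNReal.toReal_nonneg
  have hPt : P {ω | J ω ≠ 0} = ENNReal.ofReal t := (ENNReal.ofReal_toReal (measure_ne_top _ _)).symm
  rw [hPt] at h6 ⊢
  rw [← ENNReal.ofReal_pow (by positivity), ← ENNReal.ofReal_mul (by positivity),
    ← ENNReal.ofReal_mul (by positivity), ENNReal.ofReal_le_ofReal_iff (by positivity)] at h6
  apply ENNReal.ofReal_le_ofReal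
  rw [div_le_iff₀ (by positivity)]
  have hεd : 0 < ε ^ (2 * d) := by positivity
  have h7 : c ^ 2 * ε ^ (2 * d) ≤ C * E * t * ε ^ (2 * d) := by
    calc c ^ 2 * ε ^ (2 * d) = (c * ε ^ d) ^ 2 := by ring
      _ ≤ _ := h6
      _ = _ := by ring
  have h8 : c ^ 2 ≤ C * E * t := le_of_mul_le_mul_right h7 hεd
  nlinarith [mul_nonneg hC.le ht0]

end Pool.Agent.T2H03.DS
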