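import Pool.Agent.T2H03.DS.Stm

/-! # Package LOW2 -/

set_option autoImplicit false

namespace Pool.Agent.T2H03.DS

open MeasureTheory ProbabilityTheory Finset Filter Topology Pool.Agent.Helper41
open scoped ENNReal NNReal

private theorem LOW2_cont {d : ℕ} {Ω : Type} [MeasurableSpace Ω] {P : Measure Ω}
    {B : ℝ × ℝ → Ω → (Fin d → ℝ)} (hB : CSheet d P B) {G : Set (ℝ × ℝ × ℝ)} (ω : Ω)
    (g : ℝ × ℝ × ℝ → ℝ × ℝ) (hg : Continuous g) (hG : ∀ x ∈ G, 0 ≤ (g x).1 ∧ 0 ≤ (g x).2) :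
    ContinuousOn (fun x => B (g x) ω) G :=
  (hB.call ω).comp hg.continuousOn fun x hx => ⟨(hG x hx).1, (hG x hx).2⟩

theorem T_LOW2 : P_LOW2 := by
  intro d Ω _ P B hB η K a G hη hGc hGB p hp h
  have := hB.prob
  have hp0 : 0 < ENNReal.ofReal p := ENNReal.ofReal_pos.2 hp
  have hGne : G.Nonempty := by
    have h1 := lt_of_lt_of_le hp0 (h 1 one_pos le_rfl)
    obtain ⟨ω, x, hx, -⟩ := nonempty_of_measure_ne_zero h1.ne'
    exact ⟨x, hx⟩
  have ha : 0 ≤ a := by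
    obtain ⟨x, hx⟩ := hGne
    obtain ⟨-, -, h1, h2, -⟩ := hGB hx
    linarith
  have hq : ∀ x ∈ G, 0 ≤ x.1 ∧ 0 ≤ x.2.1 ∧ 0 ≤ x.2.2 := by
    intro x hx
    obtain ⟨h1, -, h2, -, h3, -⟩ := hGB hx
    exact ⟨by linarith, by linarith, by linarith⟩
  have c1 : ∀ ω, ContinuousOn (fun x : ℝ × ℝ × ℝ => B (x.1, x.2.2) ω) G := fun ω =>
    LOW2_cont hB ω (fun x => (x.1, x.2.2)) (by fun_prop) fun x hx => ⟨(hq x hx).1, (hq x hx).2.2⟩
  have c3 : ∀ ω, ContinuousOn (fun x : ℝ × ℝ × ℝ => B (x.1, x.2.1) ω) G := fun ω =>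
    LOW2_cont hB ω (fun x => (x.1, x.2.1)) (by fun_prop) fun x hx => ⟨(hq x hx).1, (hq x hx).2.1⟩
  have c : ∀ ω, ContinuousOn (fun x : ℝ × ℝ × ℝ => ‖(fun l => dX B x ω l : Fin d → ℝ)‖) G :=
    fun ω => ((c1 ω).sub (c3 ω)).norm
  have : Nonempty G := hGne.to_subtype
  set u : ℕ → G := TopologicalSpace.denseSeq G with hu
  have hud : DenseRange u := TopologicalSpace.denseRange_denseSeq G
  set A : ℕ → Set Ω := fun n => {ω | ∃ k, ‖(fun l => dX B (u k : ℝ × ℝ × ℝ) ω l : Fin d → ℝ)‖ <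
    1 / ((n : ℝ) + 1)} with hA
  have hAm : ∀ n, MeasurableSet (A n) := by
    intro n
    have e : A n = ⋃ k, {ω | ‖(fun l => dX B (u k : ℝ × ℝ × ℝ) ω l : Fin d → ℝ)‖ <
        1 / ((n : ℝ) + 1)} := by
      ext ω
      simp [hA]
    rw [e]
    refine MeasurableSet.iUnion fun k => ?_
    have hm : Measurable fun ω => (fun l => dX B (u k : ℝ × ℝ × ℝ) ω l : Fin d → ℝ) :=
      (hB.meas _).sub (hB.meas _)
    exact measurableSet_lt hm.norm measurable_const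
  have hanti : Antitone A := by
    intro m n hmn ω hω
    obtain ⟨k, hk⟩ := hω
    refine ⟨k, hk.trans_le ?_⟩
    have : (m : ℝ) ≤ n := by exact_mod_cast hmn
    exact one_div_le_one_div_of_le (by positivity) (by linarith)
  have hAp : ∀ n, ENNReal.ofReal p ≤ P (A n) := by
    intro n
    have hε : (0 : ℝ) < 1 / ((n : ℝ) + 2) := by positivity
    have hε1 : 1 / ((n : ℝ) + 2) ≤ 1 := by
      rw [div_le_one (by positivity)]
      have : (0 : ℝ) ≤ n := Nat.cast_nonneg n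
      linarith
    refine (h _ hε hε1).trans (measure_mono fun ω hω => ?_)
    obtain ⟨x, hx, hxl⟩ := hω
    have hlt : ‖(fun l => dX B x ω l : Fin d → ℝ)‖ < 1 / ((n : ℝ) + 1) := by
      refine lt_of_le_of_lt ((pi_norm_le_iff_of_nonneg hε.le).2 fun l => ?_)
        (one_div_lt_one_div_of_lt (by positivity) (by linarith : (n : ℝ) + 1 < n + 2))
      simpa using hxl l
    have hf : Continuous fun y : G => ‖(fun l => dX B (y : ℝ × ℝ × ℝ) ω l : Fin d → ℝ)‖ :=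
      continuousOn_iff_continuous_domRestrict.1 (c ω)
    have hopen : IsOpen {y : G | ‖(fun l => dX B (y : ℝ × ℝ × ℝ) ω l : Fin d → ℝ)‖ <
        1 / ((n : ℝ) + 1)} := isOpen_lt hf continuous_const
    obtain ⟨k, hk⟩ := hud.exists_mem_open hopen ⟨⟨x, hx⟩, hlt⟩
    exact ⟨k, hk⟩
  have hlim : Tendsto (fun n => P (A n)) atTop (𝓝 (P (⋂ n, A n))) :=
    tendsto_measure_iInter_atTop (fun n => (hAm n).nullMeasurableSet) hanti
      ⟨0, measure_ne_top P _⟩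
  have hge : ENNReal.ofReal p ≤ P (⋂ n, A n) := ge_of_tendsto' hlim hAp
  refine lt_of_lt_of_le hp0 (hge.trans (measure_mono fun ω hω => ?_))
  rw [Set.mem_iInter] at hω
  obtain ⟨x, hx, hmin⟩ := hGc.exists_isMinOn hGne (c ω)
  refine ⟨x, hx, ?_⟩
  have h0 : ‖(fun l => dX B x ω l : Fin d → ℝ)‖ ≤ 0 := by
    refine le_of_forall_pos_le_add fun ε hε => ?_
    rw [zero_add]
    obtain ⟨n, hn⟩ := exists_nat_one_div_lt hε
    obtain ⟨k, hk⟩ := hω n
    exact ((isMinOn_iff.1 hmin _ (u k).2).trans hk.le).trans hn.le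
  exact norm_le_zero_iff.1 h0

end Pool.Agent.T2H03.DS
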