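import Pool.Agent.T2H03.DS.Stm

/-! # Package MODU -/

set_option autoImplicit false

namespace Pool.Agent.T2H03.DS

open MeasureTheory ProbabilityTheory Finset Filter Topology Pool.Agent.Helper41
open scoped ENNReal NNReal

private theorem MODU_cont {d : ℕ} {Ω : Type} [MeasurableSpace Ω] {P : Measure Ω}
    {B : ℝ × ℝ → Ω → (Fin d → ℝ)} (hB : CSheet d P B) {G : Set (ℝ × ℝ × ℝ)} (ω : Ω)
    (g : ℝ × ℝ × ℝ → ℝ × ℝ) (hg : Continuous g) (hG : ∀ x ∈ G, 0 ≤ (g x).1 ∧ 0 ≤ (g x).2) :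
    ContinuousOn (fun x => B (g x) ω) G :=
  (hB.call ω).comp hg.continuousOn fun x hx => ⟨(hG x hx).1, (hG x hx).2⟩

private theorem MODU_bdd {d : ℕ} {G : Set (ℝ × ℝ × ℝ)} (hGc : IsCompact G)
    (f : ℝ × ℝ × ℝ → Fin d → ℝ) (hf : ContinuousOn f G) : ∃ M : ℝ, ∀ x ∈ G, ∀ l, |f x l| ≤ M := by
  obtain ⟨M, hM⟩ := hGc.exists_bound_of_continuousOn hf
  exact ⟨M, fun x hx l => by
    have := (norm_le_pi_norm (f x) l).trans (hM x hx)
    simpa using this⟩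

theorem T_MODU : P_MODU := by
  intro d Ω _ P B hB η K a G hη hGc hGB hpos
  have := hB.prob
  -- `G` is not empty
  have hE : {ω | ∃ x ∈ G, dX B x ω = 0}.Nonempty := nonempty_of_measure_ne_zero hpos.ne'
  have hGne : G.Nonempty := by
    obtain ⟨ω, x, hx, -⟩ := hE
    exact ⟨x, hx⟩
  have ha : 0 ≤ a := by
    obtain ⟨x, hx⟩ := hGne
    obtain ⟨-, -, h1, h2, -⟩ := hGB hx
    linarith
  have hq : ∀ x ∈ G, 0 ≤ x.1 ∧ 0 ≤ x.2.1 ∧ 0 ≤ x.2.2 := by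
    intro x hx
    obtain ⟨h1, -, h2, -, h3, -⟩ := hGB hx
    exact ⟨by linarith, by linarith, by linarith⟩
  have c1 : ∀ ω, ContinuousOn (fun x : ℝ × ℝ × ℝ => B (x.1, x.2.2) ω) G := fun ω =>
    MODU_cont hB ω (fun x => (x.1, x.2.2)) (by fun_prop) fun x hx => ⟨(hq x hx).1, (hq x hx).2.2⟩
  have c2 : ∀ ω, ContinuousOn (fun x : ℝ × ℝ × ℝ => B (x.1, a) ω) G := fun ω =>
    MODU_cont hB ω (fun x => (x.1, a)) (by fun_prop) fun x hx => ⟨(hq x hx).1, ha⟩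
  have c3 : ∀ ω, ContinuousOn (fun x : ℝ × ℝ × ℝ => B (x.1, x.2.1) ω) G := fun ω =>
    MODU_cont hB ω (fun x => (x.1, x.2.1)) (by fun_prop) fun x hx => ⟨(hq x hx).1, (hq x hx).2.1⟩
  -- the parts are bounded
  set Ev : ℕ → Set Ω := fun M => {ω | (∃ x ∈ G, dX B x ω = 0) ∧ ∀ x ∈ G, ∀ l,
    |B (x.1, x.2.2) ω l - B (x.1, a) ω l| ≤ M ∧ |B (x.1, a) ω l - B (x.1, x.2.1) ω l| ≤ M} with hEv
  have hcov : {ω | ∃ x ∈ G, dX B x ω = 0} ⊆ ⋃ M, Ev M := by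
    intro ω hω
    obtain ⟨M₁, h1⟩ := MODU_bdd hGc (fun x l => B (x.1, x.2.2) ω l - B (x.1, a) ω l)
      ((c1 ω).sub (c2 ω))
    obtain ⟨M₂, h2⟩ := MODU_bdd hGc (fun x l => B (x.1, a) ω l - B (x.1, x.2.1) ω l)
      ((c2 ω).sub (c3 ω))
    obtain ⟨M, hM⟩ := exists_nat_ge (max M₁ M₂)
    refine Set.mem_iUnion.2 ⟨M, hω, fun x hx l => ⟨?_, ?_⟩⟩
    · exact (h1 x hx l).trans ((le_max_left _ _).trans hM)
    · exact (h2 x hx l).trans ((le_max_right _ _).trans hM)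
  obtain ⟨M, hM⟩ : ∃ M, 0 < P (Ev M) := by
    by_contra hcon
    push Not at hcon
    have h0 : P (⋃ M, Ev M) = 0 := measure_iUnion_null fun M => le_antisymm (hcon M) zero_le
    exact hpos.ne' (measure_mono_null hcov h0)
  have hfin : P (Ev M) ≠ ⊤ := measure_ne_top P _
  have hp0 : 0 < (P (Ev M)).toReal := ENNReal.toReal_pos hM.ne' hfin
  refine ⟨M, (P (Ev M)).toReal / 2, Nat.cast_nonneg _, by linarith, ?_⟩
  intro ε hε
  have : Nonempty G := hGne.to_subtype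
  set u : ℕ → G := TopologicalSpace.denseSeq G with hu
  have hud : DenseRange u := TopologicalSpace.denseRange_denseSeq G
  classical
  set F : ℕ → Finset (ℝ × ℝ × ℝ) := fun n => (Finset.range n).image fun k => (u k : ℝ × ℝ × ℝ) with hF
  have hFG : ∀ n, (F n : Set (ℝ × ℝ × ℝ)) ⊆ G := by
    intro n x hx
    rw [hF, Finset.mem_coe, Finset.mem_image] at hx
    obtain ⟨k, -, rfl⟩ := hx
    exact (u k).2
  set A : ℕ → Set Ω := fun n => {ω | ∃ x ∈ F n, NearB B a ε M x ω} with hA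
  have hmono : Monotone A := by
    intro m n hmn ω hω
    obtain ⟨x, hx, h⟩ := hω
    refine ⟨x, ?_, h⟩
    rw [hF, Finset.mem_image] at hx ⊢
    obtain ⟨k, hk, rfl⟩ := hx
    exact ⟨k, Finset.mem_range.2 (lt_of_lt_of_le (Finset.mem_range.1 hk) hmn), rfl⟩
  have hsub : Ev M ⊆ ⋃ n, A n := by
    intro ω hω
    obtain ⟨⟨x, hx, hx0⟩, hb⟩ := hω
    have hf : Continuous fun y : G => (fun l => dX B (y : ℝ × ℝ × ℝ) ω l : Fin d → ℝ) := by
      have := (c1 ω).sub (c3 ω)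
      exact continuousOn_iff_continuous_domRestrict.1 this
    have hopen : IsOpen ((fun y : G => (fun l => dX B (y : ℝ × ℝ × ℝ) ω l : Fin d → ℝ)) ⁻¹'
        Metric.ball 0 ε) := Metric.isOpen_ball.preimage hf
    have hxm : (⟨x, hx⟩ : G) ∈ ((fun y : G => (fun l => dX B (y : ℝ × ℝ × ℝ) ω l : Fin d → ℝ)) ⁻¹'
        Metric.ball 0 ε) := by
      show (fun l => dX B x ω l) ∈ Metric.ball (0 : Fin d → ℝ) ε
      have : (fun l => dX B x ω l) = 0 := hx0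
      rw [this]
      exact Metric.mem_ball_self hε
    obtain ⟨n, hn⟩ := hud.exists_mem_open hopen ⟨_, hxm⟩
    refine Set.mem_iUnion.2 ⟨n + 1, (u n : ℝ × ℝ × ℝ), ?_, fun l => ⟨?_, hb _ (u n).2 l⟩⟩
    · rw [hF, Finset.mem_image]
      exact ⟨n, Finset.mem_range.2 (Nat.lt_succ_self n), rfl⟩
    · have h1 : ‖(fun l => dX B (u n : ℝ × ℝ × ℝ) ω l : Fin d → ℝ)‖ < ε := by
        have := Metric.mem_ball.1 hn
        rwa [dist_zero_right] at this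
      have h2 := (norm_le_pi_norm (fun l => dX B (u n : ℝ × ℝ × ℝ) ω l) l).trans h1.le
      simpa using h2
  have hsup : P (Ev M) ≤ ⨆ n, P (A n) := by
    rw [← hmono.measure_iUnion]
    exact measure_mono hsub
  have hlt : ENNReal.ofReal ((P (Ev M)).toReal / 2) < ⨆ n, P (A n) := by
    refine lt_of_lt_of_le ?_ hsup
    rw [ENNReal.ofReal_lt_iff_lt_toReal (by linarith) hfin]
    linarith
  obtain ⟨n, hn⟩ := lt_iSup_iff.1 hlt
  refine ⟨F n, hFG n, ?_⟩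
  exact ((ENNReal.ofReal_lt_iff_lt_toReal (by linarith) (measure_ne_top P _)).1 hn).le

end Pool.Agent.T2H03.DS
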