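import Pool.Agent.T2H03.DS.T_LIN

/-! # Package NEST (helper74): coordinates of a nested product of Gaussians -/

set_option autoImplicit false

namespace Pool.Agent.T2H03.DS

open MeasureTheory ProbabilityTheory Finset Filter Topology Pool.Agent.Helper41
open scoped ENNReal NNReal

namespace PkgNEST

theorem one (v : ℝ≥0) (b : ℝ) :
    ∫ x, Complex.exp (Complex.I * ((b * x : ℝ) : ℂ)) ∂(gaussianReal 0 v) =
      Complex.exp (-(1 / 2 : ℂ) * ((b * b * v : ℝ) : ℂ)) := by
  have h := charFun_gaussianReal (μ := 0) (v := v) b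
  rw [charFun_apply_real] at h
  have e : (fun x : ℝ => Complex.exp (Complex.I * ((b * x : ℝ) : ℂ))) =
      fun x : ℝ => Complex.exp (b * x * Complex.I) := by
    funext x
    congr 1
    push_cast
    ring
  rw [e, h]
  congr 1
  push_cast
  ring

end PkgNEST

open PkgLIN PkgNEST in
theorem T_NEST : P_NEST := by
  classical
  intro d S _ v
  refine of_univ fun b => ?_
  have e1 : (fun x : S → Fin d → ℝ =>
      Complex.exp (Complex.I * ((∑ t : Fin d × S, b t * x t.2 t.1 : ℝ) : ℂ))) =
      fun x => ∏ c : S, (fun (c : S) (y : Fin d → ℝ) =>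
        ∏ l : Fin d, (fun (l : Fin d) (z : ℝ) => Complex.exp (Complex.I * ((b (l, c) * z : ℝ) : ℂ)))
          l (y l)) c (x c) := by
    funext x
    simp only
    rw [Finset.prod_comm]
    simp_rw [← Complex.exp_sum, ← Finset.mul_sum, ← Complex.ofReal_sum]
    rw [Fintype.sum_prod_type]
  rw [e1]
  refine (integral_fintype_prod_eq_prod (𝕜 := ℂ) (E := fun _ : S => Fin d → ℝ)
    (μ := fun c : S => Measure.pi fun _ : Fin d => gaussianReal 0 (v c))
    (fun (c : S) (y : Fin d → ℝ) =>
        ∏ l : Fin d, (fun (l : Fin d) (z : ℝ) => Complex.exp (Complex.I * ((b (l, c) * z : ℝ) : ℂ)))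
          l (y l))).trans ?_
  have e2 : ∀ c : S, ∫ y : Fin d → ℝ, ∏ l : Fin d,
      (fun (l : Fin d) (z : ℝ) => Complex.exp (Complex.I * ((b (l, c) * z : ℝ) : ℂ))) l (y l)
        ∂(Measure.pi fun _ : Fin d => gaussianReal 0 (v c)) =
      ∏ l : Fin d, Complex.exp (-(1 / 2 : ℂ) * ((b (l, c) * b (l, c) * v c : ℝ) : ℂ)) := by
    intro c
    refine (integral_fintype_prod_eq_prod (𝕜 := ℂ) (E := fun _ : Fin d => ℝ)
      (μ := fun _ : Fin d => gaussianReal 0 (v c))
      (fun (l : Fin d) (z : ℝ) => Complex.exp (Complex.I * ((b (l, c) * z : ℝ) : ℂ)))).trans ?_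
    exact Finset.prod_congr rfl fun l _ => one (v c) (b (l, c))
  simp_rw [e2]
  rw [Finset.prod_comm]
  simp_rw [← Complex.exp_sum, ← Finset.mul_sum, ← Complex.ofReal_sum]
  congr 3
  have e3 : ∀ t : Fin d × S, ∑ t', b t * b t' * dK (fun t : Fin d × S => (v t.2 : ℝ)) t t' =
      b t * b t * v t.2 := by
    intro t
    rw [Finset.sum_eq_single t]
    · unfold dK
      rw [if_pos rfl]
    · intro t' _ ht'
      unfold dK
      rw [if_neg (Ne.symm ht'), mul_zero]
    · intro h
      exact absurd (Finset.mem_univ _) h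
  simp_rw [e3]
  rw [Fintype.sum_prod_type]

end Pool.Agent.T2H03.DS
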