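import Pool.Agent.T2H03.DS.Stm

/-! # Package NORM -/

set_option autoImplicit false

namespace Pool.Agent.T2H03.DS

open MeasureTheory ProbabilityTheory Finset Filter Topology Pool.Agent.Helper41
open scoped ENNReal NNReal

namespace NORMp

lemma e3_le (x y : ℝ × ℝ × ℝ) : e3 x y ≤ r1 x y := by
  unfold e3 r1
  refine Real.sqrt_le_iff.2 ⟨by positivity, ?_⟩
  rw [← sq_abs (x.1 - y.1), ← sq_abs (x.2.1 - y.2.1), ← sq_abs (x.2.2 - y.2.2)]
  have h1 := abs_nonneg (x.1 - y.1)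
  have h2 := abs_nonneg (x.2.1 - y.2.1)
  have h3 := abs_nonneg (x.2.2 - y.2.2)
  nlinarith [mul_nonneg h1 h2, mul_nonneg h1 h3, mul_nonneg h2 h3]

lemma r1_le (x y : ℝ × ℝ × ℝ) : r1 x y ≤ Real.sqrt 3 * e3 x y := by
  unfold e3 r1
  rw [← Real.sqrt_mul (by norm_num)]
  refine Real.le_sqrt_of_sq_le ?_
  rw [← sq_abs (x.1 - y.1), ← sq_abs (x.2.1 - y.2.1), ← sq_abs (x.2.2 - y.2.2)]
  nlinarith [sq_nonneg (|x.1 - y.1| - |x.2.1 - y.2.1|), sq_nonneg (|x.1 - y.1| - |x.2.2 - y.2.2|),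
    sq_nonneg (|x.2.1 - y.2.1| - |x.2.2 - y.2.2|)]

lemma e3_nonneg (x y : ℝ × ℝ × ℝ) : 0 ≤ e3 x y := Real.sqrt_nonneg _

lemma r1_nonneg (x y : ℝ × ℝ × ℝ) : 0 ≤ r1 x y := by unfold r1; positivity

lemma kernels (d : ℕ) (hd : 1 ≤ d) : ∃ C : ℝ≥0∞, C ≠ ⊤ ∧ ∀ x y : ℝ × ℝ × ℝ,
    rK d x y ≤ U ((d : ℝ) / 2) (e3 x y) ∧ U ((d : ℝ) / 2) (e3 x y) ≤ C * rK d x y := by
  have hd' : (0 : ℝ) < (d : ℝ) / 2 := by
    have : (1 : ℝ) ≤ d := by exact_mod_cast hd
    linarith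
  refine ⟨ENNReal.ofReal (Real.sqrt 3 ^ ((d : ℝ) / 2)), ENNReal.ofReal_ne_top, fun x y => ?_⟩
  unfold rK U
  rw [if_neg (by linarith)]
  rcases (e3_nonneg x y).eq_or_lt with h0 | h0
  · have hr : r1 x y = 0 := by
      have := r1_le x y
      rw [← h0, mul_zero] at this
      exact le_antisymm this (r1_nonneg x y)
    rw [if_pos h0.symm, hr, ENNReal.ofReal_zero, ENNReal.zero_rpow_of_neg (by linarith)]
    refine ⟨le_rfl, ?_⟩
    rw [ENNReal.mul_top]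
    have : 0 < Real.sqrt 3 ^ ((d : ℝ) / 2) := by positivity
    exact (ENNReal.ofReal_pos.2 this).ne'
  · have hr : 0 < r1 x y := h0.trans_le (e3_le x y)
    rw [if_neg h0.ne', if_neg hd'.ne', ENNReal.ofReal_rpow_of_pos hr, ← ENNReal.ofReal_mul (by positivity)]
    constructor
    · apply ENNReal.ofReal_le_ofReal
      exact Real.rpow_le_rpow_of_nonpos h0 (e3_le x y) (by linarith)
    · apply ENNReal.ofReal_le_ofReal
      have h1 : Real.sqrt 3 ^ ((d : ℝ) / 2) * r1 x y ^ (-((d : ℝ) / 2)) = (r1 x y / Real.sqrt 3) ^ (-((d : ℝ) / 2)) := by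
        rw [Real.div_rpow hr.le (by positivity), Real.rpow_neg (Real.sqrt_nonneg 3), div_inv_eq_mul, mul_comm]
      rw [h1]
      refine Real.rpow_le_rpow_of_nonpos (by positivity) ?_ (by linarith)
      rw [div_le_iff₀ (by positivity), mul_comm]
      exact r1_le x y

end NORMp

open NORMp in
theorem T_NORM : P_NORM := by
  intro d hd A
  obtain ⟨C, hC, h⟩ := kernels d hd
  constructor
  · rintro ⟨μ, h1, h2, h3⟩
    refine ⟨μ, h1, h2, lt_of_le_of_lt ?_ h3⟩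
    unfold energy
    exact lintegral_mono fun x => lintegral_mono fun y => (h x y).1
  · rintro ⟨μ, h1, h2, h3⟩
    refine ⟨μ, h1, h2, ?_⟩
    have h4 : energy (fun x y => U ((d : ℝ) / 2) (e3 x y)) μ ≤ C * energy (rK d) μ := by
      unfold energy
      rw [← lintegral_const_mul' _ _ hC]
      refine lintegral_mono fun x => ?_
      rw [← lintegral_const_mul' _ _ hC]
      exact lintegral_mono fun y => (h x y).2
    exact lt_of_le_of_lt h4 (ENNReal.mul_lt_top hC.lt_top h3)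

end Pool.Agent.T2H03.DS
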