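import Pool.Agent.T2H03.DS.Stm

/-! # DS, package OOP: the energy inequality in one orthant -/

set_option autoImplicit false
set_option linter.unusedSectionVars false

namespace Pool.Agent.T2H03.DS

open MeasureTheory ProbabilityTheory Finset Filter Topology Pool.Agent.Helper41
open scoped ENNReal NNReal

namespace OOPp

section

variable {d : ℕ} {I J L : Type} [Fintype I] [LinearOrder I] [Fintype J] [LinearOrder J] [Fintype L] [LinearOrder L]

lemma meas_Yv (lam : I → ℝ) (kap : J → ℝ) (nu : L → ℝ) :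
    Measurable (Yv (d := d) lam kap nu) := by
  refine measurable_pi_lambda _ fun c => measurable_pi_lambda _ fun l => ?_
  rcases c with c | c <;> simp only [Yv] <;> fun_prop

lemma meas_Xg (r : I × J × L) (l : Fin d) : Measurable fun y : Cell I J L → Fin d → ℝ => Xg y r l := by
  unfold Xg; fun_prop

lemma meas_near2 (r : I × J × L) (δ : ℝ) :
    MeasurableSet {y : Cell I J L → Fin d → ℝ | ∀ l, |Xg y r l| ≤ δ} := by
  rw [Set.ofPred_forall]
  exact MeasurableSet.iInter fun l => measurableSet_le ((meas_Xg r l).abs) measurable_const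

lemma A0_mono : Monotone (A0 : I → Set (Cell I J L)) := by
  intro i i' h c hc
  rcases c with c | c
  · exact le_trans (b := i) hc h
  · exact le_trans (b := i) hc h

lemma A1_mono : Monotone (A1 : J → Set (Cell I J L)) := by
  intro i i' h c hc
  rcases c with c | c
  · exact le_trans (b := i) hc h
  · trivial

lemma A2_mono : Monotone (A2 : L → Set (Cell I J L)) := by
  intro i i' h c hc
  rcases c with c | c
  · trivial
  · exact le_trans (b := i) hc h

instance inst_gam (p : I → ℝ≥0) (q : J → ℝ≥0) (w : L → ℝ≥0) (c : Cell I J L) :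
    IsProbabilityMeasure (gam d p q w c) := by unfold gam; infer_instance

end

lemma ker_nonneg (d : ℕ) (ε ρ : ℝ) (hε : 0 < ε) : 0 ≤ ker d ε ρ := by
  unfold ker
  have : 0 < max ε (Real.sqrt ρ) := lt_of_lt_of_le hε (le_max_left _ _)
  positivity

lemma ker_two (d : ℕ) (ε ρ : ℝ) (hε : 0 < ε) : ker d (2 * ε) ρ ≤ ker d ε ρ := by
  unfold ker
  have h1 : 0 < max ε (Real.sqrt ρ) := lt_of_lt_of_le hε (le_max_left _ _)
  have h2 : max ε (Real.sqrt ρ) ≤ max (2 * ε) (Real.sqrt ρ) := max_le_max (by linarith) le_rfl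
  have h3 : (max (2 * ε) (Real.sqrt ρ))⁻¹ ≤ (max ε (Real.sqrt ρ))⁻¹ := inv_anti₀ h1 h2
  exact pow_le_pow_left₀ (by positivity) h3 d

end OOPp

open OOPp in
theorem T_OOP (hCAI : P_CAI) (hCHAIN : P_CHAIN) (hTR : P_TR) (hGCK : P_GCK) (hCB : P_CB) (hSM : P_SM) : P_OOP := by
  classical
  intro d η K M hη hM
  obtain ⟨c₁, ε₁, hc₁, hε₁, hCB⟩ := hCB d η K M hη hM
  obtain ⟨C₂, c₂, hC₂, hc₂, hSM⟩ := hSM d η K hη
  refine ⟨64 * (C₂ * 4 ^ d) / c₁ ^ 2, ε₁, by positivity, hε₁, ?_⟩
  intro I J L _ _ _ _ _ _ s u v hs hu hv vs vu vv Ω _ P _ W hW hchar ε hε hεle D hD hdisj hnear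
  have ps : ∀ i, 0 < s i := fun i => lt_of_lt_of_le hη (vs i).1
  have pu : ∀ i, 0 < u i := fun i => lt_of_lt_of_le hη (vu i).1
  have pv : ∀ i, 0 < v i := fun i => lt_of_lt_of_le hη (vv i).1
  obtain ⟨lam, p, hcs⟩ := hCHAIN I s ps hs
  obtain ⟨kap, q, hcu⟩ := hCHAIN J u pu hu
  obtain ⟨nu, w, hcv⟩ := hCHAIN L v pv hv
  set π : Measure (Cell I J L → Fin d → ℝ) := Measure.pi (gam d p q w) with hπ
  have hprob : IsProbabilityMeasure π := by rw [hπ]; infer_instance
  have htr : ∀ r, P {ω | vec W ω ∈ D r} = π {x | Yv lam kap nu x ∈ D r} := fun r =>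
    hTR d I J L s lam p u kap q v nu w hcs hcu hcv ps pu pv Ω P W hW hchar (D r) (hD r)
  set h : I × J × L → ℝ := fun r => pr P W (D r) with hh
  have h0 : ∀ r, 0 ≤ h r := fun r => ENNReal.toReal_nonneg
  have hofr : ∀ r, ENNReal.ofReal (h r) = π {x | Yv lam kap nu x ∈ D r} := by
    intro r
    rw [← htr r, hh]
    unfold pr
    exact ENNReal.ofReal_toReal (measure_ne_top _ _)
  set ind : I × J × L → (Cell I J L → Fin d → ℝ) → ℝ≥0∞ := fun r x =>
    if ∀ l, |Xg (Yv lam kap nu x) r l| ≤ 2 * ε then 1 else 0 with hind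
  have mset : ∀ r, MeasurableSet {x : Cell I J L → Fin d → ℝ | ∀ l, |Xg (Yv lam kap nu x) r l| ≤ 2 * ε} := fun r =>
    (meas_Yv lam kap nu) (meas_near2 r (2 * ε))
  have mind : ∀ r, Measurable (ind r) := fun r => Measurable.ite (mset r) measurable_const measurable_const
  set F : (Cell I J L → Fin d → ℝ) → ℝ≥0∞ := fun x => ∑ r, ENNReal.ofReal (h r) * ind r x with hF
  have mF : Measurable F := Finset.measurable_sum _ fun r _ => (mind r).const_mul _
  have ind1 : ∀ r x, ind r x ≤ 1 := fun r x => by simp only [hind]; split_ifs <;> simp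
  have hCAI' := hCAI (Cell I J L) (Fin d → ℝ) (gam d p q w) I J L A0 A1 A2 A0_mono A1_mono A2_mono F mF
    (∑ r, ENNReal.ofReal (h r)) (by simp [ENNReal.sum_eq_top]) (fun x => by
      refine sum_le_sum fun r _ => ?_
      calc ENNReal.ofReal (h r) * ind r x ≤ ENNReal.ofReal (h r) * 1 := by gcongr; exact ind1 r x
        _ = _ := mul_one _)
  set G : (Cell I J L → Fin d → ℝ) → ℝ≥0∞ := fun x =>
    (⨆ r : I × J × L, cond (gam d p q w) (A0 r.1 ∩ A1 r.2.1 ∩ A2 r.2.2) F x) with hG
  -- the lower bound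
  set g : I × J × L → ℝ := fun r0 => ∑ r ∈ univ.filter (fun r => r0 ≤ r), h r * ker d ε (rg s u v r0 r) with hg
  have hlow : ∀ r0, ∀ x, Yv lam kap nu x ∈ D r0 → ENNReal.ofReal (c₁ * ε ^ d * g r0) ≤ G x := by
    intro r0 x hx
    refine le_trans ?_ (le_iSup (fun r : I × J × L => cond (gam d p q w) (A0 r.1 ∩ A1 r.2.1 ∩ A2 r.2.2) F x) r0)
    change _ ≤ cond (gam d p q w) (As r0) F x
    have e : cond (gam d p q w) (As r0) F x =
        ∑ r, ENNReal.ofReal (h r) * cond (gam d p q w) (As r0) (ind r) x := by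
      unfold cond
      simp only [hF]
      have mg : Measurable fun y : Cell I J L → Fin d → ℝ => glue (As r0) x y := by
        refine measurable_pi_lambda _ fun c => ?_
        unfold glue
        by_cases hc : c ∈ As r0
        · simp only [hc, if_true]; exact measurable_const
        · simp only [hc, if_false]; exact measurable_pi_apply c
      have mi : ∀ r, Measurable fun y => ind r (glue (As r0) x y) := fun r => (mind r).comp mg
      rw [lintegral_finsetSum _ fun r _ => (mi r).const_mul _]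
      exact sum_congr rfl fun r _ => lintegral_const_mul _ (mi r)
    rw [e]
    calc ENNReal.ofReal (c₁ * ε ^ d * g r0)
        = ∑ r ∈ univ.filter (fun r => r0 ≤ r), ENNReal.ofReal (h r) *
            ENNReal.ofReal (c₁ * (ε ^ d * ker d ε (rg s u v r0 r))) := by
          rw [hg, mul_sum, ENNReal.ofReal_sum_of_nonneg]
          · refine sum_congr rfl fun r _ => ?_
            rw [← ENNReal.ofReal_mul (h0 r)]
            congr 1; ring
          · intro r _
            have := ker_nonneg d ε (rg s u v r0 r) hε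
            have := h0 r
            positivity
      _ ≤ ∑ r ∈ univ.filter (fun r => r0 ≤ r), ENNReal.ofReal (h r) * cond (gam d p q w) (As r0) (ind r) x := by
          refine sum_le_sum fun r hr => ?_
          have hr' : r0 ≤ r := (mem_filter.1 hr).2
          gcongr
          have := hCB I J L s lam p u kap q v nu w hcs hcu hcv vs vu vv ε hε hεle r0 r hr' x (hnear r0 hx)
          convert this using 2
      _ ≤ _ := sum_le_sum_of_subset (filter_subset _ _)
  have hLHS : ∑ r0, ENNReal.ofReal (h r0) * ENNReal.ofReal (c₁ * ε ^ d * g r0) ^ 2 ≤ ∫⁻ x, G x ^ 2 ∂π := by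
    have hm : ∀ r0, MeasurableSet {x | Yv lam kap nu x ∈ D r0} := fun r0 => (meas_Yv lam kap nu) (hD r0)
    have hd : Pairwise (Function.onFun Disjoint fun r0 => {x | Yv lam kap nu x ∈ D r0}) := by
      intro r r' hr
      exact Disjoint.preimage _ (hdisj hr)
    calc ∑ r0, ENNReal.ofReal (h r0) * ENNReal.ofReal (c₁ * ε ^ d * g r0) ^ 2
        = ∑ r0, ∫⁻ x in {x | Yv lam kap nu x ∈ D r0}, ENNReal.ofReal (c₁ * ε ^ d * g r0) ^ 2 ∂π := by
          refine sum_congr rfl fun r0 _ => ?_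
          rw [setLIntegral_const, hofr r0, mul_comm]
      _ ≤ ∑ r0, ∫⁻ x in {x | Yv lam kap nu x ∈ D r0}, G x ^ 2 ∂π := by
          refine sum_le_sum fun r0 _ => ?_
          refine setLIntegral_mono' (hm r0) fun x hx => ?_
          exact pow_le_pow_left₀ (zero_le) (hlow r0 x hx) 2
      _ = ∫⁻ x in ⋃ r0, {x | Yv lam kap nu x ∈ D r0}, G x ^ 2 ∂π := by
          rw [lintegral_iUnion hm hd, tsum_fintype]
      _ ≤ _ := setLIntegral_le_lintegral _ _
  have hRHS : ∫⁻ x, F x ^ 2 ∂π ≤ ∑ r, ∑ r', ENNReal.ofReal (h r) * ENNReal.ofReal (h r') *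
      ENNReal.ofReal (C₂ * 4 ^ d * (ε ^ (2 * d) * ker d ε (rg s u v r r'))) := by
    have hcW : CharKernel (fun (t : Fin d × Cell I J L) x => Yv lam kap nu x t.2 t.1) π (gridK s u v) :=
      hGCK d I J L s lam p u kap q v nu w hcs hcu hcv ps pu pv
    have hmW : ∀ t : Fin d × Cell I J L, Measurable fun x => Yv lam kap nu x t.2 t.1 := fun t =>
      (measurable_pi_apply t.1).comp ((measurable_pi_apply t.2).comp (meas_Yv lam kap nu))
    have hsm := (hSM I J L s u v vs vu vv _ π _ hmW hcW).2 (2 * ε) (by linarith)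
    have e : ∀ x, F x ^ 2 = ∑ r, ∑ r', ENNReal.ofReal (h r) * ENNReal.ofReal (h r') * (ind r x * ind r' x) := by
      intro x
      rw [hF, sq, sum_mul_sum]
      refine sum_congr rfl fun r _ => sum_congr rfl fun r' _ => ?_
      ring
    simp only [e]
    have mm : ∀ r r', Measurable fun x => ind r x * ind r' x := fun r r' => (mind r).mul (mind r')
    rw [lintegral_finsetSum _ fun r _ => Finset.measurable_sum _ fun r' _ => (mm r r').const_mul _]
    refine sum_le_sum fun r _ => ?_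
    rw [lintegral_finsetSum _ fun r' _ => (mm r r').const_mul _]
    refine sum_le_sum fun r' _ => ?_
    rw [lintegral_const_mul _ (mm r r')]
    gcongr
    have e2 : ∀ x, ind r x * ind r' x =
        ({x | (∀ l, |Xg (Yv lam kap nu x) r l| ≤ 2 * ε ∧ |Xg (Yv lam kap nu x) r' l| ≤ 2 * ε)}).indicator 1 x := by
      intro x
      simp only [hind, Set.indicator]
      by_cases ha : ∀ l, |Xg (Yv lam kap nu x) r l| ≤ 2 * ε <;>
      by_cases hb : ∀ l, |Xg (Yv lam kap nu x) r' l| ≤ 2 * ε <;>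
      simp [ha, hb, forall_and]
    simp only [e2]
    rw [lintegral_indicator_one]
    · refine (hsm r r').trans ?_
      apply ENNReal.ofReal_le_ofReal
      have := ker_two d ε (rg s u v r r') hε
      have e3 : (2 * ε) ^ (2 * d) = 4 ^ d * ε ^ (2 * d) := by
        rw [mul_pow, pow_mul]; norm_num
      rw [e3]
      have h4 : 0 ≤ C₂ * (4 ^ d * ε ^ (2 * d)) := by positivity
      nlinarith [mul_le_mul_of_nonneg_left this h4]
    · have : {x : Cell I J L → Fin d → ℝ |
          (∀ l, |Xg (Yv lam kap nu x) r l| ≤ 2 * ε ∧ |Xg (Yv lam kap nu x) r' l| ≤ 2 * ε)} =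
          {x | ∀ l, |Xg (Yv lam kap nu x) r l| ≤ 2 * ε} ∩ {x | ∀ l, |Xg (Yv lam kap nu x) r' l| ≤ 2 * ε} := by
        ext x; simp [forall_and]
      rw [this]
      exact (mset r).inter (mset r')
  have hall := (hLHS.trans hCAI').trans (mul_le_mul' (le_refl (64 : ℝ≥0∞)) hRHS)
  -- back to the reals
  have hgn : ∀ r0, 0 ≤ g r0 := fun r0 => sum_nonneg fun r _ => mul_nonneg (h0 r) (ker_nonneg d ε _ hε)
  have hl : ∑ r0, ENNReal.ofReal (h r0) * ENNReal.ofReal (c₁ * ε ^ d * g r0) ^ 2 =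
      ENNReal.ofReal (∑ r0, h r0 * (c₁ * ε ^ d * g r0) ^ 2) := by
    rw [ENNReal.ofReal_sum_of_nonneg fun r0 _ => mul_nonneg (h0 r0) (sq_nonneg _)]
    refine sum_congr rfl fun r0 _ => ?_
    rw [ENNReal.ofReal_mul (h0 r0), ENNReal.ofReal_pow (by have := hgn r0; positivity)]
  have hr : (64 : ℝ≥0∞) * ∑ r, ∑ r', ENNReal.ofReal (h r) * ENNReal.ofReal (h r') *
      ENNReal.ofReal (C₂ * 4 ^ d * (ε ^ (2 * d) * ker d ε (rg s u v r r'))) =
      ENNReal.ofReal (64 * ∑ r, ∑ r', h r * h r' * (C₂ * 4 ^ d * (ε ^ (2 * d) * ker d ε (rg s u v r r')))) := by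
    rw [ENNReal.ofReal_mul (by norm_num)]
    congr 1
    · norm_num
    rw [ENNReal.ofReal_sum_of_nonneg]
    · refine sum_congr rfl fun r _ => ?_
      rw [ENNReal.ofReal_sum_of_nonneg]
      · refine sum_congr rfl fun r' _ => ?_
        rw [ENNReal.ofReal_mul (mul_nonneg (h0 r) (h0 r')), ENNReal.ofReal_mul (h0 r)]
      · intro r' _
        have := ker_nonneg d ε (rg s u v r r') hε
        have := h0 r
        have := h0 r'
        positivity
    · intro r _
      refine sum_nonneg fun r' _ => ?_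
      have := ker_nonneg d ε (rg s u v r r') hε
      have := h0 r
      have := h0 r'
      positivity
  rw [hl, hr] at hall
  have hpos : 0 ≤ 64 * ∑ r, ∑ r', h r * h r' * (C₂ * 4 ^ d * (ε ^ (2 * d) * ker d ε (rg s u v r r'))) := by
    refine mul_nonneg (by norm_num) (sum_nonneg fun r _ => sum_nonneg fun r' _ => ?_)
    have := ker_nonneg d ε (rg s u v r r') hε
    have := h0 r
    have := h0 r'
    positivity
  rw [ENNReal.ofReal_le_ofReal_iff hpos] at hall
  have hl2 : ∑ r0, h r0 * (c₁ * ε ^ d * g r0) ^ 2 = c₁ ^ 2 * ε ^ (2 * d) * ∑ r0, h r0 * g r0 ^ 2 := by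
    rw [mul_sum]
    refine sum_congr rfl fun r0 _ => ?_
    rw [mul_comm 2 d, pow_mul]; ring
  have hr2 : 64 * ∑ r, ∑ r', h r * h r' * (C₂ * 4 ^ d * (ε ^ (2 * d) * ker d ε (rg s u v r r'))) =
      64 * (C₂ * 4 ^ d) * ε ^ (2 * d) * ∑ r, ∑ r', h r * h r' * ker d ε (rg s u v r r') := by
    rw [mul_sum, mul_sum]
    refine sum_congr rfl fun r _ => ?_
    rw [mul_sum, mul_sum]
    refine sum_congr rfl fun r' _ => ?_
    ring
  rw [hl2, hr2] at hall
  have hε2 : 0 < ε ^ (2 * d) := by positivity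
  have hc2 : 0 < c₁ ^ 2 := by positivity
  have hfin : ∑ r0, h r0 * g r0 ^ 2 ≤ 64 * (C₂ * 4 ^ d) / c₁ ^ 2 *
      ∑ r, ∑ r', h r * h r' * ker d ε (rg s u v r r') := by
    rw [div_mul_eq_mul_div, le_div_iff₀ hc2]
    have : ε ^ (2 * d) * ((∑ r0, h r0 * g r0 ^ 2) * c₁ ^ 2) ≤
        ε ^ (2 * d) * (64 * (C₂ * 4 ^ d) * ∑ r, ∑ r', h r * h r' * ker d ε (rg s u v r r')) := by
      linarith
    exact le_of_mul_le_mul_left this hε2
  convert hfin using 1

end Pool.Agent.T2H03.DS
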