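import Pool.Agent.T2H03.DS.LibQ1

/-! # Package Q1L -/

set_option autoImplicit false

namespace Pool.Agent.T2H03.DS

open MeasureTheory ProbabilityTheory Finset Filter Topology Pool.Agent.Helper41
open scoped ENNReal NNReal

open LibQ1 in
theorem T_Q1L (hLOW1 : P_LOW1) (hLOW2 : P_LOW2) (hREG : P_REG) : P_Q1L := by
  intro d Ω _ P B hB G hG hpos h0
  obtain ⟨B', hB', hae⟩ := hREG d Ω P B hB
  have h1 : 0 < P {ω | ∃ x ∈ G, x.2.1 ≠ x.2.2 ∧ B' (x.1, x.2.1) ω = B' (x.1, x.2.2) ω} →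
      0 < P {ω | ∃ x ∈ G, x.2.1 ≠ x.2.2 ∧ B (x.1, x.2.1) ω = B (x.1, x.2.2) ω} := by
    intro h
    refine h.trans_le (measure_mono_ae ?_)
    filter_upwards [hae] with ω hω
    rintro ⟨x, hx, hne, he⟩
    exact ⟨x, hx, hne, by rw [← hω, ← hω]; exact he⟩
  apply h1
  have key : ∀ G' : Set (ℝ × ℝ × ℝ), IsCompact G' → ∀ i, G' ⊆ BX i → Pos (rK d) G' →
      0 < P {ω | ∃ x ∈ G', dX B' x ω = 0} := by
    intro G' hG' i hi hp
    obtain ⟨p, hp0, hp1⟩ := hLOW1 d Ω P B' hB' _ _ _ G' (eta_pos i) hG' hi hp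
    exact hLOW2 d Ω P B' hB' _ _ _ G' (eta_pos i) hG' hi p hp0 hp1
  obtain ⟨μ, hμ1, hμ2, hμ3⟩ := h0
  have hsub : G ∩ Off ⊆ (⋃ i, G ∩ BX i) ∪ ⋃ i, G ∩ sw ⁻¹' BX i := by
    rintro x ⟨hx, hne⟩
    obtain ⟨p1, p2, p3⟩ := hpos x hx
    rcases cover p1 p2 p3 hne with ⟨i, hi⟩ | ⟨i, hi⟩
    · exact Or.inl (Set.mem_iUnion.2 ⟨i, hx, hi⟩)
    · exact Or.inr (Set.mem_iUnion.2 ⟨i, hx, hi⟩)
  have h3 : (∃ i, μ (G ∩ BX i) ≠ 0) ∨ ∃ i, μ (G ∩ sw ⁻¹' BX i) ≠ 0 := by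
    by_contra hcon
    push Not at hcon
    have h4 : μ ((⋃ i, G ∩ BX i) ∪ ⋃ i, G ∩ sw ⁻¹' BX i) = 0 := by
      rw [measure_union_null_iff, measure_iUnion_null_iff, measure_iUnion_null_iff]
      exact hcon
    have h5 : μ Set.univ = 0 := by
      rw [← Set.union_compl_self (G ∩ Off), measure_union_null_iff]
      exact ⟨measure_mono_null hsub h4, hμ2⟩
    rw [measure_univ] at h5
    exact one_ne_zero h5
  rcases h3 with ⟨i, hi⟩ | ⟨i, hi⟩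
  · have hc : IsCompact (G ∩ BX i) := hG.inter_right (isClosed_BX i)
    have h4 := key _ hc i Set.inter_subset_right (Pos.restrict μ hμ3 hc.measurableSet hi)
    refine h4.trans_le (measure_mono ?_)
    rintro ω ⟨x, hx, he⟩
    exact ⟨x, hx.1, (lt_of_mem_BX hx.2).ne, (dX_eq_zero B' x ω).1 he⟩
  · have hc : IsCompact (G ∩ sw ⁻¹' BX i) := hG.inter_right ((isClosed_BX i).preimage continuous_sw)
    have h4 := key (sw '' (G ∩ sw ⁻¹' BX i)) (hc.image continuous_sw) i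
      (by rintro x ⟨y, hy, rfl⟩; exact hy.2)
      (Pos.swap (Pos.restrict μ hμ3 hc.measurableSet hi))
    refine h4.trans_le (measure_mono ?_)
    rintro ω ⟨x, ⟨y, hy, rfl⟩, he⟩
    exact ⟨y, hy.1, (lt_of_mem_BX hy.2).ne', ((dX_eq_zero B' (sw y) ω).1 he).symm⟩

end Pool.Agent.T2H03.DS
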