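import Pool.Agent.T2H03.DS.Stm

/-! # Package Q2A: assembly for the second question -/

set_option autoImplicit false

namespace Pool.Agent.T2H03.DS

open MeasureTheory ProbabilityTheory Finset Filter Topology Pool.Agent.Helper41
open scoped ENNReal NNReal

private theorem q2a_pos_mono {X : Type} [MeasurableSpace X] {k : X → X → ℝ≥0∞} {A A' : Set X}
    (h : A ⊆ A') (hA : Pos k A) : Pos k A' := by
  obtain ⟨μ, hμ, h0, he⟩ := hA
  exact ⟨μ, hμ, measure_mono_null (Set.compl_subset_compl.2 h) h0, he⟩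

private theorem q2a_compact {E : Set (ℝ × ℝ)} (hE : IsCompact E) (α β : ℝ) :
    IsCompact {x : ℝ × ℝ × ℝ | (x.1, x.2.1) ∈ E ∧ α ≤ x.2.2 ∧ x.2.2 ≤ β} := by
  have h1 : IsCompact ((fun p : (ℝ × ℝ) × ℝ => (p.1.1, p.1.2, p.2)) '' (E ×ˢ Set.Icc α β)) :=
    (hE.prod isCompact_Icc).image (by fun_prop)
  convert h1 using 1
  ext ⟨s, t, t'⟩
  simp only [Set.mem_setOf_eq, Set.mem_image, Set.mem_prod, Set.mem_Icc, Prod.exists,
    Prod.mk.injEq]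
  constructor
  · rintro ⟨h2, h3, h4⟩
    exact ⟨s, t, t', ⟨h2, h3, h4⟩, rfl, rfl, rfl⟩
  · rintro ⟨a, b, c, ⟨h2, h3, h4⟩, rfl, rfl, rfl⟩
    exact ⟨h2, h3, h4⟩

theorem T_Q2A (hQ1U : P_Q1U) (hQ1L : P_Q1L) (hQ2R : P_Q2R) (hQ2L : P_Q2L) : P_Q2A := by
  intro d hd Ω _ P B hB E hE hpos
  constructor
  · intro hP
    have hcov : {ω | ∃ x ∈ E, ∃ t : ℝ, 0 < t ∧ t ≠ x.2 ∧ B x ω = B (x.1, t) ω} ⊆
        ⋃ n : ℕ, {ω | ∃ x ∈ {x : ℝ × ℝ × ℝ | (x.1, x.2.1) ∈ E ∧ 1 / ((n : ℝ) + 1) ≤ x.2.2 ∧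
          x.2.2 ≤ (n : ℝ) + 1}, x.2.1 ≠ x.2.2 ∧ B (x.1, x.2.1) ω = B (x.1, x.2.2) ω} := by
      rintro ω ⟨x, hx, t, ht, htx, hBt⟩
      obtain ⟨n₁, hn₁⟩ := exists_nat_one_div_lt ht
      obtain ⟨n₂, hn₂⟩ := exists_nat_ge t
      refine Set.mem_iUnion.2 ⟨max n₁ n₂, (x.1, x.2, t), ⟨hx, ?_, ?_⟩, fun h => htx h.symm, hBt⟩
      · refine le_trans ?_ hn₁.le
        apply one_div_le_one_div_of_le (by positivity)
        have : (n₁ : ℝ) ≤ ((max n₁ n₂ : ℕ) : ℝ) := by exact_mod_cast le_max_left _ _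
        linarith
      · have : (n₂ : ℝ) ≤ ((max n₁ n₂ : ℕ) : ℝ) := by exact_mod_cast le_max_right _ _
        simp only
        linarith
    have hex : ∃ n : ℕ, 0 < P {ω | ∃ x ∈ {x : ℝ × ℝ × ℝ | (x.1, x.2.1) ∈ E ∧
        1 / ((n : ℝ) + 1) ≤ x.2.2 ∧ x.2.2 ≤ (n : ℝ) + 1}, x.2.1 ≠ x.2.2 ∧
          B (x.1, x.2.1) ω = B (x.1, x.2.2) ω} := by
      by_contra hcon
      push Not at hcon
      have h0 := measure_iUnion_null fun n => nonpos_iff_eq_zero.1 (hcon n)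
      exact absurd (measure_mono_null hcov h0) hP.ne'
    obtain ⟨n, hn⟩ := hex
    have hn0 : (0 : ℝ) < 1 / ((n : ℝ) + 1) := by positivity
    have h1 := hQ1U d Ω P B hB _ (q2a_compact hE _ _) (by
      rintro x ⟨hx1, hx2, hx3⟩
      exact ⟨(hpos _ hx1).1, (hpos _ hx1).2, lt_of_lt_of_le hn0 hx2⟩) hn
    exact hQ2R d hd E _ _ hE.measurableSet (q2a_pos_mono Set.inter_subset_left h1)
  · intro hPos
    obtain ⟨b, hb⟩ := (hE.image continuous_snd).bddAbove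
    have hb' : ∀ x ∈ E, x.2 ≤ b := fun x hx => hb ⟨x, hx, rfl⟩
    set α : ℝ := max b 0 + 1 with hα
    have hα0 : 0 < α := by
      have := le_max_right b 0
      linarith
    have hEα : ∀ x ∈ E, x.2 < α := by
      intro x hx
      have h1 := hb' x hx
      have h2 := le_max_left b 0
      linarith
    have h1 := hQ2L d hd E α (α + 1) hE.measurableSet (by linarith) hPos
    have hoff : {x : ℝ × ℝ × ℝ | (x.1, x.2.1) ∈ E ∧ α ≤ x.2.2 ∧ x.2.2 ≤ α + 1} ∩ Off =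
        {x : ℝ × ℝ × ℝ | (x.1, x.2.1) ∈ E ∧ α ≤ x.2.2 ∧ x.2.2 ≤ α + 1} := by
      refine Set.inter_eq_left.2 ?_
      rintro x ⟨hx1, hx2, hx3⟩
      have := hEα _ hx1
      exact (lt_of_lt_of_le this hx2).ne
    rw [← hoff] at h1
    have h2 := hQ1L d Ω P B hB _ (q2a_compact hE _ _) (by
      rintro x ⟨hx1, hx2, hx3⟩
      exact ⟨(hpos _ hx1).1, (hpos _ hx1).2, lt_of_lt_of_le hα0 hx2⟩) h1
    refine h2.trans_le (measure_mono ?_)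
    rintro ω ⟨x, ⟨hx1, hx2, hx3⟩, hne, hBx⟩
    exact ⟨(x.1, x.2.1), hx1, x.2.2, lt_of_lt_of_le hα0 hx2, fun h => hne h.symm, hBx⟩

end Pool.Agent.T2H03.DS
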