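import Pool.Agent.T2H03.DS.Stm

set_option autoImplicit false

namespace Pool.Agent.T2H03.DS

open MeasureTheory ProbabilityTheory Finset Filter Topology Pool.Agent.Helper41
open scoped ENNReal NNReal

private lemma q2l_anti (r x y : ℝ) (hr : 0 ≤ r) (h : x ≤ y) :
    ENNReal.ofReal y ^ (-r) ≤ ENNReal.ofReal x ^ (-r) := by
  rw [ENNReal.rpow_neg, ENNReal.rpow_neg]
  exact ENNReal.inv_le_inv.mpr (ENNReal.rpow_le_rpow (ENNReal.ofReal_le_ofReal h) hr)

/-- integral over an interval by a primitive -/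
private lemma q2l_int (x L r : ℝ) (hx : 0 < x) (hL : 0 < L) :
    ∫⁻ τ in Set.Icc 0 L, ENNReal.ofReal (x + τ) ^ r = ENNReal.ofReal (∫ τ in (0 : ℝ)..L, (x + τ) ^ r) := by
  rw [intervalIntegral.integral_of_le hL.le, ← integral_Icc_eq_integral_Ioc,
    ofReal_integral_eq_lintegral_ofReal]
  · apply setLIntegral_congr_fun measurableSet_Icc
    intro τ hτ
    simp only
    rw [ENNReal.ofReal_rpow_of_pos (by linarith [hτ.1])]
  · apply ContinuousOn.integrableOn_Icc
    intro τ hτ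
    apply ContinuousAt.continuousWithinAt
    apply ContinuousAt.rpow_const (by fun_prop)
    left
    linarith [hτ.1]
  · apply (ae_restrict_iff' measurableSet_Icc).mpr
    refine ae_of_all _ fun τ hτ => ?_
    exact Real.rpow_nonneg (by linarith [hτ.1]) _

private lemma q2l_key1 (L : ℝ) (hL : 0 < L) (x : ℝ) (hx : 0 ≤ x) :
    ∫⁻ τ in Set.Icc 0 L, ENNReal.ofReal (x + τ) ^ (-((1 : ℝ) / 2)) ≤ ENNReal.ofReal (2 * Real.sqrt L) := by
  have h1 : ∫⁻ τ in Set.Icc 0 L, ENNReal.ofReal (x + τ) ^ (-((1 : ℝ) / 2)) ≤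
      ∫⁻ τ in Set.Icc 0 L, ENNReal.ofReal τ ^ (-((1 : ℝ) / 2)) := by
    apply lintegral_mono
    intro τ
    exact q2l_anti _ _ _ (by norm_num) (by linarith)
  refine h1.trans ?_
  have h2 : ∫⁻ τ in Set.Icc 0 L, ENNReal.ofReal τ ^ (-((1 : ℝ) / 2)) =
      ∫⁻ τ in Set.Ioc 0 L, ENNReal.ofReal (τ ^ (-((1 : ℝ) / 2))) := by
    rw [← setLIntegral_congr Ioc_ae_eq_Icc]
    apply setLIntegral_congr_fun measurableSet_Ioc
    intro τ hτ
    simp only
    rw [ENNReal.ofReal_rpow_of_pos hτ.1]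
  rw [h2, ← ofReal_integral_eq_lintegral_ofReal]
  · rw [← intervalIntegral.integral_of_le hL.le, integral_rpow (Or.inl (by norm_num))]
    apply ENNReal.ofReal_le_ofReal
    rw [Real.sqrt_eq_rpow, Real.zero_rpow (by norm_num)]
    norm_num
    linarith
  · exact (intervalIntegrable_iff_integrableOn_Ioc_of_le hL.le).mp
      (intervalIntegral.intervalIntegrable_rpow' (by norm_num))
  · apply (ae_restrict_iff' measurableSet_Ioc).mpr
    refine ae_of_all _ fun τ hτ => ?_
    exact Real.rpow_nonneg hτ.1.le _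

private lemma q2l_key2 (L : ℝ) (hL : 0 < L) (x : ℝ) (hx : 0 < x) :
    ∫⁻ τ in Set.Icc 0 L, ENNReal.ofReal (x + τ) ^ (-(1 : ℝ)) ≤
      ENNReal.ofReal ((1 + Real.log (1 + L)) * max 1 (Real.log (Real.exp 1 / x))) := by
  rw [q2l_int x L _ hx hL]
  apply ENNReal.ofReal_le_ofReal
  have h1 : ∫ τ in (0 : ℝ)..L, (x + τ) ^ (-(1 : ℝ)) = Real.log ((x + L) / x) := by
    have h2 : ∫ τ in (0 : ℝ)..L, (x + τ) ^ (-(1 : ℝ)) = ∫ τ in (0 : ℝ)..L, (fun u : ℝ => u⁻¹) (x + τ) := by
      apply intervalIntegral.integral_congr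
      intro τ hτ
      simp only
      rw [Real.rpow_neg_one]
    rw [h2, intervalIntegral.integral_comp_add_left (fun u : ℝ => u⁻¹) x, integral_inv_of_pos (by linarith) (by linarith)]
    simp
  rw [h1]
  have hl : 0 ≤ Real.log (1 + L) := Real.log_nonneg (by linarith)
  rcases le_or_gt x 1 with h | h
  · have h3 : Real.log ((x + L) / x) ≤ Real.log (1 + L) + Real.log (1 / x) := by
      rw [← Real.log_mul (by linarith) (by positivity)]
      apply Real.log_le_log (by positivity)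
      rw [mul_one_div]
      exact div_le_div_of_nonneg_right (by linarith) hx.le
    have h4 : Real.log (Real.exp 1 / x) = 1 + Real.log (1 / x) := by
      rw [Real.log_div (Real.exp_pos 1).ne' hx.ne', Real.log_exp, one_div, Real.log_inv]
      ring
    have h5 : 0 ≤ Real.log (1 / x) := Real.log_nonneg (by rw [le_div_iff₀ hx]; linarith)
    have h6 : 1 + Real.log (1 / x) ≤ max 1 (Real.log (Real.exp 1 / x)) := by
      rw [← h4]; exact le_max_right _ _
    calc Real.log ((x + L) / x) ≤ Real.log (1 + L) + Real.log (1 / x) := h3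
      _ ≤ (1 + Real.log (1 + L)) * (1 + Real.log (1 / x)) := by nlinarith
      _ ≤ _ := mul_le_mul_of_nonneg_left h6 (by linarith)
  · have h3 : Real.log ((x + L) / x) ≤ Real.log (1 + L) := by
      apply Real.log_le_log (by positivity)
      rw [div_le_iff₀ hx]
      nlinarith
    have h6 : (1 : ℝ) ≤ max 1 (Real.log (Real.exp 1 / x)) := le_max_left _ _
    calc Real.log ((x + L) / x) ≤ Real.log (1 + L) := h3
      _ ≤ (1 + Real.log (1 + L)) * 1 := by linarith
      _ ≤ _ := mul_le_mul_of_nonneg_left h6 (by linarith)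

private lemma q2l_key3 (L : ℝ) (hL : 0 < L) (r : ℝ) (hr : 0 < r) (x : ℝ) (hx : 0 < x) :
    ∫⁻ τ in Set.Icc 0 L, ENNReal.ofReal (x + τ) ^ (-(r + 1)) ≤ ENNReal.ofReal (r⁻¹ * x ^ (-r)) := by
  rw [q2l_int x L _ hx hL]
  apply ENNReal.ofReal_le_ofReal
  rw [intervalIntegral.integral_comp_add_left (fun u : ℝ => u ^ (-(r + 1))) x, integral_rpow]
  · have h1 : (-(r + 1) + 1) = -r := by ring
    rw [h1, add_zero]
    have h2 : 0 ≤ (x + L) ^ (-r) := Real.rpow_nonneg (by linarith) _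
    rw [div_neg, ← neg_div, neg_sub, inv_mul_eq_div]
    exact div_le_div_of_nonneg_right (by linarith) hr.le
  · right
    refine ⟨by intro h; linarith, ?_⟩
    rw [add_zero, Set.uIcc_of_le (by linarith)]
    intro h
    linarith [h.1]

private lemma q2l_key (d : ℕ) (hd : 1 ≤ d) (L : ℝ) (hL : 0 < L) : ∃ C : ℝ≥0∞, C ≠ ⊤ ∧ ∀ x ρ : ℝ, 0 ≤ x → x ≤ ρ →
    ∫⁻ τ in Set.Icc 0 L, ENNReal.ofReal (ρ + τ) ^ (-((d : ℝ) / 2)) ≤ C * U (((d : ℝ) - 2) / 2) x := by
  have hmono : ∀ x ρ : ℝ, x ≤ ρ → ∫⁻ τ in Set.Icc 0 L, ENNReal.ofReal (ρ + τ) ^ (-((d : ℝ) / 2)) ≤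
      ∫⁻ τ in Set.Icc 0 L, ENNReal.ofReal (x + τ) ^ (-((d : ℝ) / 2)) := by
    intro x ρ h
    apply lintegral_mono
    intro τ
    exact q2l_anti _ _ _ (by positivity) (by linarith)
  rcases Nat.lt_or_ge d 2 with h2 | h2
  · have : d = 1 := by omega
    subst this
    refine ⟨ENNReal.ofReal (2 * Real.sqrt L), ENNReal.ofReal_ne_top, fun x ρ hx hρ => ?_⟩
    refine (hmono x ρ hρ).trans ?_
    have hU : U ((((1 : ℕ) : ℝ) - 2) / 2) x = 1 := by
      unfold U; rw [if_pos (by norm_num)]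
    rw [hU, mul_one, Nat.cast_one]
    exact q2l_key1 L hL x hx
  · rcases Nat.lt_or_ge d 3 with h3 | h3
    · have : d = 2 := by omega
      subst this
      have hl : 0 ≤ Real.log (1 + L) := Real.log_nonneg (by linarith)
      refine ⟨ENNReal.ofReal (1 + Real.log (1 + L)), ENNReal.ofReal_ne_top, fun x ρ hx hρ => ?_⟩
      refine (hmono x ρ hρ).trans ?_
      have h0 : ((((2 : ℕ) : ℝ) - 2) / 2) = 0 := by norm_num
      rw [h0]
      rcases hx.eq_or_lt with hx0 | hx0
      · rw [← hx0]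
        have hU : U 0 0 = ⊤ := by unfold U; simp
        rw [hU, ENNReal.mul_top]
        · exact le_top
        · rw [Ne, ENNReal.ofReal_eq_zero, not_le]
          linarith
      · have hU : U 0 x = ENNReal.ofReal (max 1 (Real.log (Real.exp 1 / x))) := by
          unfold U; rw [if_neg (lt_irrefl _), if_neg hx0.ne', if_pos rfl]
        rw [hU, ← ENNReal.ofReal_mul (by linarith)]
        have h1 : -((((2 : ℕ) : ℝ)) / 2) = -(1 : ℝ) := by norm_num
        rw [h1]
        exact q2l_key2 L hL x hx0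
    · have hd3 : (3 : ℝ) ≤ d := by exact_mod_cast h3
      have hr : 0 < ((d : ℝ) - 2) / 2 := by linarith
      refine ⟨ENNReal.ofReal ((((d : ℝ) - 2) / 2)⁻¹), ENNReal.ofReal_ne_top, fun x ρ hx hρ => ?_⟩
      refine (hmono x ρ hρ).trans ?_
      rcases hx.eq_or_lt with hx0 | hx0
      · rw [← hx0]
        have hU : U (((d : ℝ) - 2) / 2) 0 = ⊤ := by
          unfold U; rw [if_neg (not_lt.mpr hr.le), if_pos rfl]
        rw [hU, ENNReal.mul_top]
        · exact le_top
        · rw [Ne, ENNReal.ofReal_eq_zero, not_le]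
          positivity
      · have hU : U (((d : ℝ) - 2) / 2) x = ENNReal.ofReal (x ^ (-(((d : ℝ) - 2) / 2))) := by
          unfold U; rw [if_neg (not_lt.mpr hr.le), if_neg hx0.ne', if_neg hr.ne']
        rw [hU, ← ENNReal.ofReal_mul (by positivity)]
        have h1 : -((d : ℝ) / 2) = -(((d : ℝ) - 2) / 2 + 1) := by ring
        rw [h1]
        exact q2l_key3 L hL _ hr x hx0

private lemma q2l_fold (g : ℝ → ℝ≥0∞) (hg : Measurable g) (α β t : ℝ) (ht : t ∈ Set.Icc α β) :
    ∫⁻ t' in Set.Icc α β, g |t - t'| ≤ 2 * ∫⁻ τ in Set.Icc 0 (β - α), g τ := by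
  set G : ℝ → ℝ≥0∞ := (Set.Icc 0 (β - α)).indicator g with hG
  have hGm : Measurable G := hg.indicator measurableSet_Icc
  have h1 : ∫⁻ t' in Set.Icc α β, g |t - t'| ≤ ∫⁻ t', (G (t' - t) + G (t - t')) := by
    rw [← lintegral_indicator measurableSet_Icc]
    apply lintegral_mono
    intro t'
    by_cases h : t' ∈ Set.Icc α β
    · simp only [Set.indicator_of_mem h]
      rcases le_total t t' with h2 | h2
      · have : G (t' - t) = g |t - t'| := by
          rw [hG, Set.indicator_of_mem (show t' - t ∈ Set.Icc 0 (β - α) from ⟨by linarith, by linarith [h.2, ht.1]⟩),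
            abs_sub_comm, abs_of_nonneg (by linarith)]
        rw [← this]
        exact le_self_add
      · have : G (t - t') = g |t - t'| := by
          rw [hG, Set.indicator_of_mem (show t - t' ∈ Set.Icc 0 (β - α) from ⟨by linarith, by linarith [h.1, ht.2]⟩),
            abs_of_nonneg (by linarith)]
        rw [← this]
        exact le_add_self
    · simp only [Set.indicator_of_notMem h]
      exact zero_le
  refine h1.trans (le_of_eq ?_)
  rw [lintegral_add_left (by fun_prop), lintegral_sub_right_eq_self G t, lintegral_sub_left_eq_self G t,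
    ← two_mul, hG, lintegral_indicator measurableSet_Icc]

private lemma q2l_e2 (p q : ℝ × ℝ) : e2 p q ≤ |p.1 - q.1| + |p.2 - q.2| := by
  unfold e2
  apply Real.sqrt_le_iff.mpr
  constructor
  · positivity
  · have h1 := sq_abs (p.1 - q.1)
    have h2 := sq_abs (p.2 - q.2)
    nlinarith [mul_nonneg (abs_nonneg (p.1 - q.1)) (abs_nonneg (p.2 - q.2))]

set_option maxHeartbeats 2000000 in
theorem T_Q2L : P_Q2L := by
  intro d hd E α β hE hαβ hPos
  obtain ⟨μ, hμ, hμE, hμen⟩ := hPos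
  have hL : 0 < β - α := by linarith
  obtain ⟨C, hC, hkey⟩ := q2l_key d hd (β - α) hL
  set c : ℝ≥0∞ := (ENNReal.ofReal (β - α))⁻¹ with hc
  have hc0 : ENNReal.ofReal (β - α) ≠ 0 := by
    rw [Ne, ENNReal.ofReal_eq_zero, not_le]; exact hL
  have hcT : c ≠ ⊤ := ENNReal.inv_ne_top.mpr hc0
  set lam : Measure ℝ := c • volume.restrict (Set.Icc α β) with hlam
  have hlamP : IsProbabilityMeasure lam := by
    constructor
    rw [hlam, Measure.smul_apply, Measure.restrict_apply MeasurableSet.univ, Set.univ_inter, Real.volume_Icc,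
      smul_eq_mul, hc, ENNReal.inv_mul_cancel hc0 ENNReal.ofReal_ne_top]
  set f : (ℝ × ℝ) × ℝ → ℝ × ℝ × ℝ := fun z => (z.1.1, z.1.2, z.2) with hf
  have hfm : Measurable f := by fun_prop
  set S : Set (ℝ × ℝ × ℝ) := {x | (x.1, x.2.1) ∈ E ∧ α ≤ x.2.2 ∧ x.2.2 ≤ β} with hS
  have hSm : MeasurableSet S := by
    have h1 : MeasurableSet ((fun x : ℝ × ℝ × ℝ => (x.1, x.2.1)) ⁻¹' E) :=
      (show Measurable (fun x : ℝ × ℝ × ℝ => (x.1, x.2.1)) by fun_prop) hE
    have h2 : MeasurableSet ((fun x : ℝ × ℝ × ℝ => x.2.2) ⁻¹' (Set.Icc α β)) :=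
      (show Measurable (fun x : ℝ × ℝ × ℝ => x.2.2) by fun_prop) measurableSet_Icc
    exact h1.inter h2
  have hr1m : Measurable (fun z : (ℝ × ℝ × ℝ) × (ℝ × ℝ × ℝ) => rK d z.1 z.2) := by
    unfold rK r1
    fun_prop
  refine ⟨(μ.prod lam).map f, ?_, ?_, ?_⟩
  · exact Measure.isProbabilityMeasure_map hfm.aemeasurable
  · rw [Measure.map_apply hfm hSm.compl]
    have hsub : f ⁻¹' Sᶜ ⊆ (Eᶜ ×ˢ Set.univ) ∪ (Set.univ ×ˢ (Set.Icc α β)ᶜ) := by
      intro z hz
      by_cases h : z.1 ∈ E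
      · right
        refine ⟨trivial, fun h2 => hz ⟨?_, h2.1, h2.2⟩⟩
        exact h
      · left
        exact ⟨h, trivial⟩
    refine measure_mono_null hsub (measure_union_null ?_ ?_)
    · rw [Measure.prod_prod, hμE, zero_mul]
    · rw [Measure.prod_prod]
      have : lam (Set.Icc α β)ᶜ = 0 := by
        rw [hlam, Measure.smul_apply, Measure.restrict_apply measurableSet_Icc.compl, Set.compl_inter_self,
          measure_empty, smul_zero]
      rw [this, mul_zero]
  · have hin : ∀ z : ℝ × ℝ × ℝ, ∫⁻ y, rK d z y ∂((μ.prod lam).map f) =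
        ∫⁻ q, ∫⁻ t', rK d z (q.1, q.2, t') ∂lam ∂μ := by
      intro z
      have hz : Measurable (fun y => rK d z y) := hr1m.comp measurable_prodMk_left
      rw [lintegral_map hz hfm]
      exact lintegral_prod (μ := μ) (ν := lam) (fun a => rK d z (f a)) (hz.comp hfm).aemeasurable
    have hout : energy (rK d) ((μ.prod lam).map f) =
        ∫⁻ p, ∫⁻ t, ∫⁻ q, ∫⁻ t', rK d (p.1, p.2, t) (q.1, q.2, t') ∂lam ∂μ ∂lam ∂μ := by
      have hH : Measurable (fun x : ℝ × ℝ × ℝ => ∫⁻ q, ∫⁻ t', rK d x (q.1, q.2, t') ∂lam ∂μ) := by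
        have h3 : Measurable (fun x : ℝ × ℝ × ℝ => ∫⁻ y, rK d x y ∂((μ.prod lam).map f)) :=
          Measurable.lintegral_prod_right' hr1m
        simpa only [hin] using h3
      have h4 : energy (rK d) ((μ.prod lam).map f) =
          ∫⁻ x, ∫⁻ q, ∫⁻ t', rK d x (q.1, q.2, t') ∂lam ∂μ ∂((μ.prod lam).map f) := by
        unfold energy
        exact lintegral_congr hin
      rw [h4, lintegral_map hH hfm]
      exact lintegral_prod (μ := μ) (ν := lam) (fun z => ∫⁻ q, ∫⁻ t', rK d (f z) (q.1, q.2, t') ∂lam ∂μ)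
        (hH.comp hfm).aemeasurable
    have hbound : ∀ (p q : ℝ × ℝ) (t : ℝ), t ∈ Set.Icc α β → ∫⁻ t', rK d (p.1, p.2, t) (q.1, q.2, t') ∂lam ≤
        (c * (2 * C)) * U (((d : ℝ) - 2) / 2) (e2 p q) := by
      intro p q t ht
      rw [hlam, lintegral_smul_measure, smul_eq_mul, mul_assoc]
      apply mul_le_mul_right
      have h1 : ∀ t' : ℝ, rK d (p.1, p.2, t) (q.1, q.2, t') =
          (fun τ => ENNReal.ofReal ((|p.1 - q.1| + |p.2 - q.2|) + τ) ^ (-((d : ℝ) / 2))) |t - t'| := by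
        intro t'
        rfl
      simp_rw [h1]
      have hm : Measurable (fun τ : ℝ => ENNReal.ofReal ((|p.1 - q.1| + |p.2 - q.2|) + τ) ^ (-((d : ℝ) / 2))) := by
        fun_prop
      refine (q2l_fold _ hm α β t ht).trans ?_
      rw [mul_assoc]
      apply mul_le_mul_right
      exact hkey _ _ (Real.sqrt_nonneg _) (q2l_e2 p q)
    rw [hout]
    have hfin : ∫⁻ p, ∫⁻ t, ∫⁻ q, ∫⁻ t', rK d (p.1, p.2, t) (q.1, q.2, t') ∂lam ∂μ ∂lam ∂μ ≤
        (c * (2 * C)) * energy (fun x y => U (((d : ℝ) - 2) / 2) (e2 x y)) μ := by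
      have hcc : c * (2 * C) ≠ ⊤ := ENNReal.mul_ne_top hcT (ENNReal.mul_ne_top (by norm_num) hC)
      unfold energy
      rw [← lintegral_const_mul' _ _ hcc]
      apply lintegral_mono
      intro p
      have h2 : ∫⁻ t, ∫⁻ q, ∫⁻ t', rK d (p.1, p.2, t) (q.1, q.2, t') ∂lam ∂μ ∂lam ≤
          ∫⁻ _, (c * (2 * C)) * ∫⁻ q, U (((d : ℝ) - 2) / 2) (e2 p q) ∂μ ∂lam := by
        apply lintegral_mono_ae
        have hae : ∀ᵐ t ∂lam, t ∈ Set.Icc α β := by
          rw [hlam]
          exact Measure.ae_smul_measure (ae_restrict_mem measurableSet_Icc) c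
        filter_upwards [hae] with t ht
        rw [← lintegral_const_mul' _ _ hcc]
        apply lintegral_mono
        intro q
        exact hbound p q t ht
      refine h2.trans (le_of_eq ?_)
      rw [lintegral_const, measure_univ, mul_one]
    refine lt_of_le_of_lt hfin ?_
    exact ENNReal.mul_lt_top (ENNReal.mul_ne_top hcT (ENNReal.mul_ne_top (by norm_num) hC)).lt_top hμen

end Pool.Agent.T2H03.DS
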