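import Pool.Agent.T2H03.DS.Stm

/-! # Package Q2R: projections of measures of finite energy -/

set_option autoImplicit false

namespace Pool.Agent.T2H03.DS

open MeasureTheory ProbabilityTheory Finset Filter Topology Pool.Agent.Helper41
open scoped ENNReal NNReal

namespace Q2R

/-- the weights -/
noncomputable def aw (γ : ℝ) : ℝ≥0∞ := (2 : ℝ≥0∞) ^ γ

/-- dyadic sums -/
noncomputable def G (γ m : ℝ) : ℝ≥0∞ := ∑' n : ℕ, if m ≤ (1 / 2 : ℝ) ^ n then aw γ ^ n else 0

theorem aw_eq (γ : ℝ) : aw γ = ENNReal.ofReal ((2 : ℝ) ^ γ) := by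
  unfold aw
  rw [← ENNReal.ofReal_rpow_of_pos two_pos, ENNReal.ofReal_ofNat]

theorem aw_ne_top (γ : ℝ) : aw γ ≠ ⊤ := by
  rw [aw_eq]
  exact ENNReal.ofReal_ne_top

theorem aw_ne_zero (γ : ℝ) : aw γ ≠ 0 := by
  rw [aw_eq, Ne, ENNReal.ofReal_eq_zero, not_le]
  positivity

theorem one_le_aw {γ : ℝ} (h : 0 ≤ γ) : 1 ≤ aw γ := by
  rw [aw_eq, ENNReal.one_le_ofReal]
  exact Real.one_le_rpow one_le_two h

theorem G_top {γ m : ℝ} (h : 0 ≤ γ) (hm : m ≤ 0) : G γ m = ⊤ := by
  rw [← top_le_iff, ← ENNReal.tsum_const_eq_top_of_ne_zero (α := ℕ) (c := 1) one_ne_zero]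
  unfold G
  refine ENNReal.tsum_le_tsum fun n => ?_
  rw [if_pos (hm.trans (by positivity))]
  exact one_le_pow₀ (one_le_aw h)

theorem G_anti {γ m m' : ℝ} (h : m ≤ m') : G γ m' ≤ G γ m := by
  unfold G
  refine ENNReal.tsum_le_tsum fun n => ?_
  split_ifs with h1 h2
  · exact le_rfl
  · exact absurd (h.trans h1) h2
  · exact zero_le
  · exact le_rfl

theorem pow_neg (b : ℝ) (N : ℕ) : ((1 / 2 : ℝ) ^ N) ^ (-b) = ((2 : ℝ) ^ b) ^ N := by
  rw [one_div, inv_pow, Real.inv_rpow (by positivity), Real.rpow_neg (by positivity), inv_inv,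
    ← Real.rpow_natCast 2, ← Real.rpow_mul (by norm_num), mul_comm, Real.rpow_mul (by norm_num),
    Real.rpow_natCast]

theorem U_le {b m r : ℝ} (hb : 0 ≤ b) (hm : 0 ≤ m) (hmr : m ≤ r) : U b r ≤ aw b * (1 + G b m) := by
  rcases hm.eq_or_lt with h0 | hm0
  · rw [← h0, G_top hb le_rfl, add_top, ENNReal.mul_top (aw_ne_zero b)]
    exact le_top
  have hr0 : 0 < r := hm0.trans_le hmr
  unfold U
  rw [if_neg (not_lt.2 hb), if_neg hr0.ne']
  have hone : ∀ {x : ℝ}, x ≤ 1 → ENNReal.ofReal x ≤ aw b * (1 + G b m) := by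
    intro x hx
    calc ENNReal.ofReal x ≤ ENNReal.ofReal 1 := ENNReal.ofReal_le_ofReal hx
      _ = 1 * 1 := by rw [ENNReal.ofReal_one, one_mul]
      _ ≤ _ := mul_le_mul' (one_le_aw hb) le_self_add
  by_cases hb0 : b = 0
  · rw [if_pos hb0]
    by_cases hm1 : 1 ≤ m
    · apply hone
      rw [max_le_iff]
      refine ⟨le_rfl, ?_⟩
      rw [Real.log_div (Real.exp_ne_zero 1) hr0.ne', Real.log_exp]
      have := Real.log_nonneg (hm1.trans hmr)
      linarith
    · push Not at hm1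
      obtain ⟨N, hN1, hN2⟩ := exists_nat_pow_near_of_lt_one hm0 hm1.le (by norm_num : (0:ℝ) < 1 / 2)
        (by norm_num : (1 / 2 : ℝ) < 1)
      have h1 : Real.log (Real.exp 1 / r) ≤ 1 + (N + 1 : ℝ) := by
        rw [Real.log_div (Real.exp_ne_zero 1) hr0.ne', Real.log_exp]
        have h2 : Real.log ((1 / 2 : ℝ) ^ (N + 1)) ≤ Real.log r :=
          Real.log_le_log (by positivity) (hN1.le.trans hmr)
        rw [Real.log_pow, one_div, Real.log_inv] at h2
        have h3 : Real.log 2 ≤ 1 := by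
          have := Real.log_two_lt_d9
          linarith
        push_cast at h2
        nlinarith
      have h2 : ENNReal.ofReal (max 1 (Real.log (Real.exp 1 / r))) ≤ 1 + (N + 1 : ℕ) := by
        calc _ ≤ ENNReal.ofReal (1 + (N + 1 : ℕ)) := by
              apply ENNReal.ofReal_le_ofReal
              rw [max_le_iff]
              push_cast
              refine ⟨?_, h1⟩
              have : (0 : ℝ) ≤ N := Nat.cast_nonneg N
              linarith
          _ = _ := by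
              rw [ENNReal.ofReal_add zero_le_one (Nat.cast_nonneg _), ENNReal.ofReal_one,
                ENNReal.ofReal_natCast]
      refine h2.trans ?_
      calc (1 : ℝ≥0∞) + ((N + 1 : ℕ) : ℝ≥0∞) ≤ 1 + G b m := by
            refine add_le_add le_rfl ?_
            unfold G
            refine le_trans ?_ (ENNReal.sum_le_tsum (Finset.range (N + 1)))
            calc ((N + 1 : ℕ) : ℝ≥0∞) = ∑ n ∈ Finset.range (N + 1), 1 := by simp
              _ ≤ _ := by
                refine Finset.sum_le_sum fun n hn => ?_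
                rw [if_pos]
                · exact one_le_pow₀ (one_le_aw hb)
                · refine hN2.trans (pow_le_pow_of_le_one (by norm_num) (by norm_num) ?_)
                  exact Nat.lt_succ_iff.1 (Finset.mem_range.1 hn)
        _ ≤ _ := by
            conv_lhs => rw [← one_mul (1 + G b m)]
            exact mul_le_mul' (one_le_aw hb) le_rfl
  · rw [if_neg hb0]
    by_cases hm1 : 1 < m
    · apply hone
      exact Real.rpow_le_one_of_one_le_of_nonpos (hm1.le.trans hmr) (by linarith)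
    · push Not at hm1
      obtain ⟨N, hN1, hN2⟩ := exists_nat_pow_near_of_lt_one hm0 hm1 (by norm_num : (0:ℝ) < 1 / 2)
        (by norm_num : (1 / 2 : ℝ) < 1)
      have h1 : r ^ (-b) ≤ ((2 : ℝ) ^ b) ^ (N + 1) := by
        rw [← pow_neg]
        exact Real.rpow_le_rpow_of_nonpos (by positivity) (hN1.le.trans hmr) (by linarith)
      calc ENNReal.ofReal (r ^ (-b)) ≤ ENNReal.ofReal (((2 : ℝ) ^ b) ^ (N + 1)) :=
            ENNReal.ofReal_le_ofReal h1
        _ = aw b * aw b ^ N := by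
            rw [ENNReal.ofReal_pow (by positivity), ← aw_eq, pow_succ, mul_comm]
        _ ≤ aw b * G b m := by
            refine mul_le_mul' le_rfl ?_
            unfold G
            refine le_trans ?_ (ENNReal.le_tsum N)
            rw [if_pos hN2]
        _ ≤ _ := mul_le_mul' le_rfl le_add_self

theorem sum_pow_le {a : ℝ≥0∞} (ha : 2 ≤ a) (n : ℕ) : ∑ k ∈ Finset.range n, a ^ k ≤ a ^ n := by
  induction n with
  | zero => simp
  | succ n ih =>
    rw [Finset.sum_range_succ]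
    calc _ ≤ a ^ n + a ^ n := add_le_add ih le_rfl
      _ = 2 * a ^ n := (two_mul _).symm
      _ ≤ a * a ^ n := mul_le_mul' ha le_rfl
      _ = _ := by rw [pow_succ, mul_comm]

theorem G_le {γ m : ℝ} (hγ : 1 ≤ γ) (hm : 0 < m) : G γ m ≤ aw γ * ENNReal.ofReal (m ^ (-γ)) := by
  by_cases hm1 : 1 < m
  · have h1 : G γ m = 0 := by
      unfold G
      rw [ENNReal.tsum_eq_zero]
      intro n
      rw [if_neg]
      rw [not_le]
      exact (pow_le_one₀ (by norm_num) (by norm_num)).trans_lt hm1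
    rw [h1]
    exact zero_le
  · push Not at hm1
    obtain ⟨N, hN1, hN2⟩ := exists_nat_pow_near_of_lt_one hm hm1 (by norm_num : (0:ℝ) < 1 / 2)
      (by norm_num : (1 / 2 : ℝ) < 1)
    have h2 : 2 ≤ aw γ := by
      unfold aw
      calc (2 : ℝ≥0∞) = 2 ^ (1 : ℝ) := (ENNReal.rpow_one 2).symm
        _ ≤ _ := ENNReal.rpow_le_rpow_of_exponent_le (by norm_num) hγ
    have h3 : G γ m = ∑ n ∈ Finset.range (N + 1), if m ≤ (1 / 2 : ℝ) ^ n then aw γ ^ n else 0 := by
      unfold G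
      refine tsum_eq_sum fun n hn => ?_
      rw [if_neg]
      rw [not_le]
      refine lt_of_le_of_lt (pow_le_pow_of_le_one (by norm_num) (by norm_num) ?_) hN1
      rw [Finset.mem_range, not_lt] at hn
      exact hn
    calc G γ m ≤ ∑ n ∈ Finset.range (N + 1), aw γ ^ n := by
          rw [h3]
          refine Finset.sum_le_sum fun n _ => ?_
          split_ifs
          · exact le_rfl
          · exact zero_le
      _ ≤ aw γ ^ (N + 1) := sum_pow_le h2 _
      _ = aw γ * aw γ ^ N := by rw [pow_succ, mul_comm]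
      _ ≤ _ := by
          refine mul_le_mul' le_rfl ?_
          rw [aw_eq, ← ENNReal.ofReal_pow (by positivity), ← pow_neg]
          apply ENNReal.ofReal_le_ofReal
          exact Real.rpow_le_rpow_of_nonpos hm hN2 (by linarith)

theorem lint_G {X : Type} [MeasurableSpace X] (ρ : Measure X) {f : X → ℝ} (hf : Measurable f) (γ : ℝ) :
    ∫⁻ z, G γ (f z) ∂ρ = ∑' n : ℕ, aw γ ^ n * ρ {z | f z ≤ (1 / 2 : ℝ) ^ n} := by
  unfold G
  rw [lintegral_tsum fun n => (Measurable.ite (measurableSet_le hf measurable_const)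
    measurable_const measurable_const).aemeasurable]
  refine tsum_congr fun n => ?_
  have h1 : (fun z => if f z ≤ (1 / 2 : ℝ) ^ n then aw γ ^ n else 0) =
      ({z | f z ≤ (1 / 2 : ℝ) ^ n}.indicator fun _ => aw γ ^ n) := by
    funext z
    simp [Set.indicator]
  rw [h1, lintegral_indicator_const (measurableSet_le hf measurable_const)]

theorem meas_G (γ : ℝ) {X : Type} [MeasurableSpace X] {f : X → ℝ} (hf : Measurable f) :
    Measurable fun z => G γ (f z) := by
  unfold G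
  exact Measurable.ennreal_tsum fun n => Measurable.ite (measurableSet_le hf measurable_const)
    measurable_const measurable_const

/-- the maximum of the distances of the coordinates -/
def m2 (z : (ℝ × ℝ) × (ℝ × ℝ)) : ℝ := max |z.1.1 - z.2.1| |z.1.2 - z.2.2|

def m3 (z : (ℝ × ℝ × ℝ) × (ℝ × ℝ × ℝ)) : ℝ :=
  max |z.1.1 - z.2.1| (max |z.1.2.1 - z.2.2.1| |z.1.2.2 - z.2.2.2|)

theorem meas_m2 : Measurable m2 := by
  unfold m2
  fun_prop

theorem meas_m3 : Measurable m3 := by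
  unfold m3
  fun_prop

theorem m2_le (x y : ℝ × ℝ) : m2 (x, y) ≤ e2 x y := by
  unfold m2 e2
  rw [max_le_iff]
  constructor
  · apply Real.abs_le_sqrt
    nlinarith [sq_nonneg (x.2 - y.2)]
  · apply Real.abs_le_sqrt
    nlinarith [sq_nonneg (x.1 - y.1)]

theorem m3_ge (x y : ℝ × ℝ × ℝ) : r1 x y / 3 ≤ m3 (x, y) := by
  unfold m3 r1
  have h1 := le_max_left |x.1 - y.1| (max |x.2.1 - y.2.1| |x.2.2 - y.2.2|)
  have h2 := le_max_right |x.1 - y.1| (max |x.2.1 - y.2.1| |x.2.2 - y.2.2|)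
  have h3 := le_max_left |x.2.1 - y.2.1| |x.2.2 - y.2.2|
  have h4 := le_max_right |x.2.1 - y.2.1| |x.2.2 - y.2.2|
  show _ ≤ max |x.1 - y.1| (max |x.2.1 - y.2.1| |x.2.2 - y.2.2|)
  linarith

theorem G_rK {d : ℕ} (hd : 2 ≤ d) (x y : ℝ × ℝ × ℝ) : G ((d : ℝ) / 2) (m3 (x, y)) ≤
    (aw ((d : ℝ) / 2) * ENNReal.ofReal ((3 : ℝ) ^ ((d : ℝ) / 2))) * rK d x y := by
  have hd' : (2 : ℝ) ≤ d := by exact_mod_cast hd
  have hr : 0 ≤ r1 x y := by
    unfold r1
    positivity
  rcases hr.eq_or_lt with h0 | h0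
  · unfold rK
    rw [← h0, ENNReal.ofReal_zero, ENNReal.zero_rpow_of_neg (by linarith), ENNReal.mul_top]
    · exact le_top
    · refine mul_ne_zero (aw_ne_zero _) ?_
      rw [Ne, ENNReal.ofReal_eq_zero, not_le]
      positivity
  · refine (G_anti (m3_ge x y)).trans ((G_le (by linarith) (by positivity)).trans ?_)
    rw [mul_assoc]
    refine mul_le_mul' le_rfl ?_
    unfold rK
    rw [ENNReal.ofReal_rpow_of_pos h0, ← ENNReal.ofReal_mul (by positivity)]
    apply ENNReal.ofReal_le_ofReal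
    rw [Real.div_rpow hr (by norm_num), Real.rpow_neg (by norm_num : (0:ℝ) ≤ 3), div_inv_eq_mul, mul_comm]

theorem meas_rK (d : ℕ) : Measurable fun z : (ℝ × ℝ × ℝ) × (ℝ × ℝ × ℝ) => rK d z.1 z.2 := by
  unfold rK r1
  fun_prop

end Q2R

open Q2R in
theorem T_Q2R (hSLICE : P_SLICE) : P_Q2R := by
  intro d hd E α β hE hpos
  obtain ⟨ν, hν, hνA, hνe⟩ := hpos
  have hmap : Measurable fun x : ℝ × ℝ × ℝ => (x.1, x.2.1) := by fun_prop
  refine ⟨ν.map fun x => (x.1, x.2.1), Measure.isProbabilityMeasure_map hmap.aemeasurable, ?_, ?_⟩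
  · rw [Measure.map_apply hmap hE.compl]
    refine measure_mono_null ?_ hνA
    intro x hx hx'
    exact hx hx'.1
  have hμ : IsProbabilityMeasure (ν.map fun x : ℝ × ℝ × ℝ => (x.1, x.2.1)) :=
    Measure.isProbabilityMeasure_map hmap.aemeasurable
  by_cases hd1 : d = 1
  · subst hd1
    have hU : (fun x y : ℝ × ℝ => U ((((1 : ℕ) : ℝ) - 2) / 2) (e2 x y)) = fun _ _ => 1 := by
      funext x y
      unfold U
      rw [if_pos (by norm_num)]
    rw [hU]
    unfold energy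
    simp
  have hd2 : 2 ≤ d := by omega
  have hd' : (2 : ℝ) ≤ d := by exact_mod_cast hd2
  obtain ⟨C, hC, hS⟩ := hSLICE α β
  have hνS : ν {x | x.2.2 < α ∨ β < x.2.2} = 0 := by
    refine measure_mono_null ?_ hνA
    intro x hx hx'
    rcases hx with h | h
    · exact absurd hx'.2.1 (not_le.2 h)
    · exact absurd hx'.2.2 (not_le.2 h)
  have hS' := hS ν hν hνS
  set μ := ν.map fun x : ℝ × ℝ × ℝ => (x.1, x.2.1) with hμdef
  set b : ℝ := ((d : ℝ) - 2) / 2 with hb
  have hb0 : 0 ≤ b := by rw [hb]; linarith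
  have hbd : aw b * 2 = aw ((d : ℝ) / 2) := by
    unfold aw
    conv_lhs => rw [← ENNReal.rpow_one 2, ← ENNReal.rpow_mul, one_mul]
    rw [← ENNReal.rpow_add _ _ (by norm_num) (by norm_num)]
    congr 1
    rw [hb]
    ring
  have hn : ∀ n : ℕ, aw b ^ n * (μ.prod μ) {z | m2 z ≤ (1 / 2 : ℝ) ^ n} ≤
      C * (aw ((d : ℝ) / 2) ^ n * (ν.prod ν) {z | m3 z ≤ (1 / 2 : ℝ) ^ n}) := by
    intro n
    have h1 := hS' ((1 / 2 : ℝ) ^ n) (by positivity) (pow_le_one₀ (by norm_num) (by norm_num))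
    have h2 : {z : (ℝ × ℝ) × (ℝ × ℝ) | m2 z ≤ (1 / 2 : ℝ) ^ n} =
        {z | |z.1.1 - z.2.1| ≤ (1 / 2 : ℝ) ^ n ∧ |z.1.2 - z.2.2| ≤ (1 / 2 : ℝ) ^ n} := by
      ext z
      unfold m2
      simp only [Set.mem_setOf_eq, max_le_iff]
    have h3 : {z : (ℝ × ℝ × ℝ) × (ℝ × ℝ × ℝ) | m3 z ≤ (1 / 2 : ℝ) ^ n} =
        {z | |z.1.1 - z.2.1| ≤ (1 / 2 : ℝ) ^ n ∧ |z.1.2.1 - z.2.2.1| ≤ (1 / 2 : ℝ) ^ n ∧
          |z.1.2.2 - z.2.2.2| ≤ (1 / 2 : ℝ) ^ n} := by
      ext z
      unfold m3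
      simp only [Set.mem_setOf_eq, max_le_iff]
    rw [← h2, ← h3] at h1
    have h4 : (2 : ℝ≥0∞) ^ n * ENNReal.ofReal ((1 / 2 : ℝ) ^ n) = 1 := by
      rw [ENNReal.ofReal_pow (by norm_num), ← mul_pow, one_div,
        ENNReal.ofReal_inv_of_pos two_pos, ENNReal.ofReal_ofNat,
        ENNReal.mul_inv_cancel (by norm_num) (by norm_num), one_pow]
    calc aw b ^ n * (μ.prod μ) {z | m2 z ≤ (1 / 2 : ℝ) ^ n} =
        (aw b ^ n * 2 ^ n) * (ENNReal.ofReal ((1 / 2 : ℝ) ^ n) *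
          (μ.prod μ) {z | m2 z ≤ (1 / 2 : ℝ) ^ n}) := by
          conv_lhs => rw [← one_mul ((μ.prod μ) {z | m2 z ≤ (1 / 2 : ℝ) ^ n}), ← h4]
          ring
      _ ≤ (aw b ^ n * 2 ^ n) * (C * (ν.prod ν) {z | m3 z ≤ (1 / 2 : ℝ) ^ n}) :=
          mul_le_mul' le_rfl h1
      _ = _ := by
          rw [← mul_pow, hbd]
          ring
  have hν2 : ∫⁻ z, rK d z.1 z.2 ∂(ν.prod ν) = energy (rK d) ν :=
    lintegral_prod _ (meas_rK d).aemeasurable
  calc energy (fun x y => U b (e2 x y)) μ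
      ≤ ∫⁻ x, ∫⁻ y, aw b * (1 + G b (m2 (x, y))) ∂μ ∂μ := by
        refine lintegral_mono fun x => lintegral_mono fun y => ?_
        refine U_le hb0 ?_ (m2_le x y)
        unfold m2
        exact le_max_of_le_left (abs_nonneg _)
    _ = ∫⁻ z, aw b * (1 + G b (m2 z)) ∂(μ.prod μ) :=
        (lintegral_prod (fun z => aw b * (1 + G b (m2 z)))
          ((measurable_const.add (meas_G b meas_m2)).const_mul _).aemeasurable).symm
    _ = aw b * (1 + ∫⁻ z, G b (m2 z) ∂(μ.prod μ)) := by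
        have hm : Measurable fun z => 1 + G b (m2 z) := measurable_const.add (meas_G b meas_m2)
        rw [lintegral_const_mul _ hm, lintegral_add_left measurable_const, lintegral_const,
          measure_univ, mul_one]
    _ = aw b * (1 + ∑' n : ℕ, aw b ^ n * (μ.prod μ) {z | m2 z ≤ (1 / 2 : ℝ) ^ n}) := by
        rw [lint_G _ meas_m2]
    _ ≤ aw b * (1 + ∑' n : ℕ, C * (aw ((d : ℝ) / 2) ^ n * (ν.prod ν) {z | m3 z ≤ (1 / 2 : ℝ) ^ n})) :=
        mul_le_mul' le_rfl (add_le_add le_rfl (ENNReal.tsum_le_tsum hn))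
    _ = aw b * (1 + C * ∫⁻ z, G ((d : ℝ) / 2) (m3 z) ∂(ν.prod ν)) := by
        rw [ENNReal.tsum_mul_left, lint_G _ meas_m3]
    _ ≤ aw b * (1 + C * ∫⁻ z, (aw ((d : ℝ) / 2) * ENNReal.ofReal ((3 : ℝ) ^ ((d : ℝ) / 2))) *
          rK d z.1 z.2 ∂(ν.prod ν)) := by
        refine mul_le_mul' le_rfl (add_le_add le_rfl (mul_le_mul' le_rfl ?_))
        exact lintegral_mono fun z => G_rK hd2 z.1 z.2
    _ = aw b * (1 + C * ((aw ((d : ℝ) / 2) * ENNReal.ofReal ((3 : ℝ) ^ ((d : ℝ) / 2))) *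
          energy (rK d) ν)) := by
        rw [lintegral_const_mul _ (meas_rK d), hν2]
    _ < ⊤ := by
        refine ENNReal.mul_lt_top (aw_ne_top b).lt_top (ENNReal.add_lt_top.2 ⟨ENNReal.one_lt_top, ?_⟩)
        exact ENNReal.mul_lt_top hC.lt_top (ENNReal.mul_lt_top
          (ENNReal.mul_lt_top (aw_ne_top _).lt_top ENNReal.ofReal_lt_top) hνe)

end Pool.Agent.T2H03.DS
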