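import Pool.Agent.T2H03.DS.Stm

/-! # Package REG -/

set_option autoImplicit false

namespace Pool.Agent.T2H03.DS

open MeasureTheory ProbabilityTheory Finset Filter Topology Pool.Agent.Helper41
open scoped ENNReal NNReal

theorem T_REG : P_REG := by
  classical
  intro d Ω _ P B hB
  set N : Set Ω := toMeasurable P {ω | ¬ ContinuousOn (fun p => B p ω) (Set.Ici (0 : ℝ) ×ˢ Set.Ici (0 : ℝ))} with hN
  have hN0 : P N = 0 := by
    rw [hN, measure_toMeasurable]
    exact hB.cont
  have hNm : MeasurableSet N := measurableSet_toMeasurable _ _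
  have hNc : ∀ ω, ω ∉ N → ContinuousOn (fun p => B p ω) (Set.Ici (0 : ℝ) ×ˢ Set.Ici (0 : ℝ)) := by
    intro ω hω
    by_contra hc
    exact hω (subset_toMeasurable _ _ hc)
  have hae : ∀ᵐ ω ∂P, ω ∉ N := by
    rw [ae_iff]
    simpa using hN0
  set B' : ℝ × ℝ → Ω → (Fin d → ℝ) := fun p ω => if ω ∈ N then 0 else B p ω with hB'
  have heq : ∀ᵐ ω ∂P, ∀ p, B' p ω = B p ω := by
    filter_upwards [hae] with ω hω p
    simp only [hB', if_neg hω]
  have hcall : ∀ ω, ContinuousOn (fun p => B' p ω) (Set.Ici (0 : ℝ) ×ˢ Set.Ici (0 : ℝ)) := by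
    intro ω
    by_cases hω : ω ∈ N
    · simp only [hB', if_pos hω]
      exact continuousOn_const
    · simp only [hB', if_neg hω]
      exact hNc ω hω
  refine ⟨B', ⟨⟨hB.prob, fun p => ?_, Filter.Eventually.of_forall hcall, ?_⟩, hcall⟩, heq⟩
  · exact Measurable.ite hNm measurable_const (hB.meas p)
  · intro n p l a hp
    rw [← hB.char n p l a hp]
    refine integral_congr_ae ?_
    filter_upwards [heq] with ω hω
    simp only [hω]

end Pool.Agent.T2H03.DS
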