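import Pool.Agent.T2H03.DS.Stm

/-! # Package SH: the increments of the sheet to the right and to the left of `a` -/

set_option autoImplicit false

namespace Pool.Agent.T2H03.DS

open MeasureTheory ProbabilityTheory Finset Filter Topology Pool.Agent.Helper41
open scoped ENNReal NNReal

namespace PkgSH

variable {d : ℕ} {I J L : Type}

/-- the upper point -/
def P1 (s : I → ℝ) (u : J → ℝ) (a : ℝ) : Fin d × Cell I J L → ℝ × ℝ
  | (_, Sum.inl x) => (s x.1, a + u x.2)
  | (_, Sum.inr x) => (s x.1, a)

/-- the lower point -/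
def P0 (s : I → ℝ) (v : L → ℝ) (a : ℝ) : Fin d × Cell I J L → ℝ × ℝ
  | (_, Sum.inl x) => (s x.1, a)
  | (_, Sum.inr x) => (s x.1, a - v x.2)

theorem Wg_eq {Ω : Type} (B : ℝ × ℝ → Ω → (Fin d → ℝ)) (s : I → ℝ) (u : J → ℝ) (v : L → ℝ) (a : ℝ)
    (t : Fin d × Cell I J L) (ω : Ω) :
    Wg B s u v a t ω = B (P1 s u a t) ω t.1 - B (P0 s v a t) ω t.1 := by
  obtain ⟨l, x | x⟩ := t <;> rfl

/-- covariance of the sheet -/
noncomputable def K0 (l l' : Fin d) (x y : ℝ × ℝ) : ℝ :=
  if l = l' then min x.1 y.1 * min x.2 y.2 else 0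

theorem cov (s : I → ℝ) (u : J → ℝ) (v : L → ℝ) (a : ℝ) (hu : ∀ j, 0 ≤ u j) (hv : ∀ k, 0 ≤ v k)
    (t t' : Fin d × Cell I J L) :
    K0 t.1 t'.1 (P1 s u a t) (P1 s u a t') - K0 t.1 t'.1 (P1 s u a t) (P0 s v a t') -
      K0 t.1 t'.1 (P0 s v a t) (P1 s u a t') + K0 t.1 t'.1 (P0 s v a t) (P0 s v a t') =
      gridK s u v t t' := by
  obtain ⟨l, x | x⟩ := t <;> obtain ⟨m, y | y⟩ := t' <;> unfold K0 gridK P1 P0 <;> simp only
  · have h1 := hu x.2
    have h2 := hu y.2
    by_cases h : l = m
    · simp only [if_pos h]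
      rw [min_eq_right (show a ≤ a + u x.2 by linarith), min_eq_left (show a ≤ a + u y.2 by linarith),
        min_self, min_add_add_left]
      ring
    · simp only [if_neg h]
      ring
  · have h1 := hu x.2
    have h2 := hv y.2
    by_cases h : l = m
    · simp only [if_pos h]
      rw [min_eq_right (show a ≤ a + u x.2 by linarith),
        min_eq_right (show a - v y.2 ≤ a + u x.2 by linarith), min_self,
        min_eq_right (show a - v y.2 ≤ a by linarith)]
      ring
    · simp only [if_neg h]
      ring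
  · have h1 := hv x.2
    have h2 := hu y.2
    by_cases h : l = m
    · simp only [if_pos h]
      rw [min_eq_left (show a ≤ a + u y.2 by linarith), min_self,
        min_eq_left (show a - v x.2 ≤ a + u y.2 by linarith),
        min_eq_left (show a - v x.2 ≤ a by linarith)]
      ring
    · simp only [if_neg h]
      ring
  · have h1 := hv x.2
    have h2 := hv y.2
    by_cases h : l = m
    · simp only [if_pos h]
      rw [min_self, min_eq_right (show a - v y.2 ≤ a by linarith),
        min_eq_left (show a - v x.2 ≤ a by linarith), min_sub_sub_left]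
      have := min_add_max (v x.2) (v y.2)
      rw [← mul_sub, ← mul_sub, ← mul_add]
      congr 1
      linarith
    · simp only [if_neg h]
      ring

end PkgSH

theorem T_SH : P_SH := by
  intro d Ω _ P B hB I J L s u v a ha hs hu hv n q c
  have hch := hB.char (n + n) (Fin.append (fun i => PkgSH.P1 s u a (q i)) (fun i => PkgSH.P0 s v a (q i)))
    (Fin.append (fun i => (q i).1) (fun i => (q i).1)) (Fin.append c (fun i => -c i)) (by
      intro i
      refine Fin.addCases (fun i => ?_) (fun i => ?_) i
      · rw [Fin.append_left]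
        obtain ⟨l, x | x⟩ := q i
        · exact ⟨hs _, add_nonneg ha (hu _)⟩
        · exact ⟨hs _, ha⟩
      · rw [Fin.append_right]
        obtain ⟨l, x | x⟩ := q i
        · exact ⟨hs _, ha⟩
        · exact ⟨hs _, sub_nonneg.2 (hv _).2⟩)
  have e1 : ∀ ω, ∑ i, c i * Wg B s u v a (q i) ω =
      ∑ i, Fin.append c (fun i => -c i) i *
        B (Fin.append (fun i => PkgSH.P1 s u a (q i)) (fun i => PkgSH.P0 s v a (q i)) i) ω
          (Fin.append (fun i => (q i).1) (fun i => (q i).1) i) := by
    intro ω
    rw [Fin.sum_univ_add]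
    simp only [Fin.append_left, Fin.append_right]
    rw [← Finset.sum_add_distrib]
    refine Finset.sum_congr rfl fun i _ => ?_
    rw [PkgSH.Wg_eq]
    ring
  have e2 : ∑ i, ∑ j, c i * c j * gridK s u v (q i) (q j) =
      ∑ i, ∑ j, Fin.append c (fun i => -c i) i * Fin.append c (fun i => -c i) j *
        (if Fin.append (fun i => (q i).1) (fun i => (q i).1) i =
            Fin.append (fun i => (q i).1) (fun i => (q i).1) j then
          min (Fin.append (fun i => PkgSH.P1 s u a (q i)) (fun i => PkgSH.P0 s v a (q i)) i).1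
            (Fin.append (fun i => PkgSH.P1 s u a (q i)) (fun i => PkgSH.P0 s v a (q i)) j).1 *
          min (Fin.append (fun i => PkgSH.P1 s u a (q i)) (fun i => PkgSH.P0 s v a (q i)) i).2
            (Fin.append (fun i => PkgSH.P1 s u a (q i)) (fun i => PkgSH.P0 s v a (q i)) j).2 else 0) := by
    rw [Fin.sum_univ_add]
    simp only [Fin.sum_univ_add, Fin.append_left, Fin.append_right]
    rw [← Finset.sum_add_distrib]
    refine Finset.sum_congr rfl fun i _ => ?_
    rw [← Finset.sum_add_distrib, ← Finset.sum_add_distrib, ← Finset.sum_add_distrib]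
    refine Finset.sum_congr rfl fun j _ => ?_
    rw [← PkgSH.cov s u v a hu (fun k => (hv k).1)]
    unfold PkgSH.K0
    ring
  simp only [e1]
  rw [hch, e2]

end Pool.Agent.T2H03.DS
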