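import Pool.Agent.T2H03.DS.Stm

/-! # Package SLICE -/

set_option autoImplicit false

namespace Pool.Agent.T2H03.DS

open MeasureTheory ProbabilityTheory Finset Filter Topology Pool.Agent.Helper41
open scoped ENNReal NNReal

namespace Slice

theorem mul_le_sq (a b : ℝ≥0∞) : a * b ≤ a ^ 2 + b ^ 2 := by
  rcases le_total a b with h | h
  · calc a * b ≤ b * b := mul_le_mul_left h b
      _ = b ^ 2 := (sq b).symm
      _ ≤ a ^ 2 + b ^ 2 := le_add_self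
  · calc a * b ≤ a * a := mul_le_mul_right h a
      _ = a ^ 2 := (sq a).symm
      _ ≤ a ^ 2 + b ^ 2 := le_self_add

theorem sum_sq_le {ι : Type} (K : Finset ι) (b : ι → ℝ≥0∞) :
    (∑ k ∈ K, b k) ^ 2 ≤ 2 * K.card * ∑ k ∈ K, b k ^ 2 := by
  rw [sq, Finset.sum_mul_sum]
  calc ∑ i ∈ K, ∑ j ∈ K, b i * b j ≤ ∑ i ∈ K, ∑ j ∈ K, (b i ^ 2 + b j ^ 2) :=
        Finset.sum_le_sum fun i _ => Finset.sum_le_sum fun j _ => mul_le_sq _ _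
    _ = 2 * K.card * ∑ k ∈ K, b k ^ 2 := by
        simp only [Finset.sum_add_distrib, Finset.sum_const, nsmul_eq_mul]
        rw [← Finset.mul_sum]
        ring

theorem floor_close {δ x y : ℝ} (hδ : 0 < δ) (h : |x - y| ≤ δ) :
    ⌊y / δ⌋ - ⌊x / δ⌋ ∈ Finset.Icc (-1 : ℤ) 1 := by
  have h1 := abs_le.1 h
  have h2 : y / δ ≤ x / δ + 1 := by
    rw [← sub_le_iff_le_add', ← sub_div, div_le_one hδ]; linarith [h1.1]
  have h3 : x / δ ≤ y / δ + 1 := by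
    rw [← sub_le_iff_le_add', ← sub_div, div_le_one hδ]; linarith [h1.2]
  have h4 : ⌊y / δ⌋ ≤ ⌊x / δ⌋ + 1 := by
    have := Int.floor_le_floor h2
    rwa [Int.floor_add_one] at this
  have h5 : ⌊x / δ⌋ ≤ ⌊y / δ⌋ + 1 := by
    have := Int.floor_le_floor h3
    rwa [Int.floor_add_one] at this
  rw [Finset.mem_Icc]
  omega

theorem close_of_floor {δ x y : ℝ} (hδ : 0 < δ) (h : ⌊x / δ⌋ = ⌊y / δ⌋) : |x - y| ≤ δ := by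
  have h1 := Int.abs_sub_lt_one_of_floor_eq_floor h
  rw [← sub_div, abs_div, abs_of_pos hδ, div_lt_one hδ] at h1
  exact h1.le

/-- the planar cell of a point -/
noncomputable def g (δ : ℝ) (p : ℝ × ℝ) : ℤ × ℤ := (⌊p.1 / δ⌋, ⌊p.2 / δ⌋)

/-- the cell of a point -/
noncomputable def G (δ : ℝ) (x : ℝ × ℝ × ℝ) : (ℤ × ℤ) × ℤ := (g δ (x.1, x.2.1), ⌊x.2.2 / δ⌋)

theorem meas_g (δ : ℝ) : Measurable (g δ) := by
  unfold g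
  fun_prop

theorem meas_G (δ : ℝ) : Measurable (G δ) := by
  unfold G g
  fun_prop

theorem step1 (μ : Measure (ℝ × ℝ)) [SFinite μ] {δ : ℝ} (hδ : 0 < δ) :
    (μ.prod μ) {z | |z.1.1 - z.2.1| ≤ δ ∧ |z.1.2 - z.2.2| ≤ δ} ≤
      18 * ∑' R : ℤ × ℤ, μ (g δ ⁻¹' {R}) ^ 2 := by
  set E : Finset (ℤ × ℤ) := Finset.Icc (-1 : ℤ) 1 ×ˢ Finset.Icc (-1 : ℤ) 1 with hE
  have hsub : {z : (ℝ × ℝ) × (ℝ × ℝ) | |z.1.1 - z.2.1| ≤ δ ∧ |z.1.2 - z.2.2| ≤ δ} ⊆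
      ⋃ R : ℤ × ℤ, ⋃ e ∈ E, (g δ ⁻¹' {R}) ×ˢ (g δ ⁻¹' {R + e}) := by
    rintro ⟨p, q⟩ ⟨h1, h2⟩
    simp only [Set.mem_iUnion, Set.mem_prod, Set.mem_preimage, Set.mem_singleton_iff]
    refine ⟨g δ p, g δ q - g δ p, ?_, rfl, by abel⟩
    rw [hE, Finset.mem_product]
    exact ⟨floor_close hδ h1, floor_close hδ h2⟩
  have hcard : E.card = 9 := by rw [hE]; rfl
  calc (μ.prod μ) {z | |z.1.1 - z.2.1| ≤ δ ∧ |z.1.2 - z.2.2| ≤ δ}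
      ≤ (μ.prod μ) (⋃ R : ℤ × ℤ, ⋃ e ∈ E, (g δ ⁻¹' {R}) ×ˢ (g δ ⁻¹' {R + e})) :=
        measure_mono hsub
    _ ≤ ∑' R : ℤ × ℤ, (μ.prod μ) (⋃ e ∈ E, (g δ ⁻¹' {R}) ×ˢ (g δ ⁻¹' {R + e})) :=
        measure_iUnion_le _
    _ ≤ ∑' R : ℤ × ℤ, ∑ e ∈ E, (μ (g δ ⁻¹' {R}) ^ 2 + μ (g δ ⁻¹' {R + e}) ^ 2) := by
        refine ENNReal.tsum_le_tsum fun R => (measure_biUnion_finset_le _ _).trans ?_
        refine Finset.sum_le_sum fun e _ => ?_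
        rw [Measure.prod_prod]
        exact mul_le_sq _ _
    _ = ∑ e ∈ E, ∑' R : ℤ × ℤ, (μ (g δ ⁻¹' {R}) ^ 2 + μ (g δ ⁻¹' {R + e}) ^ 2) :=
        Summable.tsum_finsetSum fun _ _ => ENNReal.summable
    _ = ∑ e ∈ E, 2 * ∑' R : ℤ × ℤ, μ (g δ ⁻¹' {R}) ^ 2 := by
        refine Finset.sum_congr rfl fun e _ => ?_
        have h := (Equiv.addRight e).tsum_eq (fun R => μ (g δ ⁻¹' {R}) ^ 2)
        simp only [Equiv.coe_addRight] at h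
        rw [ENNReal.tsum_add, h, two_mul]
    _ = 18 * ∑' R : ℤ × ℤ, μ (g δ ⁻¹' {R}) ^ 2 := by
        rw [Finset.sum_const, hcard, nsmul_eq_mul, ← mul_assoc]
        norm_num

theorem step3 (ν : Measure (ℝ × ℝ × ℝ)) [SFinite ν] {δ : ℝ} (hδ : 0 < δ) :
    ∑' T : (ℤ × ℤ) × ℤ, ν (G δ ⁻¹' {T}) ^ 2 ≤
      (ν.prod ν) {z | |z.1.1 - z.2.1| ≤ δ ∧ |z.1.2.1 - z.2.2.1| ≤ δ ∧ |z.1.2.2 - z.2.2.2| ≤ δ} := by
  have hm : ∀ T : (ℤ × ℤ) × ℤ, MeasurableSet (G δ ⁻¹' {T}) := fun T =>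
    meas_G δ (measurableSet_singleton T)
  have h1 : ∀ T : (ℤ × ℤ) × ℤ, ν (G δ ⁻¹' {T}) ^ 2 = (ν.prod ν) ((G δ ⁻¹' {T}) ×ˢ (G δ ⁻¹' {T})) := by
    intro T
    rw [Measure.prod_prod, sq]
  simp only [h1]
  rw [← measure_iUnion]
  · refine measure_mono ?_
    intro z hz
    simp only [Set.mem_iUnion, Set.mem_prod, Set.mem_preimage, Set.mem_singleton_iff] at hz
    obtain ⟨T, h1, h2⟩ := hz
    have h : G δ z.1 = G δ z.2 := h1.trans h2.symm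
    simp only [G, g, Prod.mk.injEq] at h
    exact ⟨close_of_floor hδ h.1.1, close_of_floor hδ h.1.2, close_of_floor hδ h.2⟩
  · intro T T' hT
    rw [Function.onFun, Set.disjoint_left]
    rintro z ⟨h1, _⟩ ⟨h2, _⟩
    exact hT (h1.symm.trans h2)
  · exact fun T => (hm T).prod (hm T)

theorem step2 (ν : Measure (ℝ × ℝ × ℝ)) {α β δ : ℝ} (hδ : 0 < δ)
    (hν : ν {x | x.2.2 < α ∨ β < x.2.2} = 0) (R : ℤ × ℤ) :
    (ν.map fun x => (x.1, x.2.1)) (g δ ⁻¹' {R}) ≤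
      ∑ k ∈ Finset.Icc ⌊α / δ⌋ ⌊β / δ⌋, ν (G δ ⁻¹' {(R, k)}) := by
  rw [Measure.map_apply (by fun_prop) (meas_g δ (measurableSet_singleton R))]
  have hsub : (fun x : ℝ × ℝ × ℝ => (x.1, x.2.1)) ⁻¹' (g δ ⁻¹' {R}) ⊆
      {x | x.2.2 < α ∨ β < x.2.2} ∪ ⋃ k ∈ Finset.Icc ⌊α / δ⌋ ⌊β / δ⌋, G δ ⁻¹' {(R, k)} := by
    intro x hx
    by_cases h : x.2.2 < α ∨ β < x.2.2
    · exact Or.inl h
    · right
      push Not at h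
      simp only [Set.mem_preimage, Set.mem_singleton_iff] at hx
      simp only [Set.mem_iUnion, Set.mem_preimage, Set.mem_singleton_iff]
      refine ⟨⌊x.2.2 / δ⌋, ?_, ?_⟩
      · rw [Finset.mem_Icc]
        exact ⟨Int.floor_le_floor (div_le_div_of_nonneg_right h.1 hδ.le),
          Int.floor_le_floor (div_le_div_of_nonneg_right h.2 hδ.le)⟩
      · unfold G
        rw [hx]
  calc ν ((fun x : ℝ × ℝ × ℝ => (x.1, x.2.1)) ⁻¹' (g δ ⁻¹' {R}))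
      ≤ ν ({x | x.2.2 < α ∨ β < x.2.2} ∪ ⋃ k ∈ Finset.Icc ⌊α / δ⌋ ⌊β / δ⌋, G δ ⁻¹' {(R, k)}) :=
        measure_mono hsub
    _ ≤ ν {x | x.2.2 < α ∨ β < x.2.2} + ν (⋃ k ∈ Finset.Icc ⌊α / δ⌋ ⌊β / δ⌋, G δ ⁻¹' {(R, k)}) :=
        measure_union_le _ _
    _ = ν (⋃ k ∈ Finset.Icc ⌊α / δ⌋ ⌊β / δ⌋, G δ ⁻¹' {(R, k)}) := by rw [hν, zero_add]
    _ ≤ _ := measure_biUnion_finset_le _ _

theorem card_le {α β δ : ℝ} (hδ : 0 < δ) (hδ1 : δ ≤ 1) :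
    ENNReal.ofReal δ * ((Finset.Icc ⌊α / δ⌋ ⌊β / δ⌋).card : ℝ≥0∞) ≤
      ENNReal.ofReal (|β - α| + 2) := by
  rw [← ENNReal.ofReal_natCast, ← ENNReal.ofReal_mul hδ.le]
  refine ENNReal.ofReal_le_ofReal ?_
  rw [Int.card_Icc]
  have h0 : 0 ≤ |β - α| := abs_nonneg _
  rcases le_or_gt (⌊β / δ⌋ + 1 - ⌊α / δ⌋) 0 with h | h
  · rw [Int.toNat_of_nonpos h]
    simp only [Nat.cast_zero, mul_zero]
    linarith
  · have h1 : (((⌊β / δ⌋ + 1 - ⌊α / δ⌋).toNat : ℕ) : ℝ) = (⌊β / δ⌋ : ℝ) + 1 - ⌊α / δ⌋ := by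
      have : (((⌊β / δ⌋ + 1 - ⌊α / δ⌋).toNat : ℤ) : ℝ) = ((⌊β / δ⌋ + 1 - ⌊α / δ⌋ : ℤ) : ℝ) := by
        rw [Int.toNat_of_nonneg h.le]
      rw [Int.cast_natCast] at this
      rw [this]
      push_cast
      ring
    rw [h1]
    have h2 := Int.floor_le (β / δ)
    have h3 := Int.lt_floor_add_one (α / δ)
    have h4 : (⌊β / δ⌋ : ℝ) + 1 - ⌊α / δ⌋ ≤ (β - α) / δ + 2 := by
      rw [sub_div]; linarith
    calc δ * ((⌊β / δ⌋ : ℝ) + 1 - ⌊α / δ⌋) ≤ δ * ((β - α) / δ + 2) :=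
          mul_le_mul_of_nonneg_left h4 hδ.le
      _ = (β - α) + 2 * δ := by field_simp
      _ ≤ |β - α| + 2 := by linarith [le_abs_self (β - α)]

end Slice

open Slice in
theorem T_SLICE : P_SLICE := by
  intro α β
  refine ⟨36 * ENNReal.ofReal (|β - α| + 2), ENNReal.mul_ne_top (by norm_num) ENNReal.ofReal_ne_top,
    ?_⟩
  intro ν hν hz δ hδ hδ1
  set μ : Measure (ℝ × ℝ) := ν.map fun x => (x.1, x.2.1) with hμ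
  haveI : IsProbabilityMeasure μ :=
    Measure.isProbabilityMeasure_map (by fun_prop : Measurable fun x : ℝ × ℝ × ℝ => (x.1, x.2.1)).aemeasurable
  set K : Finset ℤ := Finset.Icc ⌊α / δ⌋ ⌊β / δ⌋ with hK
  have h2 : ∑' R : ℤ × ℤ, μ (g δ ⁻¹' {R}) ^ 2 ≤
      2 * K.card * ∑' T : (ℤ × ℤ) × ℤ, ν (G δ ⁻¹' {T}) ^ 2 := by
    calc ∑' R : ℤ × ℤ, μ (g δ ⁻¹' {R}) ^ 2
        ≤ ∑' R : ℤ × ℤ, 2 * K.card * ∑' k : ℤ, ν (G δ ⁻¹' {(R, k)}) ^ 2 := by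
          refine ENNReal.tsum_le_tsum fun R => ?_
          calc μ (g δ ⁻¹' {R}) ^ 2 ≤ (∑ k ∈ K, ν (G δ ⁻¹' {(R, k)})) ^ 2 :=
                pow_le_pow_left' (step2 ν hδ hz R) 2
            _ ≤ 2 * K.card * ∑ k ∈ K, ν (G δ ⁻¹' {(R, k)}) ^ 2 := sum_sq_le K _
            _ ≤ _ := by
                refine mul_le_mul_right ?_ _
                exact ENNReal.sum_le_tsum K
      _ = 2 * K.card * ∑' T : (ℤ × ℤ) × ℤ, ν (G δ ⁻¹' {T}) ^ 2 := by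
          rw [ENNReal.tsum_mul_left]
          congr 1
          exact (ENNReal.tsum_prod (f := fun (R : ℤ × ℤ) (k : ℤ) => ν (G δ ⁻¹' {(R, k)}) ^ 2)).symm
  calc ENNReal.ofReal δ * (μ.prod μ) {z | |z.1.1 - z.2.1| ≤ δ ∧ |z.1.2 - z.2.2| ≤ δ}
      ≤ ENNReal.ofReal δ * (18 * (2 * K.card *
          ∑' T : (ℤ × ℤ) × ℤ, ν (G δ ⁻¹' {T}) ^ 2)) :=
        mul_le_mul_right ((step1 μ hδ).trans (mul_le_mul_right h2 _)) _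
    _ = 36 * (ENNReal.ofReal δ * K.card) * ∑' T : (ℤ × ℤ) × ℤ, ν (G δ ⁻¹' {T}) ^ 2 := by
        ring
    _ ≤ 36 * ENNReal.ofReal (|β - α| + 2) *
        (ν.prod ν) {z | |z.1.1 - z.2.1| ≤ δ ∧ |z.1.2.1 - z.2.2.1| ≤ δ ∧ |z.1.2.2 - z.2.2.2| ≤ δ} :=
        mul_le_mul' (mul_le_mul_right (card_le hδ hδ1) _) (step3 ν hδ)

end Pool.Agent.T2H03.DS
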