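import Pool.Agent.T2H03.DS.Stm

/-! # Package SM: first and second moments -/

set_option autoImplicit false

namespace Pool.Agent.T2H03.DS

open MeasureTheory ProbabilityTheory Finset Filter Topology Pool.Agent.Helper41
open scoped ENNReal NNReal

namespace SMaux

lemma gauss_upper (m : ℝ) {v : ℝ≥0} (hv : v ≠ 0) (a b w : ℝ) (hw : 0 < w)
    (hwv : w ^ 2 ≤ 2 * Real.pi * v) :
    gaussianReal m v (Set.Icc a b) ≤ ENNReal.ofReal ((b - a) / w) := by
  rw [gaussianReal_apply _ hv]
  have h1 : ∀ x, gaussianPDF m v x ≤ ENNReal.ofReal w⁻¹ := by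
    intro x
    apply ENNReal.ofReal_le_ofReal
    unfold gaussianPDFReal
    have hs : w ≤ √(2 * Real.pi * v) := Real.le_sqrt_of_sq_le hwv
    have h2 : (√(2 * Real.pi * v))⁻¹ ≤ w⁻¹ := inv_anti₀ hw hs
    have h3 : Real.exp (-(x - m) ^ 2 / (2 * v)) ≤ 1 := by
      apply Real.exp_le_one_iff.2
      apply div_nonpos_of_nonpos_of_nonneg
      · nlinarith [sq_nonneg (x - m)]
      · positivity
    calc (√(2 * Real.pi * v))⁻¹ * Real.exp (-(x - m) ^ 2 / (2 * v)) ≤ w⁻¹ * 1 := by
          apply mul_le_mul h2 h3 (Real.exp_nonneg _) (by positivity)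
      _ = w⁻¹ := mul_one _
  calc ∫⁻ x in Set.Icc a b, gaussianPDF m v x ≤ ∫⁻ x in Set.Icc a b, ENNReal.ofReal w⁻¹ :=
        lintegral_mono fun x => h1 x
    _ = ENNReal.ofReal w⁻¹ * ENNReal.ofReal (b - a) := by
        rw [setLIntegral_const, Real.volume_Icc]
    _ = ENNReal.ofReal ((b - a) / w) := by
        rw [← ENNReal.ofReal_mul (by positivity)]
        congr 1
        field_simp

lemma gauss_lower {v : ℝ≥0} (η K2 : ℝ) (hη : 0 < η) (hK2 : 0 < K2) (h1 : (v : ℝ) ≤ 2 * K2)
    (h2 : 2 * η ^ 2 ≤ (v : ℝ)) (ε : ℝ) (hε : 0 < ε) (hε1 : ε ≤ 1) :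
    ENNReal.ofReal ((2 * ((√(2 * Real.pi * (2 * K2)))⁻¹ * Real.exp (-(1 / (4 * η ^ 2))))) * ε) ≤
      gaussianReal 0 v (Set.Icc (-ε) ε) := by
  have hv0 : 0 < (v : ℝ) := by
    have : 0 < 2 * η ^ 2 := by positivity
    linarith
  have hv : v ≠ 0 := by
    intro h
    rw [h] at hv0
    simp at hv0
  rw [gaussianReal_apply _ hv]
  set c1 : ℝ := (√(2 * Real.pi * (2 * K2)))⁻¹ * Real.exp (-(1 / (4 * η ^ 2))) with hc1
  have hc1' : 0 ≤ c1 := by positivity
  have h3 : ∀ x ∈ Set.Icc (-ε) ε, ENNReal.ofReal c1 ≤ gaussianPDF 0 v x := by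
    intro x hx
    apply ENNReal.ofReal_le_ofReal
    unfold gaussianPDFReal
    rw [hc1]
    have hpi := Real.pi_pos
    apply mul_le_mul
    · apply inv_anti₀ (by positivity)
      apply Real.sqrt_le_sqrt
      have : 0 < 2 * Real.pi := by positivity
      exact mul_le_mul_of_nonneg_left h1 this.le
    · apply Real.exp_le_exp.2
      have hx2 : x ^ 2 ≤ 1 := by
        have := hx.1
        have := hx.2
        nlinarith
      have e1 : -(x - 0) ^ 2 / (2 * (v : ℝ)) = -(x ^ 2 / (2 * v)) := by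
        rw [sub_zero, neg_div]
      rw [e1]
      apply neg_le_neg
      apply div_le_div₀ (by norm_num) hx2 (by positivity)
      linarith
    · exact Real.exp_nonneg _
    · positivity
  calc ENNReal.ofReal (2 * c1 * ε) = ENNReal.ofReal c1 * ENNReal.ofReal (ε - -ε) := by
        rw [← ENNReal.ofReal_mul hc1']
        congr 1
        ring
    _ = ∫⁻ x in Set.Icc (-ε) ε, ENNReal.ofReal c1 := by
        rw [setLIntegral_const, Real.volume_Icc]
    _ ≤ ∫⁻ x in Set.Icc (-ε) ε, gaussianPDF 0 v x :=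
        setLIntegral_mono' measurableSet_Icc h3

/-- sub-family -/
lemma CharKernel.comp {Ω : Type} [MeasurableSpace Ω] {P : Measure Ω} {T T' : Type} {X : T → Ω → ℝ}
    {K : T → T → ℝ} (h : CharKernel X P K) (e : T' → T) :
    CharKernel (fun t => X (e t)) P (fun a b => K (e a) (e b)) :=
  fun n q a => h n (fun i => e (q i)) a

/-- block lemma -/
lemma block (hLIN : P_LIN) {Ω : Type} [MeasurableSpace Ω] (P : Measure Ω) (d : ℕ) (S T' : Type) [Fintype S]
    (X : Fin d × S → Ω → ℝ) (G : S → S → ℝ)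
    (h : CharKernel X P (fun a b => if a.1 = b.1 then G a.2 b.2 else 0)) (ι : T' → Fin d) (A : T' → S → ℝ) :
    CharKernel (fun t' ω => ∑ i, A t' i * X (ι t', i) ω) P
      (fun a b => if ι a = ι b then ∑ i, ∑ j, A a i * A b j * G i j else 0) := by
  have h1 := hLIN Ω P (Fin d × S) T' X _ h (fun t' t => if ι t' = t.1 then A t' t.2 else 0)
  have e1 : (fun (t' : T') (ω : Ω) => ∑ t : Fin d × S, (if ι t' = t.1 then A t' t.2 else 0) * X t ω) =
      (fun t' ω => ∑ i, A t' i * X (ι t', i) ω) := by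
    funext t' ω
    rw [Fintype.sum_prod_type]
    rw [Finset.sum_eq_single (ι t')]
    · simp
    · intro b _ hb
      apply Finset.sum_eq_zero
      intro i _
      simp [Ne.symm hb]
    · intro hb
      exact absurd (Finset.mem_univ _) hb
  have e2 : (fun (a b : T') => ∑ t : Fin d × S, ∑ t' : Fin d × S, (if ι a = t.1 then A a t.2 else 0) *
      (if ι b = t'.1 then A b t'.2 else 0) * (if t.1 = t'.1 then G t.2 t'.2 else 0)) =
      (fun a b => if ι a = ι b then ∑ i, ∑ j, A a i * A b j * G i j else 0) := by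
    funext a b
    rw [Fintype.sum_prod_type]
    rw [Finset.sum_eq_single (ι a)]
    · have : ∀ i : S, (∑ t' : Fin d × S, (if ι a = (ι a, i).1 then A a (ι a, i).2 else 0) *
          (if ι b = t'.1 then A b t'.2 else 0) * (if (ι a, i).1 = t'.1 then G (ι a, i).2 t'.2 else 0)) =
          if ι a = ι b then ∑ j, A a i * A b j * G i j else 0 := by
        intro i
        rw [Fintype.sum_prod_type]
        rw [Finset.sum_eq_single (ι b)]
        · by_cases hab : ι a = ι b
          · simp [hab]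
          · simp [hab]
        · intro c _ hc
          apply Finset.sum_eq_zero
          intro j _
          simp [Ne.symm hc]
        · intro hb
          exact absurd (Finset.mem_univ _) hb
      rw [Finset.sum_congr rfl fun i _ => this i]
      by_cases hab : ι a = ι b
      · simp [hab]
      · simp [hab]
    · intro c _ hc
      apply Finset.sum_eq_zero
      intro i _
      apply Finset.sum_eq_zero
      intro j _
      simp [Ne.symm hc]
    · intro hb
      exact absurd (Finset.mem_univ _) hb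
  rw [e1, e2] at h1
  exact h1

/-- the product bound -/
lemma prodBound (d : ℕ) (v0 v1 : ℝ≥0) (θ ε a b : ℝ) (ha : 0 ≤ a) (hb : 0 ≤ b)
    (h0 : gaussianReal 0 v0 (Set.Icc (-ε) ε) ≤ ENNReal.ofReal a)
    (h1 : ∀ m : ℝ, gaussianReal 0 v1 (Set.Icc (-ε - m) (ε - m)) ≤ ENNReal.ofReal b) :
    (Measure.pi fun t : Fin d ⊕ Fin d => gaussianReal 0 (Sum.elim (fun _ => v0) (fun _ => v1) t))
      {y | ∀ l, |y (Sum.inl l)| ≤ ε ∧ |y (Sum.inr l) + θ * y (Sum.inl l)| ≤ ε} ≤ ENNReal.ofReal ((a * b) ^ d) := by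
  have hmp := measurePreserving_sumPiEquivProdPi (X := fun _ : Fin d ⊕ Fin d => ℝ)
    (fun t : Fin d ⊕ Fin d => gaussianReal 0 (Sum.elim (fun _ => v0) (fun _ => v1) t))
  set E' : Set ((Fin d → ℝ) × (Fin d → ℝ)) := {p | ∀ l, |p.1 l| ≤ ε ∧ |p.2 l + θ * p.1 l| ≤ ε} with hE'
  have hmE' : MeasurableSet E' := by
    have e0 : E' = ⋂ l, ({p : (Fin d → ℝ) × (Fin d → ℝ) | |p.1 l| ≤ ε} ∩
        {p : (Fin d → ℝ) × (Fin d → ℝ) | |p.2 l + θ * p.1 l| ≤ ε}) := by
      ext p
      simp [hE', Set.mem_iInter]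
    rw [e0]
    refine MeasurableSet.iInter fun l => ?_
    have m1 : Measurable fun p : (Fin d → ℝ) × (Fin d → ℝ) => |p.1 l| := by fun_prop
    have m2 : Measurable fun p : (Fin d → ℝ) × (Fin d → ℝ) => |p.2 l + θ * p.1 l| := by fun_prop
    exact (measurableSet_le m1 measurable_const).inter (measurableSet_le m2 measurable_const)
  have e1 : {y : Fin d ⊕ Fin d → ℝ | ∀ l, |y (Sum.inl l)| ≤ ε ∧ |y (Sum.inr l) + θ * y (Sum.inl l)| ≤ ε} =
      (MeasurableEquiv.sumPiEquivProdPi (fun _ : Fin d ⊕ Fin d => ℝ)) ⁻¹' E' := by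
    ext y
    rfl
  rw [e1, hmp.measure_preimage hmE'.nullMeasurableSet, Measure.prod_apply hmE']
  set Bx : Set (Fin d → ℝ) := Set.pi Set.univ (fun _ => Set.Icc (-ε) ε) with hBx
  have hmBx : MeasurableSet Bx := MeasurableSet.univ_pi fun _ => measurableSet_Icc
  have key : ∀ x : Fin d → ℝ, (Measure.pi fun i : Fin d => gaussianReal 0 v1) (Prod.mk x ⁻¹' E') ≤
      Bx.indicator (fun _ => ENNReal.ofReal b ^ d) x := by
    intro x
    by_cases hx : x ∈ Bx
    · rw [Set.indicator_of_mem hx]
      have hsub : Prod.mk x ⁻¹' E' ⊆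
          Set.pi Set.univ (fun l => Set.Icc (-ε - θ * x l) (ε - θ * x l)) := by
        intro z hz l _
        have h3 := (hz l).2
        rw [abs_le] at h3
        simp only at h3
        constructor
        · linarith [h3.1]
        · linarith [h3.2]
      calc (Measure.pi fun i : Fin d => gaussianReal 0 v1) (Prod.mk x ⁻¹' E') ≤
          (Measure.pi fun i : Fin d => gaussianReal 0 v1)
            (Set.pi Set.univ (fun l => Set.Icc (-ε - θ * x l) (ε - θ * x l))) := measure_mono hsub
        _ = ∏ l, gaussianReal 0 v1 (Set.Icc (-ε - θ * x l) (ε - θ * x l)) := Measure.pi_pi _ _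
        _ ≤ ∏ _l : Fin d, ENNReal.ofReal b := Finset.prod_le_prod' fun l _ => h1 (θ * x l)
        _ = ENNReal.ofReal b ^ d := by simp
    · rw [Set.indicator_of_notMem hx]
      have : Prod.mk x ⁻¹' E' = ∅ := by
        rw [Set.eq_empty_iff_forall_notMem]
        intro z hz
        apply hx
        intro l _
        exact abs_le.1 (hz l).1
      rw [this]
      simp
  calc ∫⁻ x, (Measure.pi fun i : Fin d => gaussianReal 0 v1) (Prod.mk x ⁻¹' E')
        ∂(Measure.pi fun i : Fin d => gaussianReal 0 v0)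
      ≤ ∫⁻ x, Bx.indicator (fun _ => ENNReal.ofReal b ^ d) x ∂(Measure.pi fun i : Fin d => gaussianReal 0 v0) :=
        lintegral_mono key
    _ = ENNReal.ofReal b ^ d * (Measure.pi fun i : Fin d => gaussianReal 0 v0) Bx := by
        rw [lintegral_indicator hmBx, setLIntegral_const]
    _ = ENNReal.ofReal b ^ d * ∏ _l : Fin d, gaussianReal 0 v0 (Set.Icc (-ε) ε) := by
        rw [hBx, Measure.pi_pi]
    _ ≤ ENNReal.ofReal b ^ d * ∏ _l : Fin d, ENNReal.ofReal a := by
        gcongr
    _ = ENNReal.ofReal ((a * b) ^ d) := by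
        rw [Finset.prod_const, Finset.card_univ, Fintype.card_fin, ← mul_pow, ← ENNReal.ofReal_mul hb,
          ENNReal.ofReal_pow (by positivity), mul_comm b a]

/-- the scalar inequality -/
lemma scal (η K2 : ℝ) (hη : 0 < η) (s s' u u' v v' : ℝ) (hs : η ≤ s) (hs' : η ≤ s') (hu : η ≤ u) (hu' : η ≤ u')
    (hv : η ≤ v) (hv' : η ≤ v') (hV : s * (u + v) ≤ 2 * K2) :
    η ^ 3 / K2 * (|s - s'| + |u - u'| + |v - v'|) ≤
      s' * (u' + v') - (min s s' * (min u u' + min v v')) ^ 2 / (s * (u + v)) := by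
  set m := min s s' with hm
  set n := min u u' with hn
  set k := min v v' with hk
  have hmη : η ≤ m := le_min hs hs'
  have hnη : η ≤ n := le_min hu hu'
  have hkη : η ≤ k := le_min hv hv'
  have hms : m ≤ s := min_le_left _ _
  have hms' : m ≤ s' := min_le_right _ _
  have hnu : n ≤ u := min_le_left _ _
  have hnu' : n ≤ u' := min_le_right _ _
  have hkv : k ≤ v := min_le_left _ _
  have hkv' : k ≤ v' := min_le_right _ _
  have es : |s - s'| = (s - m) + (s' - m) := by
    rcases le_total s s' with h | h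
    · rw [abs_of_nonpos (by linarith), hm, min_eq_left h]; ring
    · rw [abs_of_nonneg (by linarith), hm, min_eq_right h]; ring
  have eu : |u - u'| = (u - n) + (u' - n) := by
    rcases le_total u u' with h | h
    · rw [abs_of_nonpos (by linarith), hn, min_eq_left h]; ring
    · rw [abs_of_nonneg (by linarith), hn, min_eq_right h]; ring
  have ev : |v - v'| = (v - k) + (v' - k) := by
    rcases le_total v v' with h | h
    · rw [abs_of_nonpos (by linarith), hk, min_eq_left h]; ring
    · rw [abs_of_nonneg (by linarith), hk, min_eq_right h]; ring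
  set V := s * (u + v) with hVdef
  set V' := s' * (u' + v') with hV'def
  set Cv := m * (n + k) with hCv
  set ρ := |s - s'| + |u - u'| + |v - v'| with hρ
  have hρ0 : 0 ≤ ρ := by positivity
  have hVpos : 0 < V := by
    have : 0 < s := by linarith
    have : 0 < u + v := by linarith
    positivity
  have hK2 : 0 < K2 := by linarith
  have hCV : Cv ≤ V := by
    rw [hCv, hVdef]
    apply mul_le_mul hms (by linarith) (by linarith) (by linarith)
  have hCV' : Cv ≤ V' := by
    rw [hCv, hV'def]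
    apply mul_le_mul hms' (by linarith) (by linarith) (by linarith)
  have hC : 2 * η ^ 2 ≤ Cv := by
    rw [hCv]
    nlinarith
  have h1 : Cv * (V + V' - 2 * Cv) ≤ V * V' - Cv ^ 2 := by nlinarith [mul_nonneg (sub_nonneg.2 hCV) (sub_nonneg.2 hCV')]
  have h2 : η * ρ ≤ V + V' - 2 * Cv := by
    have a1 : η * (s - m) + η * (u - n) ≤ s * u - m * n := by
      nlinarith [mul_nonneg (sub_nonneg.2 hms) (sub_nonneg.2 hnη), mul_nonneg (sub_nonneg.2 hnu) (sub_nonneg.2 hs)]
    have a2 : η * (s' - m) + η * (u' - n) ≤ s' * u' - m * n := by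
      nlinarith [mul_nonneg (sub_nonneg.2 hms') (sub_nonneg.2 hnη), mul_nonneg (sub_nonneg.2 hnu') (sub_nonneg.2 hs')]
    have a3 : η * (v - k) ≤ s * v - m * k := by
      nlinarith [mul_nonneg (sub_nonneg.2 hms) (sub_nonneg.2 (hη.le.trans hkη)),
        mul_nonneg (sub_nonneg.2 hkv) (sub_nonneg.2 hs), mul_nonneg (sub_nonneg.2 hms) (by linarith : (0:ℝ) ≤ k)]
    have a4 : η * (v' - k) ≤ s' * v' - m * k := by
      nlinarith [mul_nonneg (sub_nonneg.2 hms') (sub_nonneg.2 (hη.le.trans hkη)),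
        mul_nonneg (sub_nonneg.2 hkv') (sub_nonneg.2 hs'), mul_nonneg (sub_nonneg.2 hms') (by linarith : (0:ℝ) ≤ k)]
    rw [hρ, es, eu, ev, hVdef, hV'def, hCv]
    nlinarith
  have h3 : V' - Cv ^ 2 / V = (V * V' - Cv ^ 2) / V := by
    field_simp
  rw [h3, le_div_iff₀ hVpos]
  have h4 : 2 * η ^ 2 * (η * ρ) ≤ Cv * (V + V' - 2 * Cv) :=
    mul_le_mul hC h2 (by positivity) (by linarith [mul_pos hη hη])
  have h5 : η ^ 3 / K2 * ρ * V ≤ η ^ 3 / K2 * ρ * (2 * K2) :=
    mul_le_mul_of_nonneg_left hV (by positivity)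
  have h6 : η ^ 3 / K2 * ρ * (2 * K2) = 2 * η ^ 2 * (η * ρ) := by
    field_simp
  linarith

end SMaux

open SMaux in
theorem T_SM (hLIN : P_LIN) (hDIAG : P_DIAG) : P_SM := by
  intro d η K hη
  set K2 : ℝ := K ^ 2 + 1 with hK2def
  have hK2 : 0 < K2 := by positivity
  set c0 : ℝ := 2 * ((√(2 * Real.pi * (2 * K2)))⁻¹ * Real.exp (-(1 / (4 * η ^ 2)))) with hc0
  have hpi := Real.pi_pos
  have hc0pos : 0 < c0 := by positivity
  set c' : ℝ := η ^ 3 / K2 with hc'
  have hc'pos : 0 < c' := by positivity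
  set C2 : ℝ := 1 + 2 / √c' with hC2
  have hC2pos : 0 < C2 := by positivity
  refine ⟨(C2 / η) ^ d, c0 ^ d, by positivity, by positivity, ?_⟩
  intro I J L s u v hs hu hv Ω _ P _ W hWm hW
  -- the scalar bounds
  have hVle : ∀ r : I × J × L, s r.1 * (u r.2.1 + v r.2.2) ≤ 2 * K2 := by
    intro r
    have a1 := hs r.1
    have a2 := hu r.2.1
    have a3 := hv r.2.2
    have hK : 0 < K := by linarith [a1.1, a1.2]
    have : s r.1 * (u r.2.1 + v r.2.2) ≤ K * (K + K) := by
      apply mul_le_mul a1.2 (by linarith [a2.2, a3.2]) (by linarith [a2.1, a3.1]) hK.le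
    nlinarith
  have hVge : ∀ r : I × J × L, 2 * η ^ 2 ≤ s r.1 * (u r.2.1 + v r.2.2) := by
    intro r
    have a1 := hs r.1
    have a2 := hu r.2.1
    have a3 := hv r.2.2
    nlinarith [mul_le_mul a1.1 (add_le_add a2.1 a3.1) (by linarith) (by linarith)]
  -- the family
  have hfam : ∀ r r' : I × J × L, ∀ q : Fin 4 → Cell I J L,
      q = ![Sum.inl (r.1, r.2.1), Sum.inr (r.1, r.2.2), Sum.inl (r'.1, r'.2.1), Sum.inr (r'.1, r'.2.2)] →
      CharKernel (fun (t : Fin d × Fin 4) => W (t.1, q t.2)) P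
        (fun a b => if a.1 = b.1 then
          (!![s r.1 * u r.2.1, 0, min (s r.1) (s r'.1) * min (u r.2.1) (u r'.2.1), 0;
              0, s r.1 * v r.2.2, 0, min (s r.1) (s r'.1) * min (v r.2.2) (v r'.2.2);
              min (s r.1) (s r'.1) * min (u r.2.1) (u r'.2.1), 0, s r'.1 * u r'.2.1, 0;
              0, min (s r.1) (s r'.1) * min (v r.2.2) (v r'.2.2), 0, s r'.1 * v r'.2.2] :
              Matrix (Fin 4) (Fin 4) ℝ) a.2 b.2 else 0) := by
    intro r r' q hq
    have h1 := CharKernel.comp hW (fun t : Fin d × Fin 4 => (t.1, q t.2))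
    convert h1 using 1
    funext a b
    obtain ⟨l, i⟩ := a
    obtain ⟨m, j⟩ := b
    by_cases hlm : l = m
    · fin_cases i <;> fin_cases j <;> simp [hq, gridK, hlm, min_comm]
    · fin_cases i <;> fin_cases j <;> simp [hq, gridK, hlm]
  refine ⟨?_, ?_⟩
  · -- first moment
    intro ε hε hε1 r
    set V : ℝ := s r.1 * (u r.2.1 + v r.2.2) with hV
    have hV0 : 0 ≤ V := by
      have := hVge r
      have : 0 ≤ 2 * η ^ 2 := by positivity
      linarith
    have h1 := block hLIN P d (Fin 4) (Fin d) _ _ (hfam r r _ rfl) id (fun _ => ![1, 1, 0, 0])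
    have e1 : (fun (l : Fin d) ω => ∑ i, (![1, 1, 0, 0] : Fin 4 → ℝ) i * W ((id l), ((![Sum.inl (r.1, r.2.1),
        Sum.inr (r.1, r.2.2), Sum.inl (r.1, r.2.1), Sum.inr (r.1, r.2.2)] : Fin 4 → Cell I J L) i)) ω) =
        fun l ω => Xg (vec W ω) r l := by
      funext l ω
      simp [Fin.sum_univ_four, Xg, vec]
    have h2 : CharKernel (fun l ω => Xg (vec W ω) r l) P (dK fun _ : Fin d => ((V.toNNReal : ℝ≥0) : ℝ)) := by
      rw [← e1]
      convert h1 using 1
      funext l m
      unfold dK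
      by_cases hlm : l = m
      · simp [hlm, Fin.sum_univ_four, max_eq_left hV0]
        rw [hV]
        ring
      · simp [hlm]
    have hm : ∀ l : Fin d, Measurable fun ω => Xg (vec W ω) r l := by
      intro l
      exact (hWm (l, _)).add (hWm (l, _))
    have h3 := hDIAG Ω P (Fin d) _ (fun _ => V.toNNReal) hm h2
    have e2 : {ω | ∀ l, |Xg (vec W ω) r l| ≤ ε} =
        (fun ω (l : Fin d) => Xg (vec W ω) r l) ⁻¹' (Set.pi Set.univ fun _ => Set.Icc (-ε) ε) := by
      ext ω
      simp only [Set.mem_setOf_eq, Set.mem_preimage, Set.mem_pi, Set.mem_univ, true_imp_iff, Set.mem_Icc, abs_le]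
    rw [e2, ← Measure.map_apply (measurable_pi_lambda _ hm) (MeasurableSet.univ_pi fun _ => measurableSet_Icc), h3,
      Measure.pi_pi]
    have hlow := gauss_lower (v := V.toNNReal) η K2 hη hK2 (by rw [Real.coe_toNNReal _ hV0]; exact hVle r)
      (by rw [Real.coe_toNNReal _ hV0]; exact hVge r) ε hε hε1
    calc ENNReal.ofReal (c0 ^ d * ε ^ d) = ∏ _l : Fin d, ENNReal.ofReal (c0 * ε) := by
          rw [Finset.prod_const, Finset.card_univ, Fintype.card_fin, ← ENNReal.ofReal_pow (by positivity), mul_pow c0 ε d]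
      _ ≤ ∏ _l : Fin d, gaussianReal 0 V.toNNReal (Set.Icc (-ε) ε) := Finset.prod_le_prod' fun l _ => hlow
  · -- second moment
    intro ε hε r r'
    set V : ℝ := s r.1 * (u r.2.1 + v r.2.2) with hV
    set V' : ℝ := s r'.1 * (u r'.2.1 + v r'.2.2) with hV'
    set Cv : ℝ := min (s r.1) (s r'.1) * (min (u r.2.1) (u r'.2.1) + min (v r.2.2) (v r'.2.2)) with hCv
    set θ : ℝ := Cv / V with hθ
    set ρ : ℝ := rg s u v r r' with hρ
    have hρ0 : 0 ≤ ρ := by
      rw [hρ]; unfold rg; positivity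
    have hVge' := hVge r
    have hVpos : 0 < V := by
      have : 0 < 2 * η ^ 2 := by positivity
      linarith
    have hscal := scal η K2 hη (s r.1) (s r'.1) (u r.2.1) (u r'.2.1) (v r.2.2) (v r'.2.2) (hs _).1 (hs _).1
      (hu _).1 (hu _).1 (hv _).1 (hv _).1 (hVle r)
    set VZ : ℝ := V' - Cv ^ 2 / V with hVZ
    have hVZge : c' * ρ ≤ VZ := hscal
    have hVZ0 : 0 ≤ VZ := le_trans (by positivity) hVZge
    have h1 := block hLIN P d (Fin 4) (Fin d ⊕ Fin d) _ _ (hfam r r' _ rfl) (Sum.elim id id)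
      (Sum.elim (fun _ => ![1, 1, 0, 0]) (fun _ => ![-θ, -θ, 1, 1]))
    set Y : Fin d ⊕ Fin d → Ω → ℝ := Sum.elim (fun l ω => Xg (vec W ω) r l)
      (fun l ω => Xg (vec W ω) r' l - θ * Xg (vec W ω) r l) with hY
    have h2 : CharKernel Y P (dK fun t : Fin d ⊕ Fin d =>
        (((Sum.elim (fun _ => V.toNNReal) (fun _ => VZ.toNNReal) t) : ℝ≥0) : ℝ)) := by
      convert h1 using 1
      · funext t ω
        rcases t with l | l
        · simp [hY, Fin.sum_univ_four, Xg, vec]
        · simp [hY, Fin.sum_univ_four, Xg, vec]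
          ring
      · funext a b
        unfold dK
        rcases a with l | l <;> rcases b with m | m
        · by_cases hlm : l = m
          · simp [hlm, Fin.sum_univ_four, max_eq_left hVpos.le]
            rw [hV]
            ring
          · simp [hlm]
        · by_cases hlm : l = m
          · simp [hlm, Fin.sum_univ_four]
            have : Cv = θ * V := by rw [hθ]; field_simp
            rw [hCv, hV] at this
            linarith
          · simp [hlm]
        · by_cases hlm : l = m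
          · simp [hlm, Fin.sum_univ_four]
            have : Cv = θ * V := by rw [hθ]; field_simp
            rw [hCv, hV] at this
            linarith
          · simp [hlm]
        · by_cases hlm : l = m
          · simp [hlm, Fin.sum_univ_four, Real.coe_toNNReal _ hVZ0]
            have h3 : Cv = θ * V := by rw [hθ]; field_simp
            have h4 : VZ = V' - 2 * θ * Cv + θ ^ 2 * V := by
              rw [hVZ]
              rw [h3]
              field_simp
              ring
            rw [h4, hV', hV, hCv]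
            ring
          · simp [hlm]
    have hmX : ∀ r : I × J × L, ∀ l : Fin d, Measurable fun ω => Xg (vec W ω) r l := by
      intro r l
      exact (hWm (l, _)).add (hWm (l, _))
    have hm : ∀ t, Measurable (Y t) := by
      intro t
      rcases t with l | l
      · exact hmX r l
      · exact (hmX r' l).sub ((hmX r l).const_mul θ)
    have h3 := hDIAG Ω P (Fin d ⊕ Fin d) Y _ hm h2
    set E : Set (Fin d ⊕ Fin d → ℝ) := {y | ∀ l, |y (Sum.inl l)| ≤ ε ∧ |y (Sum.inr l) + θ * y (Sum.inl l)| ≤ ε} with hE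
    have hmE : MeasurableSet E := by
      have e0 : E = ⋂ l, ({y : Fin d ⊕ Fin d → ℝ | |y (Sum.inl l)| ≤ ε} ∩
          {y : Fin d ⊕ Fin d → ℝ | |y (Sum.inr l) + θ * y (Sum.inl l)| ≤ ε}) := by
        ext p
        simp [hE, Set.mem_iInter]
      rw [e0]
      refine MeasurableSet.iInter fun l => ?_
      have m1 : Measurable fun y : Fin d ⊕ Fin d → ℝ => |y (Sum.inl l)| := by fun_prop
      have m2 : Measurable fun y : Fin d ⊕ Fin d → ℝ => |y (Sum.inr l) + θ * y (Sum.inl l)| := by fun_prop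
      exact (measurableSet_le m1 measurable_const).inter (measurableSet_le m2 measurable_const)
    have e2 : {ω | ∀ l, |Xg (vec W ω) r l| ≤ ε ∧ |Xg (vec W ω) r' l| ≤ ε} = (fun ω t => Y t ω) ⁻¹' E := by
      ext ω
      simp only [Set.mem_setOf_eq, Set.mem_preimage, hE, hY, Sum.elim_inl, Sum.elim_inr, sub_add_cancel]
    rw [e2, ← Measure.map_apply (measurable_pi_lambda _ hm) hmE, h3]
    have hpi1 : (3 : ℝ) < Real.pi := Real.pi_gt_three
    have hVn : V.toNNReal ≠ 0 := by
      intro h
      rw [Real.toNNReal_eq_zero] at h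
      linarith
    have ha : gaussianReal 0 V.toNNReal (Set.Icc (-ε) ε) ≤ ENNReal.ofReal (ε / η) := by
      have := gauss_upper 0 hVn (-ε) ε (2 * η) (by positivity) (by
        rw [Real.coe_toNNReal _ hVpos.le]
        nlinarith [sq_nonneg η])
      refine this.trans (ENNReal.ofReal_le_ofReal (le_of_eq ?_))
      field_simp
      ring
    have hb : ∀ m : ℝ, gaussianReal 0 VZ.toNNReal (Set.Icc (-ε - m) (ε - m)) ≤
        ENNReal.ofReal (C2 * (ε * (max ε (√ρ))⁻¹)) := by
      intro m
      rcases le_or_gt (√ρ) ε with h | h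
      · have : (1 : ℝ) ≤ C2 * (ε * (max ε (√ρ))⁻¹) := by
          rw [max_eq_left h, mul_inv_cancel₀ hε.ne', mul_one, hC2]
          have : 0 ≤ 2 / √c' := by positivity
          linarith
        calc gaussianReal 0 VZ.toNNReal (Set.Icc (-ε - m) (ε - m)) ≤ 1 := prob_le_one
          _ = ENNReal.ofReal 1 := by simp
          _ ≤ _ := ENNReal.ofReal_le_ofReal this
      · have hsρ : 0 < √ρ := hε.trans h
        have hρpos : 0 < ρ := Real.sqrt_pos.1 hsρ
        have hVZpos : 0 < VZ := lt_of_lt_of_le (by positivity) hVZge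
        have hVZn : VZ.toNNReal ≠ 0 := by
          intro h
          rw [Real.toNNReal_eq_zero] at h
          linarith
        have := gauss_upper 0 hVZn (-ε - m) (ε - m) (√c' * √ρ) (by positivity) (by
          rw [Real.coe_toNNReal _ hVZ0, mul_pow, Real.sq_sqrt hc'pos.le, Real.sq_sqrt hρ0]
          nlinarith)
        refine this.trans (ENNReal.ofReal_le_ofReal ?_)
        rw [max_eq_right h.le, hC2]
        have e5 : (ε - m - (-ε - m)) / (√c' * √ρ) = (2 / √c') * (ε * (√ρ)⁻¹) := by
          field_simp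
          ring
        rw [e5]
        apply mul_le_mul_of_nonneg_right _ (by positivity)
        linarith
    have hfin := prodBound d V.toNNReal VZ.toNNReal θ ε (ε / η) (C2 * (ε * (max ε (√ρ))⁻¹)) (by positivity)
      (by positivity) ha hb
    refine hfin.trans (ENNReal.ofReal_le_ofReal (le_of_eq ?_))
    unfold ker
    have : ε / η * (C2 * (ε * (max ε (√ρ))⁻¹)) = (C2 / η) * (ε ^ 2 * (max ε (√ρ))⁻¹) := by
      field_simp
    rw [this, mul_pow, mul_pow, pow_mul]

end Pool.Agent.T2H03.DS
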