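import Pool.Agent.T2H03.DS.Stm

/-! # Package TR: transfer to the product space -/

set_option autoImplicit false

namespace Pool.Agent.T2H03.DS

open MeasureTheory ProbabilityTheory Finset Filter Topology Pool.Agent.Helper41
open scoped ENNReal NNReal

namespace TR

instance {d : ℕ} {I J L : Type} (p : I → ℝ≥0) (q : J → ℝ≥0) (w : L → ℝ≥0) (c : Cell I J L) :
    IsProbabilityMeasure (gam d p q w c) := by
  unfold gam
  infer_instance

lemma meas_Yv {d : ℕ} {I J L : Type} [Fintype I] [LinearOrder I] [Fintype J] [LinearOrder J] [Fintype L]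
    [LinearOrder L] (lam : I → ℝ) (kap : J → ℝ) (nu : L → ℝ) (c : Cell I J L) (l : Fin d) :
    Measurable (fun x : Cell I J L → Fin d → ℝ => Yv lam kap nu x c l) := by
  rcases c with c | c
  · show Measurable (fun x : Cell I J L → Fin d → ℝ => lam c.1 * kap c.2 *
      ∑ i ∈ univ.filter (· ≤ c.1), ∑ j ∈ univ.filter (· ≤ c.2), x (Sum.inl (i, j)) l)
    fun_prop
  · show Measurable (fun x : Cell I J L → Fin d → ℝ => lam c.1 * nu c.2 *
      ∑ i ∈ univ.filter (· ≤ c.1), ∑ k ∈ univ.filter (· ≤ c.2), x (Sum.inr (i, k)) l)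
    fun_prop

end TR

open TR in
theorem T_TR (hLAW : P_LAW) (hGCK : P_GCK) : P_TR := by
  intro d I J L _ _ _ _ _ _ s lam p u kap q v nu w hs hu hv ps pu pv Ω _ P _ W hW hK D hD
  have hG := hGCK d I J L s lam p u kap q v nu w hs hu hv ps pu pv
  have hY : ∀ t : Fin d × Cell I J L,
      Measurable (fun x : Cell I J L → Fin d → ℝ => Yv lam kap nu x t.2 t.1) := fun t => meas_Yv lam kap nu t.2 t.1
  have hL := hLAW Ω (Cell I J L → Fin d → ℝ) P (Measure.pi (gam d p q w)) (Fin d × Cell I J L) W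
    (fun t x => Yv lam kap nu x t.2 t.1) (gridK s u v) hW hY hK hG
  have hu : Measurable (fun (z : Fin d × Cell I J L → ℝ) (c : Cell I J L) (l : Fin d) => z (l, c)) := by
    fun_prop
  have hD' : MeasurableSet ((fun (z : Fin d × Cell I J L → ℝ) (c : Cell I J L) (l : Fin d) => z (l, c)) ⁻¹' D) := hu hD
  have h1 := congrArg (fun ν => ν ((fun (z : Fin d × Cell I J L → ℝ) (c : Cell I J L) (l : Fin d) => z (l, c)) ⁻¹' D)) hL
  rw [Measure.map_apply (measurable_pi_lambda _ hW) hD', Measure.map_apply (measurable_pi_lambda _ hY) hD'] at h1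
  exact h1

end Pool.Agent.T2H03.DS
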