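import Pool.Agent.T2H03.DS.Stm

/-! # Package UP: combination of KEY2, LIM and MODU -/

set_option autoImplicit false

namespace Pool.Agent.T2H03.DS

open MeasureTheory ProbabilityTheory Finset Filter Topology Pool.Agent.Helper41
open scoped ENNReal NNReal

theorem T_UP (hKEY2 : P_KEY2) (hLIM : P_LIM) (hMODU : P_MODU) : P_UP := by
  intro d Ω _ P B hB η K a G hη hG hGB hpos
  obtain ⟨M, p, hM, hp, hF⟩ := hMODU d Ω P B hB η K a G hη hG hGB hpos
  obtain ⟨C, ε₀, -, hε₀, hkey⟩ := hKEY2 d η K a M hη hM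
  refine hLIM d G hG C p ε₀ hp hε₀ fun ε hε hεε => ?_
  obtain ⟨F, hFG, hFp⟩ := hF ε hε
  obtain ⟨h, hh0, hh1, hh2⟩ := hkey Ω P B hB.toSheet ε hε hεε F (hFG.trans hGB)
  have hprob := hB.prob
  refine ⟨F, h, hFG, hh0, by rw [hh1]; exact hFp, ?_, hh2⟩
  rw [hh1]
  exact measureReal_le_one

end Pool.Agent.T2H03.DS
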