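import Pool.Agent.T2H03.DS.T_CO
import Pool.Agent.T2H03.DS.T_DOOB
import Pool.Agent.T2H03.DS.T_CAI
import Pool.Agent.T2H03.DS.T_LAW
import Pool.Agent.T2H03.DS.T_LIN
import Pool.Agent.T2H03.DS.T_DIAG
import Pool.Agent.T2H03.DS.T_NEST
import Pool.Agent.T2H03.DS.T_GLIN
import Pool.Agent.T2H03.DS.T_CHAIN
import Pool.Agent.T2H03.DS.T_GCK
import Pool.Agent.T2H03.DS.T_TR
import Pool.Agent.T2H03.DS.T_CB1
import Pool.Agent.T2H03.DS.T_CB2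
import Pool.Agent.T2H03.DS.T_CB3
import Pool.Agent.T2H03.DS.T_CB
import Pool.Agent.T2H03.DS.T_SM
import Pool.Agent.T2H03.DS.T_OOP
import Pool.Agent.T2H03.DS.T_KEY
import Pool.Agent.T2H03.DS.T_SH
import Pool.Agent.T2H03.DS.T_KEY2
import Pool.Agent.T2H03.DS.T_LIM
import Pool.Agent.T2H03.DS.T_MODU
import Pool.Agent.T2H03.DS.T_UP
import Pool.Agent.T2H03.DS.T_LOW1
import Pool.Agent.T2H03.DS.T_LOW2
import Pool.Agent.T2H03.DS.T_REG
import Pool.Agent.T2H03.DS.T_Q1U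
import Pool.Agent.T2H03.DS.T_Q1L
import Pool.Agent.T2H03.DS.T_NORM
import Pool.Agent.T2H03.DS.T_CAPP
import Pool.Agent.T2H03.DS.T_SLICE
import Pool.Agent.T2H03.DS.T_Q2R
import Pool.Agent.T2H03.DS.T_Q2L
import Pool.Agent.T2H03.DS.T_Q2A
import Pool.Agent.T2H03.DS.T_FIN

/-! # Polar sets for the double points of the Brownian sheet: assembly -/

set_option autoImplicit false

namespace Pool.Agent.T2H03.DS

theorem all_q1u : P_Q1U :=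
  have hCB := T_CB (T_CB1 (T_GLIN T_NEST T_LIN T_DIAG)) T_CB2 T_CB3
  have hGCK := T_GCK T_NEST T_LIN
  have hOOP := T_OOP (T_CAI T_CO (T_DOOB T_CO)) T_CHAIN (T_TR T_LAW hGCK) hGCK hCB (T_SM T_LIN T_DIAG)
  T_Q1U (T_UP (T_KEY2 (T_KEY hOOP) T_SH) T_LIM T_MODU) T_REG

theorem all_q1l : P_Q1L := T_Q1L (T_LOW1 (T_SM T_LIN T_DIAG) T_SH) T_LOW2 T_REG

theorem all_q2 : P_Q2A := T_Q2A all_q1u all_q1l (T_Q2R T_SLICE) T_Q2L

theorem all_fin : P_FIN := T_FIN all_q1u all_q1l T_NORM T_CAPP all_q2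

end Pool.Agent.T2H03.DS
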