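import Pool.Agent.T2H03.DS.Stm

/-! # Common lemmas for the packages Q1U and Q1L -/

set_option autoImplicit false

namespace Pool.Agent.T2H03.DS

open MeasureTheory ProbabilityTheory Finset Filter Topology Pool.Agent.Helper41
open scoped ENNReal NNReal

namespace LibQ1

/-- exchange of the two times -/
def sw : (ℝ × ℝ × ℝ) ≃ᵐ (ℝ × ℝ × ℝ) :=
  (MeasurableEquiv.refl ℝ).prodCongr MeasurableEquiv.prodComm

theorem sw_apply (x : ℝ × ℝ × ℝ) : sw x = (x.1, x.2.2, x.2.1) := rfl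

theorem sw_sw (x : ℝ × ℝ × ℝ) : sw (sw x) = x := rfl

theorem continuous_sw : Continuous (sw : (ℝ × ℝ × ℝ) → (ℝ × ℝ × ℝ)) := by
  show Continuous fun x : ℝ × ℝ × ℝ => (x.1, x.2.2, x.2.1)
  fun_prop

theorem r1_sw (x y : ℝ × ℝ × ℝ) : r1 (sw x) (sw y) = r1 x y := by
  simp only [r1, sw_apply]
  ring

theorem rK_sw (d : ℕ) (x y : ℝ × ℝ × ℝ) : rK d (sw x) (sw y) = rK d x y := by
  simp only [rK, r1_sw]

theorem Pos.mono {X : Type} [MeasurableSpace X] {k : X → X → ℝ≥0∞} {A A' : Set X} (h : A ⊆ A')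
    (hA : Pos k A) : Pos k A' := by
  obtain ⟨μ, h1, h2, h3⟩ := hA
  exact ⟨μ, h1, measure_mono_null (Set.compl_subset_compl.2 h) h2, h3⟩

theorem Pos.swap {d : ℕ} {A : Set (ℝ × ℝ × ℝ)} (hA : Pos (rK d) A) : Pos (rK d) (sw '' A) := by
  obtain ⟨μ, h1, h2, h3⟩ := hA
  refine ⟨μ.map sw, Measure.isProbabilityMeasure_map sw.measurable.aemeasurable, ?_, ?_⟩
  · rw [MeasurableEquiv.map_apply, Set.preimage_compl, Set.preimage_image_eq _ sw.injective]
    exact h2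
  · have h4 : energy (rK d) (μ.map sw) = energy (rK d) μ := by
      unfold energy
      rw [lintegral_map_equiv]
      congr 1
      funext x
      rw [lintegral_map_equiv]
      simp only [rK_sw]
    rw [h4]
    exact h3

theorem Pos.restrict {X : Type} [MeasurableSpace X] {k : X → X → ℝ≥0∞} {A : Set X} (μ : Measure X)
    [IsProbabilityMeasure μ] (hk : energy k μ < ⊤) (hA : MeasurableSet A) (hμ : μ A ≠ 0) : Pos k A := by
  refine ⟨(μ A)⁻¹ • μ.restrict A, ⟨?_⟩, ?_, ?_⟩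
  · rw [Measure.smul_apply, Measure.restrict_apply_univ, smul_eq_mul,
      ENNReal.inv_mul_cancel hμ (measure_ne_top μ A)]
  · rw [Measure.smul_apply, Measure.restrict_apply hA.compl, Set.compl_inter_self, measure_empty,
      smul_zero]
  · have h1 : energy k ((μ A)⁻¹ • μ.restrict A) = (μ A)⁻¹ * ((μ A)⁻¹ * energy k (μ.restrict A)) := by
      unfold energy
      rw [lintegral_smul_measure, smul_eq_mul]
      congr 1
      simp only [lintegral_smul_measure, smul_eq_mul]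
      rw [lintegral_const_mul' _ _ (ENNReal.inv_ne_top.2 hμ)]
    rw [h1]
    have h2 : energy k (μ.restrict A) ≤ energy k μ := by
      unfold energy
      refine (lintegral_mono fun x => lintegral_mono' Measure.restrict_le_self le_rfl).trans ?_
      exact lintegral_mono' Measure.restrict_le_self le_rfl
    exact ENNReal.mul_lt_top (lt_top_iff_ne_top.2 (ENNReal.inv_ne_top.2 hμ))
      (ENNReal.mul_lt_top (lt_top_iff_ne_top.2 (ENNReal.inv_ne_top.2 hμ)) (h2.trans_lt hk))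

/-- the countably many boxes -/
def BX (i : ℕ × ℚ) : Set (ℝ × ℝ × ℝ) := Box (1 / ((i.1 : ℝ) + 1)) ((i.1 : ℝ) + 1) (i.2 : ℝ)

theorem eta_pos (i : ℕ × ℚ) : (0 : ℝ) < 1 / ((i.1 : ℝ) + 1) := by positivity

theorem isClosed_Box (η K a : ℝ) : IsClosed (Box η K a) := by
  unfold Box
  have e : {x : ℝ × ℝ × ℝ | η ≤ x.1 ∧ x.1 ≤ K ∧ η ≤ x.2.1 ∧ x.2.1 ≤ a - η ∧ a + η ≤ x.2.2 ∧ x.2.2 ≤ K} =
      {x | η ≤ x.1} ∩ ({x | x.1 ≤ K} ∩ ({x | η ≤ x.2.1} ∩ ({x | x.2.1 ≤ a - η} ∩ ({x | a + η ≤ x.2.2} ∩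
        {x | x.2.2 ≤ K})))) := by
    ext x
    simp only [Set.mem_setOf_eq, Set.mem_inter_iff]
  rw [e]
  refine (isClosed_le continuous_const (by fun_prop)).inter ((isClosed_le (by fun_prop) continuous_const).inter
    ((isClosed_le continuous_const (by fun_prop)).inter ((isClosed_le (by fun_prop) continuous_const).inter
    ((isClosed_le continuous_const (by fun_prop)).inter (isClosed_le (by fun_prop) continuous_const)))))

theorem isClosed_BX (i : ℕ × ℚ) : IsClosed (BX i) := isClosed_Box _ _ _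

theorem lt_of_mem_BX {i : ℕ × ℚ} {x : ℝ × ℝ × ℝ} (h : x ∈ BX i) : x.2.1 < x.2.2 := by
  obtain ⟨-, -, -, h1, h2, -⟩ := h
  have := eta_pos i
  linarith

theorem exists_BX {x : ℝ × ℝ × ℝ} (h1 : 0 < x.1) (h2 : 0 < x.2.1) (h3 : x.2.1 < x.2.2) :
    ∃ i, x ∈ BX i := by
  obtain ⟨a, ha1, ha2⟩ := exists_rat_btwn h3
  set m : ℝ := min (min x.1 x.2.1) (min ((a : ℝ) - x.2.1) (x.2.2 - a)) with hm
  have hm0 : 0 < m := lt_min (lt_min h1 h2) (lt_min (by linarith) (by linarith))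
  obtain ⟨n, hn⟩ := exists_nat_gt (max (1 / m) (max x.1 x.2.2))
  have hn1 : 1 / m < n := lt_of_le_of_lt (le_max_left _ _) hn
  have hn2 : x.1 < n := lt_of_le_of_lt ((le_max_left _ _).trans (le_max_right _ _)) hn
  have hn3 : x.2.2 < n := lt_of_le_of_lt ((le_max_right _ _).trans (le_max_right _ _)) hn
  have h4 : 1 / ((n : ℝ) + 1) ≤ m := by
    rw [div_le_iff₀ (by positivity)]
    rw [div_lt_iff₀ hm0] at hn1
    nlinarith
  have hm1 : m ≤ x.1 := (min_le_left _ _).trans (min_le_left _ _)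
  have hm2 : m ≤ x.2.1 := (min_le_left _ _).trans (min_le_right _ _)
  have hm3 : m ≤ (a : ℝ) - x.2.1 := (min_le_right _ _).trans (min_le_left _ _)
  have hm4 : m ≤ x.2.2 - a := (min_le_right _ _).trans (min_le_right _ _)
  refine ⟨(n, a), ?_⟩
  show _ ≤ _ ∧ _ ∧ _ ∧ _ ∧ _ ∧ _
  refine ⟨h4.trans hm1, ?_, h4.trans hm2, ?_, ?_, ?_⟩
  · show x.1 ≤ (n : ℝ) + 1
    linarith
  · show x.2.1 ≤ (a : ℝ) - 1 / ((n : ℝ) + 1)
    linarith
  · show (a : ℝ) + 1 / ((n : ℝ) + 1) ≤ x.2.2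
    linarith
  · show x.2.2 ≤ (n : ℝ) + 1
    linarith

/-- the points off the diagonal are covered -/
theorem cover {x : ℝ × ℝ × ℝ} (h1 : 0 < x.1) (h2 : 0 < x.2.1) (h3 : 0 < x.2.2) (h : x.2.1 ≠ x.2.2) :
    (∃ i, x ∈ BX i) ∨ ∃ i, sw x ∈ BX i := by
  rcases lt_or_gt_of_ne h with h4 | h4
  · exact Or.inl (exists_BX h1 h2 h4)
  · exact Or.inr (exists_BX (x := sw x) h1 h3 h4)

theorem dX_eq_zero {d : ℕ} {Ω : Type} (B : ℝ × ℝ → Ω → (Fin d → ℝ)) (x : ℝ × ℝ × ℝ) (ω : Ω) :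
    dX B x ω = 0 ↔ B (x.1, x.2.1) ω = B (x.1, x.2.2) ω := by
  constructor
  · intro h
    funext l
    have h1 : B (x.1, x.2.2) ω l - B (x.1, x.2.1) ω l = 0 := congrFun h l
    linarith
  · intro h
    funext l
    show B (x.1, x.2.2) ω l - B (x.1, x.2.1) ω l = 0
    rw [h, sub_self]

end LibQ1

end Pool.Agent.T2H03.DS
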