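import Pool.Agent.T2H03.DS.Defs

/-! # Polar sets for the double points of the Brownian sheet: the packages

THEOREM (`MP_147a43_pr`, both questions). For a `d`-dimensional Brownian sheet and compact `G ⊂ (0,∞)³`:
`P (∃ (s,t₁,t₂) ∈ G, t₁ ≠ t₂, B(s,t₁) = B(s,t₂)) > 0` iff `Cap_{d/2} (G ∩ {t₁ ≠ t₂}) > 0`; for compact `E ⊂ (0,∞)²`:
`P (∃ (s,t₁) ∈ E, t₂ > 0, t₂ ≠ t₁, B(s,t₁) = B(s,t₂)) > 0` iff `Cap_{(d-2)/2} E > 0`.

IDEA. Choose `a` between `t₁` and `t₂`: `X(s,u,v) = B(s,a+u) - B(s,a-v) = W₀(s,u) + W₁(s,v)` with two independent sheets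
`W₀(s,u) = B(s,a+u) - B(s,a)`, `W₁(s,v) = B(s,a) - B(s,a-v)`. Khoshnevisan-Shi argument, in each of the 8 orthants: on
a finite grid let `h r` be the probability that `r` is the first grid point where `|X| ≤ ε` (and `|W| ≤ M`),
`J = ∑_r h r 1{|X r| ≤ 2 ε}`, and `M_r = E (J | W at the grid points ≤ r)`. The filtration commutes, so (Cairoli)
`E sup M_r² ≤ 64 E J² ≤ C ε^(2d) ∑∑ h h' k(r,r')`, `k = max (ε, √|r - r'|) ^ (-d)`; and at the first point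
`M_r ≥ c ε^d ∑_{r' ≥ r} h r' k(r,r')`. For a decreasing variable use time inversion: `min (s,s') = s s' min (1/s, 1/s')`; the
conditional mean of `X` is then only nearly zero, the error `O(|r - r'|)` is small against the standard deviation
`≍ √|r - r'|`. Sum over the orthants: `∑∑ h h' k ≤ C ∑ h`. Weak limit of `h / ∑ h`: a measure of finite energy. -/

set_option autoImplicit false

namespace Pool.Agent.T2H03.DS

open MeasureTheory ProbabilityTheory Finset Filter Topology Pool.Agent.Helper41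
open scoped ENNReal NNReal

/-! ## Product spaces -/

/-- CO. Basic properties of `cond`. Proof of the second one: `(cond A (cond B f)) x = ∫∫ f (glue B (glue A x y) z)`, and
`glue B (glue A x y) z = glue (A ∩ B) x (glue B y z)`; the map `(y, z) ↦ glue B y z` takes `π × π` to `π` (check on boxes,
`Measure.pi_eq`). Third: Tonelli, the map `(x, y) ↦ glue A x y` takes `π × π` to `π` and `g x = g (glue A x y)`. Fourth:
Cauchy-Schwarz for a probability measure. -/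
def P_CO : Prop :=
  ∀ (S E : Type) [Fintype S] [MeasurableSpace E] (γ : S → Measure E) [∀ c, IsProbabilityMeasure (γ c)],
    (∀ (A : Set S) (f : (S → E) → ℝ≥0∞), Measurable f → Measurable (cond γ A f)) ∧
    (∀ (A B : Set S) (f : (S → E) → ℝ≥0∞), Measurable f → cond γ A (cond γ B f) = cond γ (A ∩ B) f) ∧
    (∀ (A : Set S) (f g : (S → E) → ℝ≥0∞), Measurable f → Measurable g → (∀ x y, g (glue A x y) = g x) →
      ∫⁻ x, g x * cond γ A f x ∂(Measure.pi γ) = ∫⁻ x, g x * f x ∂(Measure.pi γ)) ∧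
    (∀ (A : Set S) (f : (S → E) → ℝ≥0∞), Measurable f → ∀ x, cond γ A f x ^ 2 ≤ cond γ A (fun z => f z ^ 2) x)

/-- DOOB (from CO). Doob's `L²` maximal inequality. Proof (compare `Pool/Agent/H380R3/ARW/Doob.lean`, lemmas `term_ineq`,
`step_ineq`): for a chain `A_0 ⊂ … ⊂ A_m` and a bounded measurable `y` with `y (glue A_0 x z) = y x`, by induction on `m`
(remove `A_0`): `∫ (max_k M_k ∨ y)² + 4 ∫ M_0 (M_0 ∨ y) ≤ 4 ∫ f² + 2 ∫ (M_0 ∨ y)²`, `M_k = cond A_k f`. For `m = 0`: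
`Y² + 4 x Y ≤ 4 x² + 2 Y²`. Step: apply it to `A_1, …` with `Y = M_0 ∨ y`, and use `2 (x ∨ Y)² + 4 x Y ≤ 2 Y² + 4 x (x ∨ Y)`
with `x = M_1` and `∫ M_1 Y = ∫ M_0 Y`. Finally `y = 0`. Everything is bounded by `C`, so all integrals are finite. -/
def P_DOOB : Prop :=
  ∀ (S E : Type) [Fintype S] [MeasurableSpace E] (γ : S → Measure E) [∀ c, IsProbabilityMeasure (γ c)]
    (I : Type) [Fintype I] [LinearOrder I] (A : I → Set S), Monotone A →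
    ∀ (f : (S → E) → ℝ≥0∞), Measurable f → ∀ C : ℝ≥0∞, C ≠ ⊤ → (∀ x, f x ≤ C) →
      ∫⁻ x, (⨆ i, cond γ (A i) f x) ^ 2 ∂(Measure.pi γ) ≤ 4 * ∫⁻ x, f x ^ 2 ∂(Measure.pi γ)

/-- CAI (from CO and DOOB). Cairoli's inequality. Proof: `cond (A ∩ B ∩ D) f = cond A (cond B (cond D f))`, which is at most
`cond A F₁` with `F₁ = sup_j cond B_j F₂`, `F₂ = sup_k cond D_k f`; three times DOOB. -/
def P_CAI : Prop :=
  ∀ (S E : Type) [Fintype S] [MeasurableSpace E] (γ : S → Measure E) [∀ c, IsProbabilityMeasure (γ c)]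
    (I J L : Type) [Fintype I] [LinearOrder I] [Fintype J] [LinearOrder J] [Fintype L] [LinearOrder L]
    (A : I → Set S) (B : J → Set S) (D : L → Set S), Monotone A → Monotone B → Monotone D →
    ∀ (f : (S → E) → ℝ≥0∞), Measurable f → ∀ C : ℝ≥0∞, C ≠ ⊤ → (∀ x, f x ≤ C) →
      ∫⁻ x, (⨆ r : I × J × L, cond γ (A r.1 ∩ B r.2.1 ∩ D r.2.2) f x) ^ 2 ∂(Measure.pi γ) ≤
        64 * ∫⁻ x, f x ^ 2 ∂(Measure.pi γ)

/-! ## Gaussian families -/

/-- LAW. The characteristic functions determine the joint law (`Measure.ext_of_charFun` or the version for duals, compare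
`CharKernel.map_eq` and `CharKernel.isGaussianProcess` in `Pool/Agent/Helper41/Gauss.lean`). -/
def P_LAW : Prop :=
  ∀ (Ω Ω' : Type) [MeasurableSpace Ω] [MeasurableSpace Ω'] (P : Measure Ω) (P' : Measure Ω') [IsProbabilityMeasure P]
    [IsProbabilityMeasure P'] (T : Type) [Fintype T] (X : T → Ω → ℝ) (X' : T → Ω' → ℝ) (K : T → T → ℝ),
    (∀ t, Measurable (X t)) → (∀ t, Measurable (X' t)) → CharKernel X P K → CharKernel X' P' K →
      P.map (fun ω t => X t ω) = P'.map (fun ω t => X' t ω)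

/-- LIN. Linear images. -/
def P_LIN : Prop :=
  ∀ (Ω : Type) [MeasurableSpace Ω] (P : Measure Ω) (T T' : Type) [Fintype T] (X : T → Ω → ℝ) (K : T → T → ℝ),
    CharKernel X P K → ∀ M : T' → T → ℝ,
      CharKernel (fun t' ω => ∑ t, M t' t * X t ω) P (fun a b => ∑ t, ∑ t', M a t * M b t' * K t t')

/-- DIAG. Uncorrelated Gaussian variables are independent. (Independent of the other packages, or from LAW and the
characteristic function of a product measure.) -/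
def P_DIAG : Prop :=
  ∀ (Ω : Type) [MeasurableSpace Ω] (P : Measure Ω) [IsProbabilityMeasure P] (T : Type) [Fintype T] (X : T → Ω → ℝ)
    (v : T → ℝ≥0), (∀ t, Measurable (X t)) → CharKernel X P (dK fun t => (v t : ℝ)) →
      P.map (fun ω t => X t ω) = Measure.pi fun t => gaussianReal 0 (v t)

/-- NEST. The coordinates of the product of `d`-dimensional Gaussian measures. -/
def P_NEST : Prop :=
  ∀ (d : ℕ) (S : Type) [Fintype S] (v : S → ℝ≥0),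
    CharKernel (fun (t : Fin d × S) (x : S → Fin d → ℝ) => x t.2 t.1)
      (Measure.pi fun c : S => Measure.pi fun _ : Fin d => gaussianReal 0 (v c)) (dK fun t => (v t.2 : ℝ))

/-- GLIN (from NEST, LIN, DIAG). Linear combinations of independent `d`-dimensional Gaussian vectors. -/
def P_GLIN : Prop :=
  ∀ (d : ℕ) (S : Type) [Fintype S] (v : S → ℝ≥0) (b : S → ℝ),
    (Measure.pi fun c : S => Measure.pi fun _ : Fin d => gaussianReal 0 (v c)).map (fun y l => ∑ c, b c * y c l) =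
      Measure.pi fun _ : Fin d => gaussianReal 0 (∑ c, (b c ^ 2).toNNReal * v c)

/-- CHAIN. Every strictly monotone or antitone positive `s` on a finite linear order has a chain: `p i` is `s i` (resp.
`1 / s i`) minus the value at the predecessor of `i` (`0` if there is none). -/
def P_CHAIN : Prop :=
  ∀ (I : Type) [Fintype I] [LinearOrder I] (s : I → ℝ), (∀ i, 0 < s i) → (StrictMono s ∨ StrictAnti s) →
    ∃ (lam : I → ℝ) (p : I → ℝ≥0), Chain s lam p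

/-- GCK (from NEST and LIN). The partial sums have the covariance of the two sheets. Proof: LIN with the coefficients
`lam i kap j 1{cell ≤ (i, j)}`; `∑_{cells ≤ (i,j), (i',j')} p q = cum p (min i i') * cum q (min j j')`, and
`lam i * lam i' * cum p (min i i') = min (s i) (s i')` in both cases of `Chain`. -/
def P_GCK : Prop :=
  ∀ (d : ℕ) (I J L : Type) [Fintype I] [LinearOrder I] [Fintype J] [LinearOrder J] [Fintype L] [LinearOrder L]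
    (s lam : I → ℝ) (p : I → ℝ≥0) (u kap : J → ℝ) (q : J → ℝ≥0) (v nu : L → ℝ) (w : L → ℝ≥0),
    Chain s lam p → Chain u kap q → Chain v nu w → (∀ i, 0 < s i) → (∀ j, 0 < u j) → (∀ k, 0 < v k) →
      CharKernel (fun (t : Fin d × Cell I J L) x => Yv lam kap nu x t.2 t.1) (Measure.pi (gam d p q w)) (gridK s u v)

/-- TR (from LAW and GCK). Transfer to the product space. -/
def P_TR : Prop :=
  ∀ (d : ℕ) (I J L : Type) [Fintype I] [LinearOrder I] [Fintype J] [LinearOrder J] [Fintype L] [LinearOrder L]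
    (s lam : I → ℝ) (p : I → ℝ≥0) (u kap : J → ℝ) (q : J → ℝ≥0) (v nu : L → ℝ) (w : L → ℝ≥0),
    Chain s lam p → Chain u kap q → Chain v nu w → (∀ i, 0 < s i) → (∀ j, 0 < u j) → (∀ k, 0 < v k) →
    ∀ (Ω : Type) [MeasurableSpace Ω] (P : Measure Ω) [IsProbabilityMeasure P] (W : Fin d × Cell I J L → Ω → ℝ),
      (∀ t, Measurable (W t)) → CharKernel W P (gridK s u v) →
      ∀ D : Set (Cell I J L → Fin d → ℝ), MeasurableSet D →
        P {ω | vec W ω ∈ D} = Measure.pi (gam d p q w) {x | Yv lam kap nu x ∈ D}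

/-! ## The conditional probability -/

/-- CB1 (from GLIN). The conditional law. Proof: for `r0 ≤ r` the cells below `r` which are in `As r0` are those below `r0`,
so `Xg (Yv (glue (As r0) x y)) r l = mn … (Yv x) r0 r l + ∑_c b c * y c l` with `b c` equal to `lam i kap j` (resp.
`lam i nu k`) for the cells `c` below `r` and not below `r0`, and `0` otherwise; by GLIN the sum is Gaussian with independent
coordinates, of variance `(lam i kap j)² (cum p i cum q j - cum p i0 cum q j0) + …`, and `lam i ^ 2 * cum p i = s i` in both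
cases of `Chain`. -/
def P_CB1 : Prop :=
  ∀ (d : ℕ) (I J L : Type) [Fintype I] [LinearOrder I] [Fintype J] [LinearOrder J] [Fintype L] [LinearOrder L]
    (s lam : I → ℝ) (p : I → ℝ≥0) (u kap : J → ℝ) (q : J → ℝ≥0) (v nu : L → ℝ) (w : L → ℝ≥0),
    Chain s lam p → Chain u kap q → Chain v nu w → (∀ i, 0 < s i) → (∀ j, 0 < u j) → (∀ k, 0 < v k) →
    ∀ (δ : ℝ) (r0 r : I × J × L), r0 ≤ r → ∀ x : Cell I J L → Fin d → ℝ, open Classical in
      cond (gam d p q w) (As r0) (fun z => if ∀ l, |Xg (Yv lam kap nu z) r l| ≤ δ then 1 else 0) x =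
        ∏ l, gaussianReal (mn lam kap nu (Yv lam kap nu x) r0 r l) (vr s lam u kap v nu r0 r).toNNReal
          (Set.Icc (-δ) δ)

/-- CB2. The conditional mean is near to the value, the conditional variance is of the size of the distance. Proof: four
cases for each of the two terms (`s` increasing or decreasing, `u` increasing or decreasing); e.g. `s` increasing, `u`
decreasing: `s u - (u/u0)² s0 u0 = u ((s - s0) + (s0/u0) (u0 - u))`. (If `K < η` there is nothing to prove.) -/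
def P_CB2 : Prop :=
  ∀ η K : ℝ, 0 < η → ∃ C c : ℝ, 0 < C ∧ 0 < c ∧
    ∀ (I J L : Type) [Fintype I] [LinearOrder I] [Fintype J] [LinearOrder J] [Fintype L] [LinearOrder L]
    (s lam : I → ℝ) (p : I → ℝ≥0) (u kap : J → ℝ) (q : J → ℝ≥0) (v nu : L → ℝ) (w : L → ℝ≥0),
    Chain s lam p → Chain u kap q → Chain v nu w → Val η K s → Val η K u → Val η K v →
    ∀ r0 r : I × J × L, r0 ≤ r →
      |(lam r.1 * kap r.2.1) / (lam r0.1 * kap r0.2.1) - 1| ≤ C * rg s u v r0 r ∧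
      |(lam r.1 * nu r.2.2) / (lam r0.1 * nu r0.2.2) - 1| ≤ C * rg s u v r0 r ∧
      c * rg s u v r0 r ≤ vr s lam u kap v nu r0 r ∧ vr s lam u kap v nu r0 r ≤ C * rg s u v r0 r

/-- CB3. One-dimensional Gaussian bound. Proof: `ε₀ = min 1 (1 / (2 C))`. If `ε ≤ √ρ`: for `|x| ≤ 2 ε` one has
`|x - m| ≤ (3 + C √D) √ρ`, so the density is at least `(2 π C ρ)^(-1/2) exp (-(3 + C √D)² / (2 c))`, and the interval has length
`4 ε`. If `ε > √ρ`: `C ρ ≤ C ε² ≤ ε / 2`, so `|m| ≤ 3 ε / 2` and the interval contains `|x - m| ≤ ε / 2`, of probability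
`≥ P (|N| ≤ 1 / (2 √C))` (or `1` if `v = 0`, the Dirac measure). -/
def P_CB3 : Prop :=
  ∀ c C D : ℝ, 0 < c → 0 < C → 0 ≤ D → ∃ c' ε₀ : ℝ, 0 < c' ∧ 0 < ε₀ ∧ ∀ ε : ℝ, 0 < ε → ε ≤ ε₀ →
    ∀ ρ : ℝ, 0 ≤ ρ → ρ ≤ D → ∀ v : ℝ≥0, c * ρ ≤ v → (v : ℝ) ≤ C * ρ → ∀ m : ℝ, |m| ≤ ε + C * ρ →
      ENNReal.ofReal (c' * (ε * (max ε (Real.sqrt ρ))⁻¹)) ≤ gaussianReal m v (Set.Icc (-(2 * ε)) (2 * ε))

/-- CB (from CB1, CB2, CB3). Proof: `mn = X + (θ - 1) W₀ + (θ' - 1) W₁`, so `|mn| ≤ ε + 2 C M rg` on `Near ε M r0`. -/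
def P_CB : Prop :=
  ∀ (d : ℕ) (η K M : ℝ), 0 < η → 0 ≤ M → ∃ c ε₀ : ℝ, 0 < c ∧ 0 < ε₀ ∧
    ∀ (I J L : Type) [Fintype I] [LinearOrder I] [Fintype J] [LinearOrder J] [Fintype L] [LinearOrder L]
    (s lam : I → ℝ) (p : I → ℝ≥0) (u kap : J → ℝ) (q : J → ℝ≥0) (v nu : L → ℝ) (w : L → ℝ≥0),
    Chain s lam p → Chain u kap q → Chain v nu w → Val η K s → Val η K u → Val η K v →
    ∀ ε : ℝ, 0 < ε → ε ≤ ε₀ → ∀ r0 r : I × J × L, r0 ≤ r → ∀ x : Cell I J L → Fin d → ℝ,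
      Yv lam kap nu x ∈ Near ε M r0 → open Classical in
      ENNReal.ofReal (c * (ε ^ d * ker d ε (rg s u v r0 r))) ≤
        cond (gam d p q w) (As r0) (fun z => if ∀ l, |Xg (Yv lam kap nu z) r l| ≤ 2 * ε then 1 else 0) x

/-- SM (from LIN and DIAG). First and second moments. Proof: `Var X(r) = s (u + v) ∈ [2 η², 2 K²]`, and
`Var Var' - Cov² ≥ Cov (Var + Var' - 2 Cov) ≥ c rg` (`Cov = min (s,s') (min (u,u') + min (v,v')) ≥ 2 η²`). For each `l`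
let `Z l = X' l - (Cov / Var) X l`; the `2 d` variables `X l`, `Z l` are independent (LIN, DIAG), `Var Z l ≥ c' rg`, and
`P (|X l| ≤ ε, |X' l| ≤ ε) ≤ P (|X l| ≤ ε) sup_m P (|m + Z l| ≤ ε) ≤ C ε min (1, ε / √rg)`; also `≤ C ε`. Here
`min (1, ε / √rg) = ε * (max ε √rg)⁻¹`. First part: the density of `X l` is bounded below on `[-1, 1]`. (`C, c` depend on `d`.
If some of the types is empty there is no `r`; if `K < η` too.) -/
def P_SM : Prop :=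
  ∀ (d : ℕ) (η K : ℝ), 0 < η → ∃ C c : ℝ, 0 < C ∧ 0 < c ∧
    ∀ (I J L : Type) (s : I → ℝ) (u : J → ℝ) (v : L → ℝ), Val η K s → Val η K u → Val η K v →
    ∀ (Ω : Type) [MeasurableSpace Ω] (P : Measure Ω) [IsProbabilityMeasure P] (W : Fin d × Cell I J L → Ω → ℝ),
      (∀ t, Measurable (W t)) → CharKernel W P (gridK s u v) →
      (∀ ε : ℝ, 0 < ε → ε ≤ 1 → ∀ r : I × J × L,
        ENNReal.ofReal (c * ε ^ d) ≤ P {ω | ∀ l, |Xg (vec W ω) r l| ≤ ε}) ∧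
      (∀ ε : ℝ, 0 < ε → ∀ r r' : I × J × L,
        P {ω | ∀ l, |Xg (vec W ω) r l| ≤ ε ∧ |Xg (vec W ω) r' l| ≤ ε} ≤
          ENNReal.ofReal (C * (ε ^ (2 * d) * ker d ε (rg s u v r r'))))

/-! ## The energy inequality on a grid -/

/-- OOP (from CAI, CHAIN, TR, GCK, CB, SM). One orthant. Proof: take chains for `s, u, v`, and `h r = pr P W (D r)`, equal to
`π (Yv ∈ D r)` by TR. Let `J x = ∑_r ofReal (h r) 1{∀ l, |Xg (Yv x) r l| ≤ 2 ε}`. By SM (for `Yv` on the product space, GCK)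
`∫ J² ≤ C ε^(2d) ∑∑ h h' ker` (`ker d (2 ε) ≤ ker d ε`). By CB, for `Yv x ∈ D r0 ⊂ Near ε M r0`:
`cond (As r0) J x ≥ c ε^d g(r0)`, `g(r0) = ∑_{r ≥ r0} h r ker`. As the `D r0` are disjoint,
`∑_{r0} h r0 (c ε^d g(r0))² ≤ ∫ (sup_{r0} cond (As r0) J)² ≤ 64 ∫ J²` (CAI with `A0, A1, A2`). -/
def P_OOP : Prop :=
  ∀ (d : ℕ) (η K M : ℝ), 0 < η → 0 ≤ M → ∃ C ε₀ : ℝ, 0 < C ∧ 0 < ε₀ ∧
    ∀ (I J L : Type) [Fintype I] [LinearOrder I] [Fintype J] [LinearOrder J] [Fintype L] [LinearOrder L]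
    (s : I → ℝ) (u : J → ℝ) (v : L → ℝ), (StrictMono s ∨ StrictAnti s) → (StrictMono u ∨ StrictAnti u) →
    (StrictMono v ∨ StrictAnti v) → Val η K s → Val η K u → Val η K v →
    ∀ (Ω : Type) [MeasurableSpace Ω] (P : Measure Ω) [IsProbabilityMeasure P] (W : Fin d × Cell I J L → Ω → ℝ),
      (∀ t, Measurable (W t)) → CharKernel W P (gridK s u v) →
      ∀ ε : ℝ, 0 < ε → ε ≤ ε₀ → ∀ D : I × J × L → Set (Cell I J L → Fin d → ℝ), (∀ r, MeasurableSet (D r)) →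
        Pairwise (Function.onFun Disjoint D) → (∀ r, D r ⊆ Near ε M r) → open Classical in
        ∑ r0, pr P W (D r0) * (∑ r ∈ univ.filter (fun r => r0 ≤ r), pr P W (D r) * ker d ε (rg s u v r0 r)) ^ 2 ≤
          C * ∑ r, ∑ r', pr P W (D r) * pr P W (D r') * ker d ε (rg s u v r r')

/-- KEY (from OOP). All orthants. Proof: OOP for `I` or `Iᵒᵈ`, `J` or `Jᵒᵈ`, `L` or `Lᵒᵈ` (same functions, `StrictMono`
becomes `StrictAnti`); every pair `r, r'` is ordered in one of the 8 orders, so `g ≤ ∑_o g_o` for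
`g r = ∑_{r'} h r' ker`, and `(∑ h g)² ≤ (∑ h) (∑ h g²) ≤ (∑ h) 8 ∑_o ∑ h g_o² ≤ 64 C (∑ h) (∑ h g)`. -/
def P_KEY : Prop :=
  ∀ (d : ℕ) (η K M : ℝ), 0 < η → 0 ≤ M → ∃ C ε₀ : ℝ, 0 < C ∧ 0 < ε₀ ∧
    ∀ (I J L : Type) [Fintype I] [LinearOrder I] [Fintype J] [LinearOrder J] [Fintype L] [LinearOrder L]
    (s : I → ℝ) (u : J → ℝ) (v : L → ℝ), StrictMono s → StrictMono u → StrictMono v →
    Val η K s → Val η K u → Val η K v →
    ∀ (Ω : Type) [MeasurableSpace Ω] (P : Measure Ω) [IsProbabilityMeasure P] (W : Fin d × Cell I J L → Ω → ℝ),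
      (∀ t, Measurable (W t)) → CharKernel W P (gridK s u v) →
      ∀ ε : ℝ, 0 < ε → ε ≤ ε₀ → ∀ D : I × J × L → Set (Cell I J L → Fin d → ℝ), (∀ r, MeasurableSet (D r)) →
        Pairwise (Function.onFun Disjoint D) → (∀ r, D r ⊆ Near ε M r) →
        ∑ r, ∑ r', pr P W (D r) * pr P W (D r') * ker d ε (rg s u v r r') ≤ C * ∑ r, pr P W (D r)

/-! ## The sheet -/

/-- SH. The increments of the sheet to the right and to the left of `a`. Proof: the characteristic function of a linear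
combination of the `Wg` is one of the sheet (`Sheet.char` with `2 n` or `3 n` points); covariances:
`min (a+u, a+u') - a - a + a = min (u,u')`, `a - (a-v) - (a-v') + min (a-v, a-v') = min (v,v')`, mixed: `0`. -/
def P_SH : Prop :=
  ∀ (d : ℕ) (Ω : Type) [MeasurableSpace Ω] (P : Measure Ω) (B : ℝ × ℝ → Ω → (Fin d → ℝ)), Sheet d P B →
    ∀ (I J L : Type) (s : I → ℝ) (u : J → ℝ) (v : L → ℝ) (a : ℝ), 0 ≤ a → (∀ i, 0 ≤ s i) → (∀ j, 0 ≤ u j) →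
      (∀ k, 0 ≤ v k ∧ v k ≤ a) → CharKernel (Wg B s u v a) P (gridK s u v)

/-- KEY2 (from KEY and SH). The energy inequality for finite sets of points. Proof: if `F` is empty take `h = 0`. Otherwise
`a ≥ 2 η`, `a ≤ K`; let `I, J, L` be the finite sets (subtypes of `ℝ`) of the values `s`, `u = t₂ - a`, `v = a - t₁` of the
points of `F` and `W = Wg B …`; enumerate the grid points, and let `D r` be `Near ε M r` minus the union of the
`Near ε M r'` of the earlier points `r'` of `F` if `r` comes from a point of `F`, and empty otherwise. -/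
def P_KEY2 : Prop :=
  ∀ (d : ℕ) (η K a M : ℝ), 0 < η → 0 ≤ M → ∃ C ε₀ : ℝ, 0 < C ∧ 0 < ε₀ ∧
    ∀ (Ω : Type) [MeasurableSpace Ω] (P : Measure Ω) (B : ℝ × ℝ → Ω → (Fin d → ℝ)), Sheet d P B →
    ∀ ε : ℝ, 0 < ε → ε ≤ ε₀ → ∀ F : Finset (ℝ × ℝ × ℝ), (F : Set (ℝ × ℝ × ℝ)) ⊆ Box η K a →
      ∃ h : ℝ × ℝ × ℝ → ℝ, (∀ x, 0 ≤ h x) ∧ ∑ x ∈ F, h x = (P {ω | ∃ x ∈ F, NearB B a ε M x ω}).toReal ∧
        ∑ x ∈ F, ∑ y ∈ F, h x * h y * ker d ε (r1 x y) ≤ C * ∑ x ∈ F, h x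

/-- LIM. Weak limit. Proof: `μ_n = ∑ h δ_x / ∑ h` for `ε_n → 0`, probability measures on the compact space `G` (Mathlib:
`CompactSpace (ProbabilityMeasure G)`, `FiniteMeasureProd` for the product), a convergent subsequence (or cluster point). For
`d ≥ 1` and `N ∈ ℕ` the function `min N (r1 ^ (-d/2))` is continuous and `≤ ker d ε (r1 x y)` as soon as `ε ^ (-d) ≥ N`, so
its `μ ⊗ μ` integral is `≤ C / p`; `N → ∞`, monotone convergence. (`d = 0`: the kernel is `1`.) -/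
def P_LIM : Prop :=
  ∀ (d : ℕ) (G : Set (ℝ × ℝ × ℝ)), IsCompact G → ∀ C p ε₀ : ℝ, 0 < p → 0 < ε₀ →
    (∀ ε : ℝ, 0 < ε → ε ≤ ε₀ → ∃ (F : Finset (ℝ × ℝ × ℝ)) (h : ℝ × ℝ × ℝ → ℝ), (F : Set (ℝ × ℝ × ℝ)) ⊆ G ∧
      (∀ x, 0 ≤ h x) ∧ p ≤ ∑ x ∈ F, h x ∧ ∑ x ∈ F, h x ≤ 1 ∧
      ∑ x ∈ F, ∑ y ∈ F, h x * h y * ker d ε (r1 x y) ≤ C * ∑ x ∈ F, h x) →
    Pos (rK d) G

/-- MODU. Proof: on the event the parts of `dX` are bounded on `G` (continuity), so for some `M₀` the event intersected with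
`{all parts ≤ M₀ on G}` has positive (outer) measure `p₀` (`Monotone.measure_iUnion` needs no measurability). Take
`M = M₀ + 1`, `p = p₀ / 2`, a dense sequence in `G` and `F_n` its first `n` points; the increasing events
`{∃ x ∈ F_n, NearB B a ε M x}` exhaust the former one, by continuity. -/
def P_MODU : Prop :=
  ∀ (d : ℕ) (Ω : Type) [MeasurableSpace Ω] (P : Measure Ω) (B : ℝ × ℝ → Ω → (Fin d → ℝ)), CSheet d P B →
    ∀ (η K a : ℝ) (G : Set (ℝ × ℝ × ℝ)), 0 < η → IsCompact G → G ⊆ Box η K a →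
      0 < P {ω | ∃ x ∈ G, dX B x ω = 0} → ∃ M p : ℝ, 0 ≤ M ∧ 0 < p ∧ ∀ ε : ℝ, 0 < ε →
        ∃ F : Finset (ℝ × ℝ × ℝ), (F : Set (ℝ × ℝ × ℝ)) ⊆ G ∧ p ≤ (P {ω | ∃ x ∈ F, NearB B a ε M x ω}).toReal

/-- UP (from KEY2, LIM, MODU). -/
def P_UP : Prop :=
  ∀ (d : ℕ) (Ω : Type) [MeasurableSpace Ω] (P : Measure Ω) (B : ℝ × ℝ → Ω → (Fin d → ℝ)), CSheet d P B →
    ∀ (η K a : ℝ) (G : Set (ℝ × ℝ × ℝ)), 0 < η → IsCompact G → G ⊆ Box η K a →
      0 < P {ω | ∃ x ∈ G, dX B x ω = 0} → Pos (rK d) G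

/-- LOW1 (from SM and SH). Paley-Zygmund. Proof: let `μ` be the probability measure on `G` of finite energy,
`J ω = μ {x | ∀ l, |dX B x ω l| ≤ ε}` (jointly measurable, as `B` is continuous in the point and measurable in `ω`).
`∫ J = ∫ P(…) dμ ≥ c ε^d`, `∫ J² ≤ C ε^(2d) ∫∫ ker d ε (r1 x y) ≤ C ε^(2d) energy` (SM with `I = J = L = Fin 2`),
`(∫ J)² ≤ ∫ J² P(J > 0)`, and `J > 0` implies that some `x ∈ G` has `|dX| ≤ ε`. -/
def P_LOW1 : Prop :=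
  ∀ (d : ℕ) (Ω : Type) [MeasurableSpace Ω] (P : Measure Ω) (B : ℝ × ℝ → Ω → (Fin d → ℝ)), CSheet d P B →
    ∀ (η K a : ℝ) (G : Set (ℝ × ℝ × ℝ)), 0 < η → IsCompact G → G ⊆ Box η K a → Pos (rK d) G →
      ∃ p : ℝ, 0 < p ∧ ∀ ε : ℝ, 0 < ε → ε ≤ 1 → ENNReal.ofReal p ≤ P {ω | ∃ x ∈ G, ∀ l, |dX B x ω l| ≤ ε}

/-- LOW2. Proof: the events `{∃ x ∈ G, ∀ l, |dX B x ω l| ≤ 1/n}` are measurable (dense sequence in `G`, compactness),
decreasing, and their intersection is `{∃ x ∈ G, dX B x ω = 0}`. -/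
def P_LOW2 : Prop :=
  ∀ (d : ℕ) (Ω : Type) [MeasurableSpace Ω] (P : Measure Ω) (B : ℝ × ℝ → Ω → (Fin d → ℝ)), CSheet d P B →
    ∀ (η K a : ℝ) (G : Set (ℝ × ℝ × ℝ)), 0 < η → IsCompact G → G ⊆ Box η K a → ∀ p : ℝ, 0 < p →
      (∀ ε : ℝ, 0 < ε → ε ≤ 1 → ENNReal.ofReal p ≤ P {ω | ∃ x ∈ G, ∀ l, |dX B x ω l| ≤ ε}) →
      0 < P {ω | ∃ x ∈ G, dX B x ω = 0}

/-- REG. Change `B` on a null set. -/
def P_REG : Prop :=
  ∀ (d : ℕ) (Ω : Type) [MeasurableSpace Ω] (P : Measure Ω) (B : ℝ × ℝ → Ω → (Fin d → ℝ)), Sheet d P B →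
    ∃ B' : ℝ × ℝ → Ω → (Fin d → ℝ), CSheet d P B' ∧ ∀ᵐ ω ∂P, ∀ p, B' p ω = B p ω

/-- Q1U (from UP and REG). Proof: `B = B'` almost surely. `G ∩ Off` is the union of the compact sets
`G ∩ Box η K a` (`η = 1/n`, `K = n`, `a` rational) and the sets `{x ∈ G | swap x ∈ Box η K a}`, `swap x = (s, t₂, t₁)`; one of
them is hit with positive probability; for the second kind use `swap '' …`, `dX B (swap x) = - dX B x`,
`r1 (swap x) (swap y) = r1 x y`; a set containing a `Pos` set is `Pos`. -/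
def P_Q1U : Prop :=
  ∀ (d : ℕ) (Ω : Type) [MeasurableSpace Ω] (P : Measure Ω) (B : ℝ × ℝ → Ω → (Fin d → ℝ)), Sheet d P B →
    ∀ G : Set (ℝ × ℝ × ℝ), IsCompact G → (∀ x ∈ G, 0 < x.1 ∧ 0 < x.2.1 ∧ 0 < x.2.2) →
      0 < P {ω | ∃ x ∈ G, x.2.1 ≠ x.2.2 ∧ B (x.1, x.2.1) ω = B (x.1, x.2.2) ω} → Pos (rK d) (G ∩ Off)

/-- Q1L (from LOW1, LOW2 and REG). Proof: one of the sets in the proof of Q1U has positive mass for `μ`; restrict `μ` to it
and normalise. -/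
def P_Q1L : Prop :=
  ∀ (d : ℕ) (Ω : Type) [MeasurableSpace Ω] (P : Measure Ω) (B : ℝ × ℝ → Ω → (Fin d → ℝ)), Sheet d P B →
    ∀ G : Set (ℝ × ℝ × ℝ), IsCompact G → (∀ x ∈ G, 0 < x.1 ∧ 0 < x.2.1 ∧ 0 < x.2.2) → Pos (rK d) (G ∩ Off) →
      0 < P {ω | ∃ x ∈ G, x.2.1 ≠ x.2.2 ∧ B (x.1, x.2.1) ω = B (x.1, x.2.2) ω}

/-! ## Kernels -/

/-- NORM. `r1 / √3 ≤ e3 ≤ r1`. -/
def P_NORM : Prop :=
  ∀ (d : ℕ), 1 ≤ d → ∀ A : Set (ℝ × ℝ × ℝ), Pos (fun x y => U ((d : ℝ) / 2) (e3 x y)) A ↔ Pos (rK d) A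

/-- CAPP. -/
def P_CAPP : Prop :=
  ∀ (X : Type) [MeasurableSpace X] (k : X → X → ℝ≥0∞) (A : Set X), 0 < cap k A ↔ Pos k A

/-- SLICE. Proof: cells of side `δ`. If `|x - y| ≤ δ` then the planar cells of `x` and `y` are equal or adjacent, so
`(μ × μ)(…) ≤ ∑_{R ~ R'} μ R μ R' ≤ 9 ∑ μ R ^ 2`. `μ R = ∑_T ν (R × T)` over at most `(β - α) / δ + 2 ≤ C / δ` cells `T`, so
`μ R ^ 2 ≤ (C / δ) ∑_T ν (R × T) ^ 2` (Cauchy-Schwarz), and `∑_{R, T} ν (R × T)^2 ≤ (ν × ν)(…)` as two points of a half-open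
cell of side `δ` have distance `≤ δ` in each coordinate. -/
def P_SLICE : Prop :=
  ∀ α β : ℝ, ∃ C : ℝ≥0∞, C ≠ ⊤ ∧ ∀ ν : Measure (ℝ × ℝ × ℝ), IsProbabilityMeasure ν →
    ν {x | x.2.2 < α ∨ β < x.2.2} = 0 → ∀ δ : ℝ, 0 < δ → δ ≤ 1 →
      ENNReal.ofReal δ * ((ν.map fun x => (x.1, x.2.1)).prod (ν.map fun x => (x.1, x.2.1)))
        {z | |z.1.1 - z.2.1| ≤ δ ∧ |z.1.2 - z.2.2| ≤ δ} ≤
      C * (ν.prod ν) {z | |z.1.1 - z.2.1| ≤ δ ∧ |z.1.2.1 - z.2.2.1| ≤ δ ∧ |z.1.2.2 - z.2.2.2| ≤ δ}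

/-- Q2R (from SLICE). Projection of measures of finite energy. Proof: `μ = ν.map (x.1, x.2.1)`. `d = 1`: `U = 1`. `d ≥ 2`:
with `m = max (|Δs|, |Δt|) ≤ e2`, `U ((d-2)/2) (e2) ≤ C (1 + ∑_n 2^(n (d/2 - 1)) 1{m ≤ 2^(-n)})`; by SLICE with `δ = 2^(-n)`
the energy is `≤ C (1 + C ∑_n 2^(n d/2) (ν × ν){all three ≤ 2^(-n)})` and `∑_n 2^(n d / 2) 1{m' ≤ 2^(-n)} ≤ C m' ^ (-d/2)`,
`r1 ≤ 3 m'`. -/
def P_Q2R : Prop :=
  ∀ (d : ℕ), 1 ≤ d → ∀ (E : Set (ℝ × ℝ)) (α β : ℝ), MeasurableSet E →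
    Pos (rK d) {x | (x.1, x.2.1) ∈ E ∧ α ≤ x.2.2 ∧ x.2.2 ≤ β} → Pos (fun x y => U (((d : ℝ) - 2) / 2) (e2 x y)) E

/-- Q2L. Proof: `ν = μ × Leb [α, β] / (β - α)`. With `ρ = |Δs| + |Δt₁| ≥ e2`:
`∫∫_{[α,β]²} (ρ + |t - t'|) ^ (-d/2) ≤ 2 (β - α) ∫_0^{β-α} (ρ + τ) ^ (-d/2) dτ ≤ C U ((d-2)/2) (ρ) ≤ C U ((d-2)/2) (e2)`: for
`d = 1` bounded, for `d = 2` it is `log (1 + (β-α)/ρ)`, for `d ≥ 3` at most `ρ ^ (1 - d/2) / (d/2 - 1)`. -/
def P_Q2L : Prop :=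
  ∀ (d : ℕ), 1 ≤ d → ∀ (E : Set (ℝ × ℝ)) (α β : ℝ), MeasurableSet E → α < β →
    Pos (fun x y => U (((d : ℝ) - 2) / 2) (e2 x y)) E → Pos (rK d) {x | (x.1, x.2.1) ∈ E ∧ α ≤ x.2.2 ∧ x.2.2 ≤ β}

/-- Q2A (from Q1U, Q1L, Q2R, Q2L). Proof: `⇒`: for some `n` the event with `t ∈ [1/n, n]` has positive probability; Q1U for
`G = {x | (x.1, x.2.1) ∈ E ∧ 1/n ≤ x.2.2 ≤ n}`, then Q2R. `⇐`: if `E` is not empty take `α` larger than all `t₁` of `E`,
`β = α + 1`, Q2L and Q1L (then `G ⊂ Off`). -/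
def P_Q2A : Prop :=
  ∀ (d : ℕ), 1 ≤ d → ∀ (Ω : Type) [MeasurableSpace Ω] (P : Measure Ω) (B : ℝ × ℝ → Ω → (Fin d → ℝ)), Sheet d P B →
    ∀ E : Set (ℝ × ℝ), IsCompact E → (∀ x ∈ E, 0 < x.1 ∧ 0 < x.2) →
      (0 < P {ω | ∃ x ∈ E, ∃ t : ℝ, 0 < t ∧ t ≠ x.2 ∧ B x ω = B (x.1, t) ω} ↔
        Pos (fun x y => U (((d : ℝ) - 2) / 2) (e2 x y)) E)

/-- the theorem -/
def P_FIN : Prop :=
  ∀ (d : ℕ), 1 ≤ d → ∀ (Ω : Type) [MeasurableSpace Ω] (P : Measure Ω) (B : ℝ × ℝ → Ω → (Fin d → ℝ)), Sheet d P B →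
    (∀ G : Set (ℝ × ℝ × ℝ), IsCompact G → (∀ x ∈ G, 0 < x.1 ∧ 0 < x.2.1 ∧ 0 < x.2.2) →
      (0 < P {ω | ∃ x ∈ G, x.2.1 ≠ x.2.2 ∧ B (x.1, x.2.1) ω = B (x.1, x.2.2) ω} ↔
        0 < cap (fun x y => U ((d : ℝ) / 2) (e3 x y)) (G ∩ Off))) ∧
    (∀ E : Set (ℝ × ℝ), IsCompact E → (∀ x ∈ E, 0 < x.1 ∧ 0 < x.2) →
      (0 < P {ω | ∃ x ∈ E, ∃ t : ℝ, 0 < t ∧ t ≠ x.2 ∧ B x ω = B (x.1, t) ω} ↔
        0 < cap (fun x y => U (((d : ℝ) - 2) / 2) (e2 x y)) E))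

end Pool.Agent.T2H03.DS
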