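import Pool.Agent.T2H03.DS.Stm

set_option autoImplicit false

namespace Pool.Agent.T2H03.DS

open MeasureTheory ProbabilityTheory Finset Filter Topology Pool.Agent.Helper41
open scoped ENNReal NNReal

private theorem cb2_chain {I : Type} [Fintype I] [LinearOrder I] (s lam : I → ℝ) (p : I → ℝ≥0) (h : Chain s lam p)
    (η K : ℝ) (hη : 0 < η) (hV : Val η K s) (i0 i : I) (hi : i0 ≤ i) :
    ∃ t : ℝ, η / K ≤ lam i / lam i0 ∧ lam i / lam i0 ≤ 1 ∧ |lam i / lam i0 - 1| ≤ |s i0 - s i| / η ∧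
      s i - (lam i / lam i0) ^ 2 * s i0 = t * |s i0 - s i| ∧ η / K ≤ t ∧ t ≤ 1 := by
  obtain ⟨h0, h0'⟩ := hV i0
  obtain ⟨h1, h1'⟩ := hV i
  have hK : 0 < K := lt_of_lt_of_le hη (h0.trans h0')
  have hηK : η / K ≤ 1 := (div_le_one hK).2 (h0.trans h0')
  have p0 : 0 < s i0 := lt_of_lt_of_le hη h0
  have p1 : 0 < s i := lt_of_lt_of_le hη h1
  rcases h with ⟨hm, hl, -⟩ | ⟨ha, hl, -⟩
  · have hle : s i0 ≤ s i := hm.monotone hi
    refine ⟨1, ?_, ?_, ?_, ?_, hηK, le_rfl⟩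
    · rw [hl, hl]; simpa using hηK
    · rw [hl, hl]; simp
    · rw [hl, hl]; simp; positivity
    · rw [hl, hl, abs_sub_comm, abs_of_nonneg (sub_nonneg.2 hle)]; ring
  · have hle : s i ≤ s i0 := ha.antitone hi
    refine ⟨s i / s i0, ?_, ?_, ?_, ?_, ?_, ?_⟩
    · rw [hl, hl]; exact div_le_div₀ p1.le h1 p0 h0'
    · rw [hl, hl]; exact (div_le_one p0).2 hle
    · rw [hl, hl]
      have e : s i / s i0 - 1 = -((s i0 - s i) / s i0) := by field_simp; ring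
      rw [e, abs_neg, abs_div, abs_of_pos p0]
      exact div_le_div_of_nonneg_left (abs_nonneg _) hη h0
    · rw [hl, hl, abs_of_nonneg (sub_nonneg.2 hle)]
      field_simp
    · exact div_le_div₀ p1.le h1 p0 h0'
    · exact (div_le_one p0).2 hle

/-- the two-chain estimates in real numbers -/
private theorem cb2_two (η K θ τ a a0 b b0 t t' A B : ℝ) (hη : 0 < η) (hK : η ≤ K) (ha : η ≤ a) (haK : a ≤ K)
    (hb : η ≤ b) (hbK : b ≤ K) (ha0 : η ≤ a0) (ha0K : a0 ≤ K) (hb0 : η ≤ b0) (hb0K : b0 ≤ K)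
    (h1 : η / K ≤ θ) (h2 : θ ≤ 1) (h3 : |θ - 1| ≤ A / η) (h4 : a - θ ^ 2 * a0 = t * A) (h5 : η / K ≤ t) (h6 : t ≤ 1)
    (g1 : η / K ≤ τ) (g2 : τ ≤ 1) (g3 : |τ - 1| ≤ B / η) (g4 : b - τ ^ 2 * b0 = t' * B) (g5 : η / K ≤ t') (g6 : t' ≤ 1)
    (hA : 0 ≤ A) (hB : 0 ≤ B) :
    |θ * τ - 1| ≤ (A + B) / η ∧ η * (η / K) ^ 3 * (A + B) ≤ a * b - (θ * τ) ^ 2 * (a0 * b0) ∧
      a * b - (θ * τ) ^ 2 * (a0 * b0) ≤ K * (A + B) := by
  have hK0 : 0 < K := lt_of_lt_of_le hη hK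
  have hq : 0 < η / K := by positivity
  have hq1 : η / K ≤ 1 := (div_le_one hK0).2 hK
  set κ := η / K with hκ
  have hθ : 0 < θ := lt_of_lt_of_le hq h1
  have hτ : 0 < τ := lt_of_lt_of_le hq g1
  refine ⟨?_, ?_⟩
  · have e : θ * τ - 1 = (θ - 1) * τ + (τ - 1) := by ring
    rw [e]
    refine (abs_add_le _ _).trans ?_
    rw [abs_mul, abs_of_pos hτ, add_div]
    refine add_le_add ?_ g3
    exact (mul_le_of_le_one_right (abs_nonneg _) g2).trans h3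
  · have e : a * b - (θ * τ) ^ 2 * (a0 * b0) = a * (t' * B) + (t * A) * (τ ^ 2 * b0) := by
      rw [← g4, ← h4]; ring
    rw [e]
    have hτ2 : κ ^ 2 ≤ τ ^ 2 := pow_le_pow_left₀ hq.le g1 2
    have hτ2' : τ ^ 2 ≤ 1 := pow_le_one₀ hτ.le g2
    have hk3 : κ ^ 3 ≤ κ := by
      calc κ ^ 3 = κ * κ ^ 2 := by ring
        _ ≤ κ * 1 := mul_le_mul_of_nonneg_left (pow_le_one₀ hq.le hq1) hq.le
        _ = κ := mul_one _
    constructor
    · have x1 : η * κ ^ 3 * B ≤ a * (t' * B) := by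
        calc η * κ ^ 3 * B ≤ η * κ * B := by gcongr
          _ = η * (κ * B) := by ring
          _ ≤ a * (t' * B) := by
            have : 0 ≤ a := hη.le.trans ha
            gcongr
      have x2 : η * κ ^ 3 * A ≤ (t * A) * (τ ^ 2 * b0) := by
        calc η * κ ^ 3 * A = (κ * A) * (κ ^ 2 * η) := by ring
          _ ≤ (t * A) * (τ ^ 2 * b0) := by
            have : 0 ≤ t := hq.le.trans h5
            gcongr
      linarith
    · have x1 : a * (t' * B) ≤ K * B := by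
        have ht : 0 ≤ t' := hq.le.trans g5
        calc a * (t' * B) ≤ K * (1 * B) := by gcongr
          _ = K * B := by ring
      have x2 : (t * A) * (τ ^ 2 * b0) ≤ K * A := by
        have ht : 0 ≤ t := hq.le.trans h5
        calc (t * A) * (τ ^ 2 * b0) ≤ (1 * A) * (1 * K) := by
              have : 0 ≤ b0 := hη.le.trans hb0
              gcongr
          _ = K * A := by ring
      linarith

theorem T_CB2 : P_CB2 := by
  intro η K₀ hη
  obtain ⟨K, hKdef⟩ : ∃ K, K = max K₀ η := ⟨_, rfl⟩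
  have hKη : η ≤ K := hKdef ▸ le_max_right _ _
  have hK₀ : K₀ ≤ K := hKdef ▸ le_max_left _ _
  have hK : 0 < K := lt_of_lt_of_le hη hKη
  refine ⟨max (1 / η) (2 * K), η * (η / K) ^ 3, lt_of_lt_of_le (by positivity) (le_max_left _ _), by positivity, ?_⟩
  intro I J L _ _ _ _ _ _ s lam p u kap q v nu w hs hu hv Vs Vu Vv r0 r hr
  obtain ⟨i0, j0, k0⟩ := r0
  obtain ⟨i, j, k⟩ := r
  have hi : i0 ≤ i := hr.1
  have hj : j0 ≤ j := hr.2.1
  have hk : k0 ≤ k := hr.2.2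
  have Vs' : Val η K s := fun i => ⟨(Vs i).1, (Vs i).2.trans hK₀⟩
  have Vu' : Val η K u := fun i => ⟨(Vu i).1, (Vu i).2.trans hK₀⟩
  have Vv' : Val η K v := fun i => ⟨(Vv i).1, (Vv i).2.trans hK₀⟩
  obtain ⟨t, a1, a2, a3, a4, a5, a6⟩ := cb2_chain s lam p hs η K hη Vs' i0 i hi
  obtain ⟨t', b1, b2, b3, b4, b5, b6⟩ := cb2_chain u kap q hu η K hη Vu' j0 j hj
  obtain ⟨t'', c1, c2, c3, c4, c5, c6⟩ := cb2_chain v nu w hv η K hη Vv' k0 k hk
  obtain ⟨A, hA⟩ : ∃ A, A = |s i0 - s i| := ⟨_, rfl⟩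
  obtain ⟨B, hB⟩ : ∃ B, B = |u j0 - u j| := ⟨_, rfl⟩
  obtain ⟨D, hD⟩ : ∃ D, D = |v k0 - v k| := ⟨_, rfl⟩
  have hA0 : 0 ≤ A := hA ▸ abs_nonneg _
  have hB0 : 0 ≤ B := hB ▸ abs_nonneg _
  have hD0 : 0 ≤ D := hD ▸ abs_nonneg _
  rw [← hA] at a3 a4
  rw [← hB] at b3 b4
  rw [← hD] at c3 c4
  have X := cb2_two η K _ _ _ _ _ _ t t' A B hη hKη (Vs' i).1 (Vs' i).2 (Vu' j).1 (Vu' j).2 (Vs' i0).1 (Vs' i0).2
    (Vu' j0).1 (Vu' j0).2 a1 a2 a3 a4 a5 a6 b1 b2 b3 b4 b5 b6 hA0 hB0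
  have Y := cb2_two η K _ _ _ _ _ _ t t'' A D hη hKη (Vs' i).1 (Vs' i).2 (Vv' k).1 (Vv' k).2 (Vs' i0).1 (Vs' i0).2
    (Vv' k0).1 (Vv' k0).2 a1 a2 a3 a4 a5 a6 c1 c2 c3 c4 c5 c6 hA0 hD0
  have hrg : rg s u v (i0, j0, k0) (i, j, k) = A + B + D := by rw [hA, hB, hD]; rfl
  rw [hrg]
  have e1 : (lam i * kap j) / (lam i0 * kap j0) = lam i / lam i0 * (kap j / kap j0) := mul_div_mul_comm _ _ _ _
  have e2 : (lam i * nu k) / (lam i0 * nu k0) = lam i / lam i0 * (nu k / nu k0) := mul_div_mul_comm _ _ _ _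
  simp only [vr]
  rw [e1, e2]
  obtain ⟨X1, X2, X3⟩ := X
  obtain ⟨Y1, Y2, Y3⟩ := Y
  have hη' : 0 ≤ 1 / η := by positivity
  have m1 : 1 / η ≤ max (1 / η) (2 * K) := le_max_left _ _
  have m2 : 2 * K ≤ max (1 / η) (2 * K) := le_max_right _ _
  have hκ : 0 < η * (η / K) ^ 3 := by positivity
  refine ⟨?_, ?_, ?_, ?_⟩
  · refine X1.trans ?_
    calc (A + B) / η = 1 / η * (A + B) := by ring
      _ ≤ max (1 / η) (2 * K) * (A + B + D) := mul_le_mul m1 (by linarith) (by linarith) (hη'.trans m1)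
  · refine Y1.trans ?_
    calc (A + D) / η = 1 / η * (A + D) := by ring
      _ ≤ max (1 / η) (2 * K) * (A + B + D) := mul_le_mul m1 (by linarith) (by linarith) (hη'.trans m1)
  · have z1 : η * (η / K) ^ 3 * (A + B + D) ≤ η * (η / K) ^ 3 * (A + B) + η * (η / K) ^ 3 * (A + D) := by
      have : 0 ≤ η * (η / K) ^ 3 * A := by positivity
      nlinarith
    linarith
  · have z1 : K * (A + B) + K * (A + D) ≤ max (1 / η) (2 * K) * (A + B + D) := by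
      have : K * (A + B) + K * (A + D) ≤ 2 * K * (A + B + D) := by nlinarith
      refine this.trans ?_
      gcongr
    linarith

end Pool.Agent.T2H03.DS
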