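import Pool.Agent.T2H03.DS.Stm

/-! # Package CO: conditional expectations on product spaces -/

set_option autoImplicit false

namespace Pool.Agent.T2H03.DS

open MeasureTheory ProbabilityTheory Finset Filter Topology Pool.Agent.Helper41
open scoped ENNReal NNReal

namespace COp

variable {S E : Type}

lemma glue_glue (A B : Set S) (x y z : S → E) : glue B (glue A x y) z = glue (A ∩ B) x (glue B y z) := by
  classical
  funext c
  unfold glue
  by_cases hB : c ∈ B
  · by_cases hA : c ∈ A
    · simp [hA, hB]
    · simp [hA, hB]
  · simp [hB]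

variable [MeasurableSpace E]

lemma measurable_glue (A : Set S) : Measurable fun p : (S → E) × (S → E) => glue A p.1 p.2 := by
  classical
  rw [measurable_pi_iff]
  intro c
  unfold glue
  by_cases hA : c ∈ A
  · simp only [if_pos hA]; fun_prop
  · simp only [if_neg hA]; fun_prop

lemma measurable_glue_right (A : Set S) (x : S → E) : Measurable fun y : S → E => glue A x y := by
  have h : Measurable fun y : S → E => (x, y) := by fun_prop
  exact (measurable_glue A).comp h

variable [Fintype S] (γ : S → Measure E) [∀ c, IsProbabilityMeasure (γ c)]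

lemma map_glue (B : Set S) :
    ((Measure.pi γ).prod (Measure.pi γ)).map (fun p : (S → E) × (S → E) => glue B p.1 p.2) = Measure.pi γ := by
  classical
  symm
  refine Measure.pi_eq fun s hs => ?_
  rw [Measure.map_apply (measurable_glue B) (MeasurableSet.univ_pi hs)]
  have hpre : (fun p : (S → E) × (S → E) => glue B p.1 p.2) ⁻¹' (Set.univ.pi s) =
      (Set.univ.pi fun c => if c ∈ B then s c else Set.univ) ×ˢ
        (Set.univ.pi fun c => if c ∈ B then Set.univ else s c) := by
    ext ⟨y, z⟩
    simp only [Set.mem_preimage, Set.mem_univ_pi, Set.mem_prod]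
    constructor
    · intro h
      refine ⟨fun c => ?_, fun c => ?_⟩
      · have := h c
        by_cases hc : c ∈ B
        · simp only [glue, if_pos hc] at this ⊢; exact this
        · simp only [if_neg hc]; trivial
      · have := h c
        by_cases hc : c ∈ B
        · simp only [if_pos hc]; trivial
        · simp only [glue, if_neg hc] at this ⊢; exact this
    · rintro ⟨h1, h2⟩ c
      by_cases hc : c ∈ B
      · have := h1 c
        simp only [glue, if_pos hc] at this ⊢; exact this
      · have := h2 c
        simp only [glue, if_neg hc] at this ⊢; exact this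
  rw [hpre, Measure.prod_prod, Measure.pi_pi, Measure.pi_pi, ← Finset.prod_mul_distrib]
  refine Finset.prod_congr rfl fun c _ => ?_
  by_cases hc : c ∈ B
  · simp only [if_pos hc, measure_univ, mul_one]
  · simp only [if_neg hc, measure_univ, one_mul]

lemma lintegral_glue (B : Set S) (F : (S → E) → ℝ≥0∞) (hF : Measurable F) :
    ∫⁻ y, ∫⁻ z, F (glue B y z) ∂(Measure.pi γ) ∂(Measure.pi γ) = ∫⁻ y, F y ∂(Measure.pi γ) := by
  rw [← map_glue γ B, lintegral_map hF (measurable_glue B), map_glue γ B, lintegral_prod]
  exact (hF.comp (measurable_glue B)).aemeasurable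

end COp

open COp in
theorem T_CO : P_CO := by
  intro S E _ _ γ _
  have h1 : ∀ (A : Set S) (f : (S → E) → ℝ≥0∞), Measurable f → Measurable (cond γ A f) := by
    intro A f hf
    unfold cond
    exact Measurable.lintegral_prod_right' (f := fun p : (S → E) × (S → E) => f (glue A p.1 p.2))
      (hf.comp (measurable_glue A))
  refine ⟨h1, ?_, ?_, ?_⟩
  · intro A B f hf
    funext x
    unfold cond
    simp_rw [glue_glue A B x]
    exact lintegral_glue γ B (fun y => f (glue (A ∩ B) x y)) (hf.comp (measurable_glue_right _ x))
  · intro A f g hf hg hgA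
    rw [← lintegral_glue γ A (fun x => g x * f x) (hg.mul hf)]
    refine lintegral_congr fun x => ?_
    unfold cond
    have hm : Measurable fun y => f (glue A x y) := hf.comp (measurable_glue_right A x)
    rw [← lintegral_const_mul _ hm]
    refine lintegral_congr fun y => ?_
    rw [hgA]
  · intro A f hf x
    unfold cond
    have hm : AEMeasurable (fun y => f (glue A x y)) (Measure.pi γ) :=
      (hf.comp (measurable_glue_right A x)).aemeasurable
    have h2 := ENNReal.lintegral_mul_le_Lp_mul_Lq (Measure.pi γ) (Real.HolderConjugate.two_two) hm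
      (aemeasurable_const (b := (1 : ℝ≥0∞)))
    simp only [Pi.mul_apply, mul_one, ENNReal.one_rpow, lintegral_const, measure_univ] at h2
    have h3 : (∫⁻ y, f (glue A x y) ∂(Measure.pi γ)) ^ 2 ≤
        ((∫⁻ y, f (glue A x y) ^ (2 : ℝ) ∂(Measure.pi γ)) ^ (1 / (2 : ℝ))) ^ 2 := by
      gcongr
    refine h3.trans (le_of_eq ?_)
    rw [← ENNReal.rpow_natCast, ← ENNReal.rpow_mul]
    norm_num

end Pool.Agent.T2H03.DS
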