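import Pool.Agent.T2H03.DS.LibQ1

/-! # Package Q1U -/

set_option autoImplicit false

namespace Pool.Agent.T2H03.DS

open MeasureTheory ProbabilityTheory Finset Filter Topology Pool.Agent.Helper41
open scoped ENNReal NNReal

open LibQ1 in
theorem T_Q1U (hUP : P_UP) (hREG : P_REG) : P_Q1U := by
  intro d Ω _ P B hB G hG hpos h0
  obtain ⟨B', hB', hae⟩ := hREG d Ω P B hB
  have h1 : 0 < P {ω | ∃ x ∈ G, x.2.1 ≠ x.2.2 ∧ B' (x.1, x.2.1) ω = B' (x.1, x.2.2) ω} := by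
    refine h0.trans_le (measure_mono_ae ?_)
    filter_upwards [hae] with ω hω
    rintro ⟨x, hx, hne, he⟩
    exact ⟨x, hx, hne, by rw [hω, hω]; exact he⟩
  have hsub : {ω | ∃ x ∈ G, x.2.1 ≠ x.2.2 ∧ B' (x.1, x.2.1) ω = B' (x.1, x.2.2) ω} ⊆
      (⋃ i, {ω | ∃ x ∈ G ∩ BX i, dX B' x ω = 0}) ∪ ⋃ i, {ω | ∃ x ∈ sw '' G ∩ BX i, dX B' x ω = 0} := by
    rintro ω ⟨x, hx, hne, he⟩
    obtain ⟨p1, p2, p3⟩ := hpos x hx
    rcases cover p1 p2 p3 hne with ⟨i, hi⟩ | ⟨i, hi⟩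
    · exact Or.inl (Set.mem_iUnion.2 ⟨i, x, ⟨hx, hi⟩, (dX_eq_zero B' x ω).2 he⟩)
    · exact Or.inr (Set.mem_iUnion.2 ⟨i, sw x, ⟨⟨x, hx, rfl⟩, hi⟩, (dX_eq_zero B' (sw x) ω).2 he.symm⟩)
  have h2 := h1.trans_le (measure_mono hsub)
  have h3 : (∃ i, 0 < P {ω | ∃ x ∈ G ∩ BX i, dX B' x ω = 0}) ∨
      ∃ i, 0 < P {ω | ∃ x ∈ sw '' G ∩ BX i, dX B' x ω = 0} := by
    by_contra hcon
    push Not at hcon
    apply h2.ne'
    rw [measure_union_null_iff, measure_iUnion_null_iff, measure_iUnion_null_iff]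
    exact ⟨fun i => le_antisymm (hcon.1 i) bot_le, fun i => le_antisymm (hcon.2 i) bot_le⟩
  rcases h3 with ⟨i, hi⟩ | ⟨i, hi⟩
  · have h4 := hUP d Ω P B' hB' _ _ _ (G ∩ BX i) (eta_pos i) (hG.inter_right (isClosed_BX i))
      Set.inter_subset_right hi
    exact Pos.mono (fun x hx => ⟨hx.1, (lt_of_mem_BX hx.2).ne⟩) h4
  · have h4 := hUP d Ω P B' hB' _ _ _ (sw '' G ∩ BX i) (eta_pos i)
      ((hG.image continuous_sw).inter_right (isClosed_BX i)) Set.inter_subset_right hi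
    refine Pos.mono ?_ (Pos.swap h4)
    rintro x ⟨y, ⟨⟨z, hz, rfl⟩, hy⟩, rfl⟩
    rw [sw_sw]
    exact ⟨hz, (lt_of_mem_BX hy).ne'⟩

end Pool.Agent.T2H03.DS
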